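import Pool.Agent.Work.MP_e24068_dich.InterfaceH

/-! Blocks E2, E3 (helper75). -/

set_option autoImplicit false

namespace Pool.FD

open Pool.Agent.Work.MP_e24068_lc (Var Lit Cl Sat3 HasFactorization litsL varsL to3 Inst)

theorem p_E2 : Stmt_E2 := by
  intro τ _ x y
  obtain ⟨a, l⟩ := x
  obtain ⟨b, m⟩ := y
  rw [Bool.eq_iff_iff]
  simp only [N2, V2, U1, V1, U2, RZ, RY, YT, ZT, Bool.or_eq_true, Bool.and_eq_true,
    Bool.not_eq_true', Bool.and_eq_false_iff, decide_eq_false_iff_not]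
  by_cases h : τ l = true <;> by_cases h' : τ m = true <;> grind

theorem p_E3 : Stmt_E3 := by
  intro τ hτ x y z
  obtain ⟨a, l⟩ := x
  obtain ⟨b, m⟩ := y
  obtain ⟨c, k⟩ := z
  have h1 := hτ l
  rw [Bool.eq_iff_iff]
  simp only [N3, N2, V2, U1, V1, U2, U3, RZ, RY, YT, ZT, Bool.or_eq_true, Bool.and_eq_true,
    Bool.not_eq_true', Bool.and_eq_false_iff, Bool.or_eq_false_iff,
    decide_eq_false_iff_not]
  grind

end Pool.FD
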