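import Pool.Agent.Work.MP_e24068_dich.InterfaceH

/-! Block E4 (helper75). -/

set_option autoImplicit false

namespace Pool.FD

open Pool.Agent.Work.MP_e24068_lc (Var Lit Cl Sat3 HasFactorization litsL varsL to3 Inst)

theorem p_E4 : Stmt_E4 := by
  intro ψ τ hg x₁ x₂ x₃ x₄
  obtain ⟨hn, hc⟩ := hg
  by_cases hW : W ψ x₁ x₂ x₃ x₄ = true
  · have h1 := hn x₁.2
    have h2 := hn x₂.2
    rw [W] at hW
    simp only [Bool.or_eq_true] at hW
    rcases hW with ((hW | hW) | hW) | hW
    · simp only [WV, RZ, Bool.and_eq_true, decide_eq_true_eq] at hW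
      simp only [N3, N2, V2, U1, V1, U2, U3, RZ, RY, YT, ZT, Bool.or_eq_true, Bool.and_eq_true,
        Bool.not_eq_true', Bool.and_eq_false_iff, Bool.or_eq_false_iff,
        decide_eq_false_iff_not]
      grind
    · simp only [WU, RY, Bool.and_eq_true, decide_eq_true_eq] at hW
      simp only [N3, N2, V2, U1, V1, U2, U3, RZ, RY, YT, ZT, Bool.or_eq_true, Bool.and_eq_true,
        Bool.not_eq_true', Bool.and_eq_false_iff, Bool.or_eq_false_iff,
        decide_eq_false_iff_not]
      grind
    · simp only [WX, Bool.and_eq_true, decide_eq_true_eq] at hW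
      simp only [N3, N2, V2, U1, V1, U2, U3, RZ, RY, YT, ZT, Bool.or_eq_true, Bool.and_eq_true,
        Bool.not_eq_true', Bool.and_eq_false_iff, Bool.or_eq_false_iff,
        decide_eq_false_iff_not]
      grind
    · simp only [WC, Bool.and_eq_true, decide_eq_true_eq, List.any_eq_true] at hW
      obtain ⟨⟨⟨⟨a1, a2⟩, a3⟩, a4⟩, c, hcm, ⟨b1, b2⟩, b3⟩ := hW
      have h3 := hc c hcm
      have h4 := hn c.2.1
      have h5 := hn c.2.2
      simp only [N3, N2, V2, U1, V1, U2, U3, RZ, RY, YT, ZT, Bool.or_eq_true, Bool.and_eq_true,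
        Bool.not_eq_true', Bool.and_eq_false_iff, Bool.or_eq_false_iff,
        decide_eq_false_iff_not]
      rcases h3 with h3 | h3 | h3 <;> grind
  · simp [hW]

end Pool.FD
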