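import Pool.Agent.Work.MP_e24068_dich.InterfaceH

/-! Block E5 (helper84) -/

set_option autoImplicit false

namespace Pool.FD

open Pool.Agent.Work.MP_e24068_lc (Var Lit Cl Sat3 HasFactorization litsL varsL to3 Inst)

theorem E5_W {ψ : List Cl} {x₁ x₂ x₃ x₄ : Lt} (h : W ψ x₁ x₂ x₃ x₄ = true)
    (h' : WV x₁ x₂ x₃ x₄ = false) : x₁.1 = 0 ∧ (x₂.1 = 4 ∨ x₂.1 = 5) := by
  unfold W at h
  rw [h', Bool.false_or, Bool.or_eq_true, Bool.or_eq_true] at h
  rcases h with (h | h) | h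
  · simp only [WU, RY, Bool.and_eq_true, decide_eq_true_eq] at h
    exact ⟨h.1.1.1.1, Or.inr h.1.1.1.2⟩
  · simp only [WX, Bool.and_eq_true, decide_eq_true_eq] at h
    exact ⟨h.1.1.1.1, Or.inl h.1.1.1.2⟩
  · simp only [WC, Bool.and_eq_true, decide_eq_true_eq] at h
    exact ⟨h.1.1.1.1, Or.inl h.1.1.1.2⟩

theorem p_E5 : Stmt_E5 := by
  intro ψ τ _ x₁ x₂ x₃ x₄ x₅
  cases hv : WV x₂ x₃ x₄ x₅ with
  | true =>
    have hw : W ψ x₂ x₃ x₄ x₅ = true := by
      unfold W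
      rw [hv]
      simp
    have h1 := hv
    simp only [WV, RZ, Bool.and_eq_true, decide_eq_true_eq] at h1
    have a := h1.1.1.1
    have b := h1.1.1.2.1.1
    have c := h1.1.1.2.1.2
    have d := h1.1.1.2.2
    have e := h1.1.2
    have hn : N3 x₃ x₄ x₅ = true := by
      simp [N3, RZ, b, c, d, e]
    have hu : U3 x₁ x₂ x₃ = false := by
      simp [U3, a]
    simp [V5, hw, hn, hu]
  | false =>
    cases hw : W ψ x₂ x₃ x₄ x₅ with
    | true =>
      obtain ⟨a, b⟩ := E5_W hw hv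
      have hu : U2 τ x₁ x₂ = true := by
        simp [U2, N2, RZ, RY, a]
      have hn : N3 x₃ x₄ x₅ = false := by
        rcases b with b | b <;> simp [N3, RZ, RY, b]
      simp [hu, hn]
    | false =>
      by_cases h0 : x₁.1 = 0
      · simp [V5, hw, F, h0]
      · simp [U1, h0]

end Pool.FD
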