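import Pool.Agent.Work.MP_e24068_dich.InterfaceH

/-!
Block E67: the levels `6` and `7`.
-/

set_option autoImplicit false

namespace Pool.FD

open Pool.Agent.Work.MP_e24068_lc (Var Lit Cl Sat3 HasFactorization litsL varsL to3 Inst)

/-- **E6** -/
theorem p_E6 : Stmt_E6 := by
  intro ψ τ _ x₁ x₂ x₃ x₄ x₅ x₆
  unfold L6 U1 U2 V5
  generalize W ψ x₃ x₄ x₅ x₆ = w
  generalize (U3 x₁ x₂ x₃ && !N3 x₄ x₅ x₆) = u
  unfold N2 RZ RY F
  rcases x₁ with ⟨a, l⟩
  rcases x₂ with ⟨b, m⟩
  generalize (decide (x₃.1 = 4) : Bool) = c3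
  generalize (decide (x₄.1 = 4) : Bool) = c4
  generalize (decide (x₅.1 = 4) : Bool) = c5
  generalize (decide (x₆.1 = 4) : Bool) = c6
  dsimp only
  cases u
  · cases w
    · by_cases ha : a = 0
      · subst ha
        by_cases h5 : b = 5
        · subst h5
          cases τ l <;> simp
        · by_cases h1 : b = 1
          · subst h1
            simp
          · by_cases h2 : b = 2
            · subst h2
              simp
            · simp [h1, h2, h5]
      · simp [ha]
    · simp
  · simp

/-- **E7** -/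
theorem p_E7 : Stmt_E7 := by
  intro ψ τ _ x₁ x₂ x₃ x₄ x₅ x₆ x₇
  unfold L7 U2 V5 U3 N3
  generalize W ψ x₄ x₅ x₆ x₇ = w
  unfold N2 RZ RY F
  rcases x₁ with ⟨a, l⟩
  rcases x₂ with ⟨b, m⟩
  rcases x₃ with ⟨c, k⟩
  generalize (decide (x₄.1 = 4) : Bool) = c3
  generalize (decide (x₅.1 = 4) : Bool) = c4
  generalize (decide (x₆.1 = 4) : Bool) = c5
  generalize (decide (x₇.1 = 4) : Bool) = c6
  dsimp only
  cases w
  · by_cases ha : a = 0
    · subst ha
      by_cases h5 : b = 5
      · subst h5
        by_cases hc : c = 1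
        · subst hc
          simp
        · simp [hc]
      · by_cases h1 : b = 1
        · subst h1
          simp
        · by_cases h2 : b = 2
          · subst h2
            simp
          · simp [h1, h2, h5]
    · simp [ha]
  · simp

end Pool.FD
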