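import Pool.Agent.Work.MP_e24068_dich.InterfaceP

set_option autoImplicit false

namespace Pool.FD

open Pool.Agent.Work.TMLib Pool.Agent.Work.MP_e24068_lc

theorem p_F3 (h1 : Stmt_F2) : Stmt_F3 := by
  intro L U V a b u v r hF hul huU huL hvl hvV hvL hrl hrU hrL hgd
  obtain ⟨t, ht, htl⟩ := hF.vq
  cases t with
  | nil => simp at htl
  | cons x v' =>
    have hv' : v'.length = b + 3 := by
      rw [List.length_cons] at htl
      omega
    obtain ⟨-, -, hxv⟩ := h1 L U V a b u v hF hul huU huL hvl hvV hvL x v' hv' ht
    have hxl : (x :: v).length = b + 3 := by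
      rw [List.length_cons, hvl]
    have hL : r ++ (x :: v) ∈ L := hrL _ hxv hxl
    obtain ⟨u1, hu1, v1, hv1, heq⟩ := (hF.fac _).1 hL
    have hlen : u1.length + v1.length = a + b + 4 := by
      have := congrArg List.length heq
      rw [List.length_append, List.length_append, hrl, hxl] at this
      omega
    have b1 := hF.ul u1 hu1
    have b2 := hF.vl v1 hv1
    -- u1 and v1 as take and drop
    have e1 : u1 = (r ++ (x :: v)).take u1.length := by
      rw [← heq, List.take_left']
      rfl
    have e2 : v1 = (r ++ (x :: v)).drop u1.length := by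
      rw [← heq, List.drop_left']
      rfl
    have h6 : u1.length = a ∨ u1.length = a + 1 ∨ u1.length = a + 2 ∨ u1.length = a + 3 := by
      omega
    rcases h6 with h6 | h6 | h6 | h6
    · exfalso
      rw [h6] at e1 e2
      have e3 : (r ++ (x :: v)).take a = r.take a := by
        rw [List.take_append_of_le_length (by omega)]
      have e4 : (r ++ (x :: v)).drop a = r.drop a ++ (x :: v) := by
        rw [List.drop_append_of_le_length (by omega)]
      rw [e3] at e1
      rw [e4] at e2
      rcases hgd with h | h
      · exact h (e1 ▸ hu1)
      · exact h _ hxl (e2 ▸ hv1)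
    · exfalso
      rw [h6] at e1
      have e3 : (r ++ (x :: v)).take (a + 1) = r := by
        rw [← hrl, List.take_left']
        rfl
      rw [e3] at e1
      exact hrU (e1 ▸ hu1)
    · exfalso
      rw [h6] at e2
      have e3 : (r ++ (x :: v)).drop (a + 2) = v := by
        have : r ++ (x :: v) = (r ++ [x]) ++ v := by simp
        rw [this, List.drop_left']
        rw [List.length_append, hrl]
        rfl
      rw [e3] at e2
      exact hvV (e2 ▸ hv1)
    · rw [h6] at e2
      have e3 : (r ++ (x :: v)).drop (a + 3) = v.drop 1 := by
        have e5 : r ++ (x :: v) = (r ++ [x]) ++ v := by simp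
        have e6 : a + 3 = (r ++ [x]).length + 1 := by
          rw [List.length_append, hrl]
          rfl
        rw [e5, e6, ← List.drop_drop, List.drop_left']
        rfl
      rw [e3] at e2
      rw [← e2]
      exact hv1

end Pool.FD
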