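import Pool.Agent.Work.MP_e24068_dich.InterfaceP

/-! Block FEX: lengths of a factorization. -/

set_option autoImplicit false

namespace Pool.FD

open Pool.Agent.Work.TMLib Pool.Agent.Work.MP_e24068_lc

theorem FEX_minmax (U : Set Wd) (hf : U.Finite) (hn : U.Nonempty) :
    ∃ a p : ℕ, (∀ u ∈ U, a ≤ u.length ∧ u.length ≤ p) ∧ (∃ u ∈ U, u.length = a) ∧
      (∃ u ∈ U, u.length = p) ∧ a ≤ p := by
  obtain ⟨u1, h1, h1m⟩ := Set.exists_min_image U (fun u : Wd => u.length) hf hn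
  obtain ⟨u2, h2, h2m⟩ := Set.exists_max_image U (fun u : Wd => u.length) hf hn
  refine ⟨u1.length, u2.length, ?_, ⟨u1, h1, rfl⟩, ⟨u2, h2, rfl⟩, h1m u2 h2⟩
  intro u hu
  exact ⟨h1m u hu, h2m u hu⟩

theorem FEX_nonempty_word (U : Language ℕ) (hn : (U : Set Wd).Nonempty) (h1 : U ≠ 1) :
    ∃ u ∈ (U : Set Wd), u ≠ [] := by
  by_contra hc
  push Not at hc
  apply h1
  obtain ⟨x, hx⟩ := hn
  have hx0 : x = [] := hc x hx
  ext w
  rw [Language.mem_one]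
  constructor
  · intro hw
    exact hc w hw
  · intro hw
    rw [hw, ← hx0]
    exact hx

theorem FEX_len (L : List Wd) (w : Wd) (hw : w ∈ L) :
    w.length ≤ (L.flatMap fun w => w).length := by
  rw [List.length_flatMap]
  induction L with
  | nil => simp at hw
  | cons v L ih =>
    rw [List.map_cons, List.sum_cons]
    rcases List.mem_cons.mp hw with h | h
    · rw [h]; omega
    · have := ih h
      omega

theorem p_FEX : Stmt_FEX := by
  intro L hL hlen hF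
  obtain ⟨L₁, L₂, hf1, hf2, hmul, hn1, hn2⟩ := hF
  have hmem : ∀ w, w ∈ L ↔ ∃ u ∈ (L₁ : Set Wd), ∃ v ∈ (L₂ : Set Wd), u ++ v = w := by
    intro w
    have h : w ∈ LW L ↔ w ∈ L := Iff.rfl
    rw [← h, hmul, Language.mem_mul]
  obtain ⟨w0, hw0⟩ := List.exists_mem_of_ne_nil L hL
  obtain ⟨u0, hu0, v0, hv0, _⟩ := (hmem w0).mp hw0
  have hU : (L₁ : Set Wd).Nonempty := ⟨u0, hu0⟩
  have hV : (L₂ : Set Wd).Nonempty := ⟨v0, hv0⟩
  obtain ⟨a, p, hul, hua, hup, hap⟩ := FEX_minmax _ hf1 hU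
  obtain ⟨b, q, hvl, hvb, hvq, hbq⟩ := FEX_minmax _ hf2 hV
  have hun := FEX_nonempty_word L₁ hU hn1
  have hvn := FEX_nonempty_word L₂ hV hn2
  refine ⟨(L₁ : Set Wd), (L₂ : Set Wd), a, b, p, q,
    ⟨hmem, hul, hvl, hua, hup, hvb, hvq, hun, hvn⟩, ?_, hap, hbq, ?_⟩
  · obtain ⟨ua, hua1, hua2⟩ := hua
    obtain ⟨up, hup1, hup2⟩ := hup
    obtain ⟨vb, hvb1, hvb2⟩ := hvb
    obtain ⟨vq, hvq1, hvq2⟩ := hvq
    have h1 : ua ++ vb ∈ L := (hmem _).mpr ⟨ua, hua1, vb, hvb1, rfl⟩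
    have h2 : up ++ vq ∈ L := (hmem _).mpr ⟨up, hup1, vq, hvq1, rfl⟩
    have h3 := hlen _ h1 _ h2
    rw [List.length_append, List.length_append] at h3
    omega
  · obtain ⟨up, hup1, hup2⟩ := hup
    obtain ⟨vq, hvq1, hvq2⟩ := hvq
    have h2 : up ++ vq ∈ L := (hmem _).mpr ⟨up, hup1, vq, hvq1, rfl⟩
    have h3 := FEX_len L _ h2
    rw [List.length_append] at h3
    omega

end Pool.FD
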