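import Pool.Agent.Work.MP_e24068_dich.InterfaceH

/-!
Block HF: a satisfying assignment gives a factorization.
-/

set_option autoImplicit false

namespace Pool.FD

open Pool.Agent.Work.MP_e24068_lc (Var Lit Cl Sat3 HasFactorization litsL varsL to3 Inst)

/-- Level `1`. -/
theorem HF_E1 (τ : Lit → Bool) (x : Lt) : (V1 τ x || U1 τ x) = true := by
  unfold V1 U1
  by_cases h : x.1 = 0
  · simp [h]
  · simp [h]

/-- Products are in the language. -/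
theorem HF_mul (h1 : Stmt_E2) (h2 : Stmt_E3) (h4 : Stmt_E5) (h5 : Stmt_E6)
    (h6 : Stmt_E7) (ψ : List Cl) (τ : Lit → Bool) (hg : Good ψ τ) (u v : List Lt)
    (hu : Ub τ u = true) (hv : Vb ψ τ v = true) : Lb ψ (u ++ v) = true := by
  match u, hu with
  | [], _ =>
    match v, hv with
    | [], _ => rfl
    | [_], _ => rfl
    | [x, y], hv =>
      show (!N2 x y) = true
      have hv' : V2 τ x y = true := hv
      rw [h1 τ hg.1, hv', Bool.true_or, Bool.true_or]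
    | [_, _, _], hv => exact hv
    | [_, _, _, _], _ => rfl
    | [x₁, x₂, x₃, x₄, x₅], hv =>
      show (!WV x₂ x₃ x₄ x₅) = true
      have hv' : V5 ψ x₁ x₂ x₃ x₄ x₅ = true := hv
      rw [h4 ψ τ hg x₁, hv', Bool.true_or, Bool.true_or, Bool.true_or]
    | _ :: _ :: _ :: _ :: _ :: _ :: _, hv => exact absurd hv (by simp [Vb])
  | [x₁], hu =>
    have hu' : U1 τ x₁ = true := hu
    match v, hv with
    | [], _ => rfl
    | [y], hv =>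
      have hv' : V1 τ y = true := hv
      show (!N2 x₁ y) = true
      rw [h1 τ hg.1, hu', hv']
      simp
    | [y, z], hv =>
      have hv' : V2 τ y z = true := hv
      show (!N3 x₁ y z) = true
      rw [h2 τ hg.1, hu', hv']
      simp
    | [_, _, _], _ => rfl
    | [x₂, x₃, x₄, x₅], hv =>
      have hv' : (!W ψ x₂ x₃ x₄ x₅) = true := hv
      show (!WV x₂ x₃ x₄ x₅) = true
      rw [h4 ψ τ hg x₁, hu', hv']
      simp
    | [x₂, x₃, x₄, x₅, x₆], hv =>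
      have hv' : V5 ψ x₂ x₃ x₄ x₅ x₆ = true := hv
      show L6 ψ x₁ x₂ x₃ x₄ x₅ x₆ = true
      rw [h5 ψ τ hg, hu', hv']
      simp
    | _ :: _ :: _ :: _ :: _ :: _ :: _, hv => exact absurd hv (by simp [Vb])
  | [x₁, x₂], hu =>
    have hu' : U2 τ x₁ x₂ = true := hu
    match v, hv with
    | [], _ =>
      show (!N2 x₁ x₂) = true
      rw [h1 τ hg.1, hu']
      simp
    | [y], hv =>
      have hv' : V1 τ y = true := hv
      show (!N3 x₁ x₂ y) = true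
      rw [h2 τ hg.1, hu', hv']
      simp
    | [_, _], _ => rfl
    | [x₃, x₄, x₅], hv =>
      have hv' : (!N3 x₃ x₄ x₅) = true := hv
      show (!WV x₂ x₃ x₄ x₅) = true
      rw [h4 ψ τ hg x₁, hu', hv']
      simp
    | [x₃, x₄, x₅, x₆], hv =>
      have hv' : (!W ψ x₃ x₄ x₅ x₆) = true := hv
      show L6 ψ x₁ x₂ x₃ x₄ x₅ x₆ = true
      rw [h5 ψ τ hg, hu', hv']
      simp
    | [x₃, x₄, x₅, x₆, x₇], hv =>
      have hv' : V5 ψ x₃ x₄ x₅ x₆ x₇ = true := hv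
      show L7 ψ x₁ x₂ x₃ x₄ x₅ x₆ x₇ = true
      rw [h6 ψ τ hg, hu', hv']
      simp
    | _ :: _ :: _ :: _ :: _ :: _ :: _, hv => exact absurd hv (by simp [Vb])
  | [x₁, x₂, x₃], hu =>
    have hu' : U3 x₁ x₂ x₃ = true := hu
    match v, hv with
    | [], _ =>
      show (!N3 x₁ x₂ x₃) = true
      rw [h2 τ hg.1, hu']
      simp
    | [_], _ => rfl
    | [x₄, x₅], hv =>
      have hv' : V2 τ x₄ x₅ = true := hv
      show (!WV x₂ x₃ x₄ x₅) = true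
      rw [h4 ψ τ hg x₁, hu', hv']
      simp
    | [x₄, x₅, x₆], hv =>
      have hv' : (!N3 x₄ x₅ x₆) = true := hv
      show L6 ψ x₁ x₂ x₃ x₄ x₅ x₆ = true
      rw [h5 ψ τ hg, hu', hv']
      simp
    | [x₄, x₅, x₆, x₇], hv =>
      have hv' : (!W ψ x₄ x₅ x₆ x₇) = true := hv
      show L7 ψ x₁ x₂ x₃ x₄ x₅ x₆ x₇ = true
      rw [h6 ψ τ hg, hu', hv']
      simp
    | [x₄, x₅, x₆, x₇, x₈], hv =>
      have hv' : V5 ψ x₄ x₅ x₆ x₇ x₈ = true := hv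
      show (U3 x₁ x₂ x₃ && V5 ψ x₄ x₅ x₆ x₇ x₈) = true
      rw [hu', hv']
      rfl
    | _ :: _ :: _ :: _ :: _ :: _ :: _, hv => exact absurd hv (by simp [Vb])
  | _ :: _ :: _ :: _ :: _, hu => exact absurd hu (by simp [Ub])

/-- Every word of the language is a product. -/
theorem HF_split (h1 : Stmt_E2) (h3 : Stmt_E4) (h4 : Stmt_E5) (h5 : Stmt_E6)
    (h6 : Stmt_E7) (ψ : List Cl) (τ : Lit → Bool) (hg : Good ψ τ) (w : List Lt)
    (hw : Lb ψ w = true) : ∃ u v, w = u ++ v ∧ Ub τ u = true ∧ Vb ψ τ v = true := by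
  match w, hw with
  | [], _ => exact ⟨[], [], rfl, rfl, rfl⟩
  | [x], _ =>
    have h := HF_E1 τ x
    rw [Bool.or_eq_true] at h
    rcases h with h | h
    · exact ⟨[], [x], rfl, rfl, h⟩
    · exact ⟨[x], [], rfl, h, rfl⟩
  | [x, y], hw =>
    have hw' : (!N2 x y) = true := hw
    rw [h1 τ hg.1, Bool.or_eq_true, Bool.or_eq_true, Bool.and_eq_true] at hw'
    rcases hw' with (h | ⟨h, h'⟩) | h
    · exact ⟨[], [x, y], rfl, rfl, h⟩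
    · exact ⟨[x], [y], rfl, h, h'⟩
    · exact ⟨[x, y], [], rfl, h, rfl⟩
  | [x, y, z], hw => exact ⟨[], [x, y, z], rfl, rfl, hw⟩
  | [x₁, x₂, x₃, x₄], _ =>
    have hw' := h3 ψ τ hg x₁ x₂ x₃ x₄
    rw [Bool.or_eq_true, Bool.or_eq_true, Bool.or_eq_true, Bool.and_eq_true, Bool.and_eq_true,
      Bool.and_eq_true] at hw'
    rcases hw' with ((h | ⟨h, h'⟩) | ⟨h, h'⟩) | ⟨h, h'⟩
    · exact ⟨[], [x₁, x₂, x₃, x₄], rfl, rfl, h⟩
    · exact ⟨[x₁], [x₂, x₃, x₄], rfl, h, h'⟩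
    · exact ⟨[x₁, x₂], [x₃, x₄], rfl, h, h'⟩
    · exact ⟨[x₁, x₂, x₃], [x₄], rfl, h, h'⟩
  | [x₁, x₂, x₃, x₄, x₅], hw =>
    have hw' : (!WV x₂ x₃ x₄ x₅) = true := hw
    rw [h4 ψ τ hg x₁, Bool.or_eq_true, Bool.or_eq_true, Bool.or_eq_true, Bool.and_eq_true,
      Bool.and_eq_true, Bool.and_eq_true] at hw'
    rcases hw' with ((h | ⟨h, h'⟩) | ⟨h, h'⟩) | ⟨h, h'⟩
    · exact ⟨[], [x₁, x₂, x₃, x₄, x₅], rfl, rfl, h⟩
    · exact ⟨[x₁], [x₂, x₃, x₄, x₅], rfl, h, h'⟩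
    · exact ⟨[x₁, x₂], [x₃, x₄, x₅], rfl, h, h'⟩
    · exact ⟨[x₁, x₂, x₃], [x₄, x₅], rfl, h, h'⟩
  | [x₁, x₂, x₃, x₄, x₅, x₆], hw =>
    have hw' : L6 ψ x₁ x₂ x₃ x₄ x₅ x₆ = true := hw
    rw [h5 ψ τ hg, Bool.or_eq_true, Bool.or_eq_true, Bool.and_eq_true,
      Bool.and_eq_true, Bool.and_eq_true] at hw'
    rcases hw' with (⟨h, h'⟩ | ⟨h, h'⟩) | ⟨h, h'⟩
    · exact ⟨[x₁], [x₂, x₃, x₄, x₅, x₆], rfl, h, h'⟩
    · exact ⟨[x₁, x₂], [x₃, x₄, x₅, x₆], rfl, h, h'⟩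
    · exact ⟨[x₁, x₂, x₃], [x₄, x₅, x₆], rfl, h, h'⟩
  | [x₁, x₂, x₃, x₄, x₅, x₆, x₇], hw =>
    have hw' : L7 ψ x₁ x₂ x₃ x₄ x₅ x₆ x₇ = true := hw
    rw [h6 ψ τ hg, Bool.or_eq_true, Bool.and_eq_true, Bool.and_eq_true] at hw'
    rcases hw' with ⟨h, h'⟩ | ⟨h, h'⟩
    · exact ⟨[x₁, x₂], [x₃, x₄, x₅, x₆, x₇], rfl, h, h'⟩
    · exact ⟨[x₁, x₂, x₃], [x₄, x₅, x₆, x₇], rfl, h, h'⟩
  | [x₁, x₂, x₃, x₄, x₅, x₆, x₇, x₈], hw =>
    have hw' : (U3 x₁ x₂ x₃ && V5 ψ x₄ x₅ x₆ x₇ x₈) = true := hw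
    rw [Bool.and_eq_true] at hw'
    exact ⟨[x₁, x₂, x₃], [x₄, x₅, x₆, x₇, x₈], rfl, hw'.1, hw'.2⟩
  | _ :: _ :: _ :: _ :: _ :: _ :: _ :: _ :: _ :: _, hw => exact absurd hw (by simp [Lb])

/-- **HF** -/
theorem p_HF (h1 : Stmt_E2) (h2 : Stmt_E3) (h3 : Stmt_E4) (h4 : Stmt_E5) (h5 : Stmt_E6)
    (h6 : Stmt_E7) (h7 : Stmt_ML) : Stmt_HF := by
  intro ψ V τ hg
  obtain ⟨-, hfin, -, -⟩ := h7 ψ V
  set L₁ : Language Lt := {w | (∀ x ∈ w, x ∈ alph V) ∧ Ub τ w = true} with hL₁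
  set L₂ : Language Lt := {w | (∀ x ∈ w, x ∈ alph V) ∧ Vb ψ τ w = true} with hL₂
  have hL : LL ψ V = L₁ * L₂ := by
    ext w
    rw [Language.mem_mul]
    constructor
    · rintro ⟨ha, hw⟩
      obtain ⟨u, v, rfl, hu, hv⟩ := HF_split h1 h3 h4 h5 h6 ψ τ hg w hw
      exact ⟨u, ⟨fun x hx => ha x (List.mem_append_left v hx), hu⟩, v,
        ⟨fun x hx => ha x (List.mem_append_right u hx), hv⟩, rfl⟩
    · rintro ⟨u, ⟨hau, hu⟩, v, ⟨hav, hv⟩, rfl⟩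
      refine ⟨fun x hx => ?_, HF_mul h1 h2 h4 h5 h6 ψ τ hg u v hu hv⟩
      rcases List.mem_append.1 hx with hx | hx
      · exact hau x hx
      · exact hav x hx
  have hn1 : [] ∈ L₁ := ⟨by simp, rfl⟩
  have hn2 : [] ∈ L₂ := ⟨by simp, rfl⟩
  have hq : ∀ x ∈ [((4, l0) : Lt)], x ∈ alph V := by
    intro x hx
    rw [List.mem_singleton] at hx
    subst hx
    unfold alph
    simp
  have hq1 : [((4, l0) : Lt)] ∈ L₁ := ⟨hq, by simp [Ub, U1]⟩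
  have hq2 : [((4, l0) : Lt)] ∈ L₂ := ⟨hq, by simp [Vb, V1]⟩
  refine ⟨L₁, L₂, ?_, ?_, hL, ?_, ?_⟩
  · apply hfin.subset
    intro u hu
    show u ∈ LL ψ V
    rw [hL, Language.mem_mul]
    exact ⟨u, hu, [], hn2, List.append_nil u⟩
  · apply hfin.subset
    intro v hv
    show v ∈ LL ψ V
    rw [hL, Language.mem_mul]
    exact ⟨[], hn1, v, hv, rfl⟩
  · intro h
    rw [h, Language.mem_one] at hq1
    simp at hq1
  · intro h
    rw [h, Language.mem_one] at hq2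
    simp at hq2

end Pool.FD
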