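import Pool.Agent.Work.MP_e24068_dich.InterfaceP

/-!
Block HFX: the Horn algorithm reaches a fixed point, below every solution.
-/

set_option autoImplicit false

namespace Pool.FD

open Pool.Agent.Work.TMLib Pool.Agent.Work.MP_e24068_lc

lemma HFX_sub {α : Type} [DecidableEq α] (P : List α) (f : List α → α → Bool)
    (hf : ∀ X p, p ∈ X → f X p = true) (n : ℕ) :
    List.Sublist ((fun X => P.filter (f X))^[n] []) ((fun X => P.filter (f X))^[n + 1] []) := by
  cases n with
  | zero => simp
  | succ n =>
    rw [Function.iterate_succ_apply' _ (n + 1), Function.iterate_succ_apply' _ n]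
    generalize ((fun X => P.filter (f X))^[n] []) = Y
    have e1 : P.filter (f Y) = P.filter (fun p => decide (p ∈ P) && f Y p) := by
      apply List.filter_congr
      intro p hp
      simp [hp]
    conv_lhs => rw [e1]
    apply List.monotone_filter_right
    intro p hp
    simp only [Bool.and_eq_true, decide_eq_true_eq] at hp
    apply hf
    rw [List.mem_filter]
    exact hp

lemma HFX_fix {α : Type} [DecidableEq α] (P : List α) (f : List α → α → Bool)
    (hf : ∀ X p, p ∈ X → f X p = true) :
    P.filter (f ((fun X => P.filter (f X))^[P.length + 1] [])) =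
      (fun X => P.filter (f X))^[P.length + 1] [] := by
  set F : List α → List α := fun X => P.filter (f X) with hF
  have hex : ∃ n, n ≤ P.length ∧ F^[n] [] = F^[n + 1] [] := by
    by_contra hcon
    push Not at hcon
    have hlen : ∀ n, n ≤ P.length + 1 → n ≤ (F^[n] []).length := by
      intro n
      induction n with
      | zero => simp
      | succ n ih =>
        intro hn
        have h1 := ih (by omega)
        have h2 := HFX_sub P f hf n
        have h3 := hcon n (by omega)
        have h4 : (F^[n] []).length < (F^[n + 1] []).length := by
          by_contra h5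
          exact h3 (h2.eq_of_length_le (not_lt.1 h5))
        omega
    have h6 := hlen (P.length + 1) le_rfl
    rw [Function.iterate_succ_apply'] at h6
    have h7 : (F (F^[P.length] [])).length ≤ P.length := by
      simp only [hF]
      exact List.length_filter_le _ _
    omega
  obtain ⟨n, hn, he⟩ := hex
  have hfix : F (F^[n] []) = F^[n] [] := by
    rw [← Function.iterate_succ_apply' F n]
    exact he.symm
  have h8 : F^[P.length + 1] [] = F^[n] [] := by
    have h9 : P.length + 1 = (P.length + 1 - n) + n := by omega
    rw [h9, Function.iterate_add_apply]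
    exact Function.iterate_fixed hfix _
  rw [h8]
  exact hfix

lemma HFX_mb (L : List Wd) (w : Wd) : mb L w = true ↔ w ∈ L := by
  simp [mb]

lemma HFX_cov (U V : List Wd) (w : Wd) :
    cov U V w = true ↔ ∃ u ∈ U, ∃ v ∈ V, u ++ v = w := by
  simp [cov]

lemma HFX_okR (L K : List Wd) (v : Wd) : okR L K v = true ↔ ∀ u ∈ K, u ++ v ∈ L := by
  simp [okR, HFX_mb]

lemma HFX_pre (L : List Wd) (k : ℕ) (u : Wd) :
    u ∈ pre L k ↔ ∃ w ∈ L, k ≤ w.length ∧ w.take k = u := by
  simp [pre, and_assoc]

lemma HFX_sufs (L : List Wd) (u v : Wd) (h : u ++ v ∈ L) : v ∈ sufs L := by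
  simp only [sufs, List.mem_flatMap, List.mem_map, List.mem_range]
  refine ⟨u ++ v, h, u.length, ?_, ?_⟩
  · simp only [List.length_append]; omega
  · simp

/-- Block HFX. -/
theorem p_HFX : Stmt_HFX := by
  intro L K l
  constructor
  · intro w hw hl hc
    have hfix := HFX_fix (pre L l) (fun X p => mb X p ||
      L.any fun w => decide (l ≤ w.length) && decide (w.take l = p) && !cov K (hV L K X) w)
      (fun X p hp => by simp [(HFX_mb X p).2 hp])
    have e1 : hX L K l = (fun X => (pre L l).filter ((fun X p => mb X p ||
        L.any fun w => decide (l ≤ w.length) && decide (w.take l = p) && !cov K (hV L K X) w) X))^[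
        (pre L l).length + 1] [] := rfl
    rw [← e1] at hfix
    rw [← hfix, List.mem_filter]
    refine ⟨(HFX_pre _ _ _).2 ⟨w, hw, hl, rfl⟩, ?_⟩
    rw [Bool.or_eq_true]
    right
    rw [List.any_eq_true]
    exact ⟨w, hw, by simp [hl, hc]⟩
  · intro U V hfac hK hU
    have main : ∀ n, ∀ w ∈ (hStep L K l)^[n] [], w ∈ U ∧ w.length = l := by
      intro n
      induction n with
      | zero => simp
      | succ n ih =>
        intro w hw
        rw [Function.iterate_succ_apply'] at hw
        generalize (hStep L K l)^[n] [] = X at ih hw
        unfold hStep at hw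
        rw [List.mem_filter] at hw
        obtain ⟨h1, h2⟩ := hw
        obtain ⟨w', hw', hl', rfl⟩ := (HFX_pre _ _ _).1 h1
        have hlen : (w'.take l).length = l := by simp [hl']
        refine ⟨?_, hlen⟩
        rw [Bool.or_eq_true] at h2
        rcases h2 with h2 | h2
        · exact (ih _ ((HFX_mb _ _).1 h2)).1
        · rw [List.any_eq_true] at h2
          obtain ⟨w2, hw2, h3⟩ := h2
          simp only [Bool.and_eq_true, decide_eq_true_eq, Bool.not_eq_true'] at h3
          obtain ⟨⟨h4, h5⟩, h6⟩ := h3
          obtain ⟨u, hu, v, hv, rfl⟩ := (hfac w2).1 hw2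
          rcases hU u hu with h7 | h7
          · exfalso
            have h8 : cov K (hV L K X) (u ++ v) = true := by
              rw [HFX_cov]
              refine ⟨u, h7, v, ?_, rfl⟩
              unfold hV
              rw [List.mem_filter, HFX_okR]
              refine ⟨HFX_sufs L u v hw2, ?_⟩
              intro u' hu'
              rw [List.mem_append] at hu'
              have h9 : u' ∈ U := by
                rcases hu' with h | h
                · exact hK _ h
                · exact (ih _ h).1
              exact (hfac _).2 ⟨u', h9, v, hv, rfl⟩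
            rw [h8] at h6
            exact absurd h6 (by simp)
          · rw [← h5, ← h7]
            simpa using hu
    exact main _

end Pool.FD
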