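import Pool.Agent.Work.MP_e24068_dich.InterfaceP

/-! # Blocks HOC and HOR: the Horn algorithm is complete (helper96) -/

set_option autoImplicit false

namespace Pool.FD

open Pool.Agent.Work.TMLib Pool.Agent.Work.MP_e24068_lc

theorem HOC_mb (L : List Wd) (w : Wd) : mb L w = true ↔ w ∈ L := by
  unfold mb
  simp

theorem HOC_okR (L K : List Wd) (v : Wd) : okR L K v = true ↔ ∀ u ∈ K, u ++ v ∈ L := by
  unfold okR
  simp only [List.all_eq_true, HOC_mb]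

theorem HOC_okL (L K : List Wd) (u : Wd) : okL L K u = true ↔ ∀ v ∈ K, u ++ v ∈ L := by
  unfold okL
  simp only [List.all_eq_true, HOC_mb]

theorem HOC_cov (U V : List Wd) (w : Wd) : cov U V w = true ↔ ∃ u ∈ U, ∃ v ∈ V, u ++ v = w := by
  unfold cov
  simp

theorem HOC_sufs (L : List Wd) (u v : Wd) (h : u ++ v ∈ L) : v ∈ sufs L := by
  unfold sufs
  rw [List.mem_flatMap]
  refine ⟨u ++ v, h, ?_⟩
  rw [List.mem_map]
  refine ⟨u.length, ?_, by simp⟩
  rw [List.mem_range, List.length_append]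
  omega

theorem HOC_isF (L U V : List Wd) : isF L U V = true ↔ (∀ u ∈ U, ∀ v ∈ V, u ++ v ∈ L) ∧
    (∀ w ∈ L, ∃ u ∈ U, ∃ v ∈ V, u ++ v = w) ∧ (∃ u ∈ U, u ≠ []) ∧ ∃ v ∈ V, v ≠ [] := by
  unfold isF
  simp only [Bool.and_eq_true, List.all_eq_true, List.any_eq_true, HOC_okL, HOC_cov]
  constructor
  · rintro ⟨⟨⟨h1, h2⟩, ⟨u, hu, hu'⟩⟩, ⟨v, hv, hv'⟩⟩
    exact ⟨h1, h2, ⟨u, hu, by simpa using hu'⟩, ⟨v, hv, by simpa using hv'⟩⟩
  · rintro ⟨h1, h2, ⟨u, hu, hu'⟩, ⟨v, hv, hv'⟩⟩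
    exact ⟨⟨⟨h1, h2⟩, ⟨u, hu, by simpa using hu'⟩⟩, ⟨v, hv, by simpa using hv'⟩⟩

theorem p_HOC (h : Stmt_HFX) : Stmt_HOC := by
  intro L U V a b p q K l hF hK hU hne
  obtain ⟨h1, h2⟩ := h L K l
  have hXU := h2 U V hF.fac hK hU
  set X : List Wd := Pool.FD.hX L K l with hXdef
  have hKX : ∀ u ∈ K ++ X, u ∈ U := by
    intro u hu
    rcases List.mem_append.1 hu with hu | hu
    · exact hK u hu
    · exact (hXU u hu).1
  have hVV : ∀ v ∈ V, v ∈ Pool.FD.hV L K X := by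
    intro v hv
    unfold Pool.FD.hV
    rw [List.mem_filter]
    obtain ⟨u₀, hu₀, _⟩ := hF.ua
    refine ⟨HOC_sufs L u₀ v ((hF.fac _).2 ⟨u₀, hu₀, v, hv, rfl⟩), ?_⟩
    rw [HOC_okR]
    intro u hu
    exact (hF.fac _).2 ⟨u, hKX u hu, v, hv, rfl⟩
  unfold horn
  rw [← hXdef, HOC_isF]
  refine ⟨?_, ?_, ?_, ?_⟩
  · intro u hu v hv
    unfold Pool.FD.hV at hv
    rw [List.mem_filter, HOC_okR] at hv
    exact hv.2 u hu
  · intro w hw
    obtain ⟨u, hu, v, hv, rfl⟩ := (hF.fac w).1 hw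
    rcases hU u hu with hu' | hu'
    · exact ⟨u, List.mem_append.2 (Or.inl hu'), v, hVV v hv, rfl⟩
    · by_cases hc : cov K (Pool.FD.hV L K X) (u ++ v) = true
      · obtain ⟨u', hu'', v', hv', he⟩ := (HOC_cov _ _ _).1 hc
        exact ⟨u', List.mem_append.2 (Or.inl hu''), v', hv', he⟩
      · have h3 := h1 (u ++ v) hw (by rw [List.length_append]; omega) (by simpa using hc)
        have h4 : (u ++ v).take l = u := by rw [← hu']; simp
        rw [h4] at h3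
        exact ⟨u, List.mem_append.2 (Or.inr h3), v, hVV v hv, rfl⟩
  · obtain ⟨w, hw, hw'⟩ := hne
    exact ⟨w, List.mem_append.2 (Or.inl hw), hw'⟩
  · obtain ⟨v, hv, hv'⟩ := hF.vn
    exact ⟨v, hVV v hv, hv'⟩

theorem p_HOR (h1 : Stmt_HFX) (h2 : Stmt_FRV) : Stmt_HOR := by
  intro L U V a b p q K l hF hK hV hne
  have hF' := h2 L U V a b p q hF
  unfold hornR
  refine p_HOC h1 (rv L) _ _ b a q p (rv K) l hF' ?_ ?_ ?_
  · intro w hw
    unfold rv at hw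
    obtain ⟨w₀, hw₀, rfl⟩ := List.mem_map.1 hw
    show w₀.reverse.reverse ∈ V
    rw [List.reverse_reverse]
    exact hK w₀ hw₀
  · intro w hw
    rcases hV w.reverse hw with h | h
    · left
      unfold rv
      exact List.mem_map.2 ⟨w.reverse, h, List.reverse_reverse w⟩
    · right
      rw [List.length_reverse] at h
      exact h
  · obtain ⟨w, hw, hw'⟩ := hne
    refine ⟨w.reverse, ?_, ?_⟩
    · unfold rv
      exact List.mem_map.2 ⟨w, hw, rfl⟩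
    · intro h
      exact hw' (List.reverse_eq_nil_iff.1 h)

end Pool.FD
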