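import Pool.Agent.Work.MP_e24068_dich.InterfaceH

set_option autoImplicit false

namespace Pool.FD

open Pool.Agent.Work.MP_e24068_lc (Var Lit Cl Sat3 HasFactorization litsL varsL to3 mem_litsL)

theorem hs_neg_neg (l : Lit) : neg (neg l) = l := by simp [neg]

theorem hs_neg_fst (l : Lit) : (neg l).1 = l.1 := rfl

theorem hs_mem_g (V : List Var) : ((3, l0) : Lt) ∈ alph V := by simp [alph]
theorem hs_mem_q (V : List Var) : ((4, l0) : Lt) ∈ alph V := by simp [alph]
theorem hs_mem_y (V : List Var) : ((5, l0) : Lt) ∈ alph V := by simp [alph]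

theorem hs_mem_l {V : List Var} {l : Lit} (h : l.1 ∈ V) (i : ℕ) (hi : i < 3) :
    ((i, l) : Lt) ∈ alph V := by
  have h2 : l ∈ litsL V := mem_litsL.2 h
  have : i = 0 ∨ i = 1 ∨ i = 2 := by omega
  simp only [alph, List.mem_cons, List.mem_flatMap]
  right; right; right
  refine ⟨l, h2, ?_⟩
  rcases this with rfl | rfl | rfl <;> simp

theorem hs_cut {L₁ L₂ : Language Lt} {x₁ x₂ x₃ x₄ : Lt} (h3 : ∀ u ∈ L₁, u.length ≤ 3)
    (h : [x₁, x₂, x₃, x₄] ∈ L₁ * L₂) :
    [x₁, x₂, x₃, x₄] ∈ L₂ ∨ ([x₁] ∈ L₁ ∧ [x₂, x₃, x₄] ∈ L₂) ∨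
      ([x₁, x₂] ∈ L₁ ∧ [x₃, x₄] ∈ L₂) ∨ ([x₁, x₂, x₃] ∈ L₁ ∧ [x₄] ∈ L₂) := by
  rw [Language.mem_mul] at h
  obtain ⟨u, hu, v, hv, huv⟩ := h
  have hl := h3 u hu
  match u, hu, huv, hl with
  | [], _, huv, _ => left; simp only [List.nil_append] at huv; rwa [← huv]
  | [a], hu, huv, _ =>
    right; left
    simp only [List.cons_append, List.nil_append, List.cons.injEq] at huv
    obtain ⟨rfl, rfl⟩ := huv
    exact ⟨hu, hv⟩
  | [a, b], hu, huv, _ =>
    right; right; left
    simp only [List.cons_append, List.nil_append, List.cons.injEq] at huv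
    obtain ⟨rfl, rfl, rfl⟩ := huv
    exact ⟨hu, hv⟩
  | [a, b, c], hu, huv, _ =>
    right; right; right
    simp only [List.cons_append, List.nil_append, List.cons.injEq] at huv
    obtain ⟨rfl, rfl, rfl, rfl⟩ := huv
    exact ⟨hu, hv⟩
  | a :: b :: c :: d :: e, _, _, hl => simp only [List.length_cons] at hl; omega

theorem p_HS (h1 : Stmt_TY) (_h2 : Stmt_ML) : Stmt_HS := by
  classical
  intro ψ V hc ⟨L₁, L₂, _, _, hL, hne1, hne2⟩
  by_cases hψ : ψ = []
  · subst hψ
    exact ⟨fun _ => true, by simp⟩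
  obtain ⟨c₀, hc₀⟩ := List.exists_mem_of_ne_nil ψ hψ
  obtain ⟨e1, e2, hU, -, hU3⟩ := h1 ψ V c₀.1 L₁ L₂ (hc c₀ hc₀).1 hL hne1 hne2
  have hmul : ∀ u ∈ L₁, ∀ v ∈ L₂, (u ++ v) ∈ LL ψ V := by
    intro u hu v hv
    rw [hL]
    exact Language.append_mem_mul hu hv
  have hmem : ∀ w, w ∈ LL ψ V → Lb ψ w = true := fun w hw => hw.2
  have hin : ∀ w, (∀ x ∈ w, x ∈ alph V) → Lb ψ w = true → w ∈ LL ψ V := fun w h h' => ⟨h, h'⟩
  -- the words of `W` are not in the second factor
  have hW : ∀ x₁ x₂ x₃ x₄, W ψ x₁ x₂ x₃ x₄ = true → [x₁, x₂, x₃, x₄] ∈ L₂ → False := by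
    intro x₁ x₂ x₃ x₄ hw hv
    have hq : ([(4, l0), (4, l0), (4, l0)] : List Lt) ∈ L₁ :=
      (hU3 _ (hs_mem_q V) _ (hs_mem_q V) _ (hs_mem_q V)).2 (by decide)
    have := hmem _ (hmul _ hq _ hv)
    simp [Lb, L7, V5, hw] at this
  -- negative facts
  have hn1 : ∀ l : Lit, [((0, l) : Lt)] ∈ L₁ → [((1, l) : Lt)] ∈ L₂ → False := by
    intro l hu hv
    have := hmem _ (hmul _ hu _ hv)
    simp [Lb, N2] at this
  have hn2 : ∀ l m : Lit, [((0, l) : Lt)] ∈ L₁ → [((2, l) : Lt), (1, m)] ∈ L₂ → False := by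
    intro l m hu hv
    have := hmem _ (hmul _ hu _ hv)
    simp [Lb, N3, RZ] at this
  have hn3 : ∀ l : Lit, [((0, l) : Lt), (5, l0)] ∈ L₁ → [((1, neg l) : Lt)] ∈ L₂ → False := by
    intro l hu hv
    have := hmem _ (hmul _ hu _ hv)
    simp [Lb, N3, RY] at this
  -- the four kinds of words
  have hX : ∀ l : Lit, l.1 ∈ V → [((0, l) : Lt)] ∈ L₁ ∨ [((1, l) : Lt)] ∈ L₂ := by
    intro l hl
    have hw : ([(0, l), (4, l0), (0, l), (1, l)] : List Lt) ∈ LL ψ V := by
      refine hin _ ?_ rfl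
      intro x hx
      simp only [List.mem_cons, List.not_mem_nil, or_false] at hx
      rcases hx with rfl | rfl | rfl | rfl
      · exact hs_mem_l hl 0 (by norm_num)
      · exact hs_mem_q V
      · exact hs_mem_l hl 0 (by norm_num)
      · exact hs_mem_l hl 1 (by norm_num)
    rw [hL] at hw
    rcases hs_cut hU hw with h | h | h | h
    · exact (hW _ _ _ _ (by simp [W, WX]) h).elim
    · exact .inl h.1
    · have := hmem _ (hmul _ e1 _ h.2)
      simp [Lb, N2] at this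
    · exact .inr h.2
  have hUU : ∀ l : Lit, l.1 ∈ V → [((0, l) : Lt)] ∈ L₁ ∨ [((0, l) : Lt), (5, l0)] ∈ L₁ := by
    intro l hl
    have hw : ([(0, l), (5, l0), (1, neg l), (3, l0)] : List Lt) ∈ LL ψ V := by
      refine hin _ ?_ rfl
      intro x hx
      simp only [List.mem_cons, List.not_mem_nil, or_false] at hx
      rcases hx with rfl | rfl | rfl | rfl
      · exact hs_mem_l hl 0 (by norm_num)
      · exact hs_mem_y V
      · exact hs_mem_l (l := neg l) hl 1 (by norm_num)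
      · exact hs_mem_g V
    rw [hL] at hw
    rcases hs_cut hU hw with h | h | h | h
    · exact (hW _ _ _ _ (by simp [W, WU, RY]) h).elim
    · exact .inl h.1
    · exact .inr h.1
    · have := hmem _ (hmul _ h.1 _ e2)
      simp [Lb, N3, RY] at this
  have hVV : ∀ l : Lit, l.1 ∈ V →
      [((2, l) : Lt), (1, neg l)] ∈ L₂ ∨ [((1, neg l) : Lt)] ∈ L₂ := by
    intro l hl
    have hw : ([(3, l0), (0, l), (2, l), (1, neg l)] : List Lt) ∈ LL ψ V := by
      refine hin _ ?_ rfl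
      intro x hx
      simp only [List.mem_cons, List.not_mem_nil, or_false] at hx
      rcases hx with rfl | rfl | rfl | rfl
      · exact hs_mem_g V
      · exact hs_mem_l hl 0 (by norm_num)
      · exact hs_mem_l hl 2 (by norm_num)
      · exact hs_mem_l (l := neg l) hl 1 (by norm_num)
    rw [hL] at hw
    rcases hs_cut hU hw with h | h | h | h
    · exact (hW _ _ _ _ (by simp [W, WV, RZ]) h).elim
    · have := hmem _ (hmul _ e1 _ h.2)
      simp [Lb, N3, RZ] at this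
    · exact .inl h.2
    · exact .inr h.2
  have hneg : ∀ l : Lit, l.1 ∈ V → ([((0, neg l) : Lt)] ∈ L₁ ↔ ¬ [((0, l) : Lt)] ∈ L₁) := by
    intro l hl
    constructor
    · intro h h'
      rcases hVV l hl with h3 | h3
      · exact hn2 l _ h' h3
      · exact hn1 _ h h3
    · intro h
      by_contra h'
      have a : [((1, neg l) : Lt)] ∈ L₂ := (hX (neg l) hl).resolve_left h'
      have b : [((0, l) : Lt), (5, l0)] ∈ L₁ := (hUU l hl).resolve_left h
      exact hn3 l b a
  have hC : ∀ c ∈ ψ, [((0, c.1) : Lt)] ∈ L₁ ∨ [((0, c.2.1) : Lt)] ∈ L₁ ∨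
      [((0, c.2.2) : Lt)] ∈ L₁ := by
    intro c hcψ
    obtain ⟨k1, k2, k3⟩ := hc c hcψ
    have hw : ([(0, c.1), (4, l0), (2, neg c.2.1), (1, neg c.2.2)] : List Lt) ∈ LL ψ V := by
      refine hin _ ?_ rfl
      intro x hx
      simp only [List.mem_cons, List.not_mem_nil, or_false] at hx
      rcases hx with rfl | rfl | rfl | rfl
      · exact hs_mem_l k1 0 (by norm_num)
      · exact hs_mem_q V
      · exact hs_mem_l (l := neg c.2.1) k2 2 (by norm_num)
      · exact hs_mem_l (l := neg c.2.2) k3 1 (by norm_num)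
    rw [hL] at hw
    rcases hs_cut hU hw with h | h | h | h
    · refine (hW _ _ _ _ ?_ h).elim
      have : WC ψ (0, c.1) (4, l0) (2, neg c.2.1) (1, neg c.2.2) = true := by
        simp only [WC, decide_true, Bool.true_and, List.any_eq_true, Bool.and_eq_true,
          decide_eq_true_eq]
        exact ⟨c, hcψ, ⟨rfl, rfl⟩, rfl⟩
      simp [W, this]
    · exact .inl h.1
    · right; left
      by_contra h'
      exact hn2 _ _ ((hneg _ k2).2 h') h.2
    · right; right
      by_contra h'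
      exact hn1 _ ((hneg _ k3).2 h') h.2
  refine ⟨fun x => decide ([((0, (x, true)) : Lt)] ∈ L₁), ?_⟩
  have key : ∀ l : Lit, l.1 ∈ V → [((0, l) : Lt)] ∈ L₁ →
      decide ([((0, (l.1, true)) : Lt)] ∈ L₁) = l.2 := by
    rintro ⟨x, b⟩ hx h
    cases b
    · have h2 := (hneg (x, false) hx)
      have h3 : ¬ [((0, (x, true)) : Lt)] ∈ L₁ := by
        intro h4
        have : neg (x, false) = (x, true) := rfl
        rw [this] at h2
        exact (h2.1 h4) h
      simpa using h3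
    · simpa using h
  intro c hcψ
  obtain ⟨k1, k2, k3⟩ := hc c hcψ
  rcases hC c hcψ with h | h | h
  · exact .inl (key _ k1 h)
  · exact .inr (.inl (key _ k2 h))
  · exact .inr (.inr (key _ k3 h))

end Pool.FD
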