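import Pool.Agent.Work.MP_e24068_dich.InterfaceP

set_option autoImplicit false

namespace Pool.FD

open Pool.Agent.Work.TMLib Pool.Agent.Work.MP_e24068_lc

theorem ISF_mb (L : List Wd) (w : Wd) : mb L w = true ↔ w ∈ L := by
  unfold mb
  rw [List.any_eq_true]
  constructor
  · rintro ⟨u, hu, h⟩
    rw [decide_eq_true_eq] at h
    rwa [← h]
  · intro h
    exact ⟨w, h, by simp⟩

theorem ISF_okL (L K : List Wd) (u : Wd) : okL L K u = true ↔ ∀ v ∈ K, u ++ v ∈ L := by
  unfold okL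
  rw [List.all_eq_true]
  constructor
  · intro h v hv
    exact (ISF_mb L _).1 (h v hv)
  · intro h v hv
    exact (ISF_mb L _).2 (h v hv)

theorem ISF_cov (U V : List Wd) (w : Wd) :
    cov U V w = true ↔ ∃ u ∈ U, ∃ v ∈ V, u ++ v = w := by
  unfold cov
  rw [List.any_eq_true]
  constructor
  · rintro ⟨u, hu, h⟩
    rw [List.any_eq_true] at h
    obtain ⟨v, hv, h⟩ := h
    rw [decide_eq_true_eq] at h
    exact ⟨u, hu, v, hv, h⟩
  · rintro ⟨u, hu, v, hv, h⟩
    refine ⟨u, hu, ?_⟩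
    rw [List.any_eq_true]
    refine ⟨v, hv, ?_⟩
    rw [decide_eq_true_eq]
    exact h

theorem ISF_ne (U : List Wd) :
    (U.any fun u => !decide (u = [])) = true ↔ ∃ u ∈ U, u ≠ [] := by
  rw [List.any_eq_true]
  constructor
  · rintro ⟨u, hu, h⟩
    refine ⟨u, hu, ?_⟩
    intro h2
    rw [h2] at h
    simp at h
  · rintro ⟨u, hu, h⟩
    refine ⟨u, hu, ?_⟩
    simp [h]

theorem p_ISF : Stmt_ISF := by
  intro L U V _ h
  unfold isF at h
  rw [Bool.and_eq_true, Bool.and_eq_true, Bool.and_eq_true, List.all_eq_true,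
    List.all_eq_true, ISF_ne, ISF_ne] at h
  obtain ⟨⟨⟨h1, h2⟩, h3⟩, h4⟩ := h
  refine ⟨LW U, LW V, ?_, ?_, ?_, ?_, ?_⟩
  · exact List.finite_toSet U
  · exact List.finite_toSet V
  · apply Set.ext
    intro w
    constructor
    · intro hw
      obtain ⟨u, hu, v, hv, huv⟩ := (ISF_cov U V w).1 (h2 w hw)
      exact Language.mem_mul.2 ⟨u, hu, v, hv, huv⟩
    · intro hw
      obtain ⟨u, hu, v, hv, huv⟩ := Language.mem_mul.1 hw
      rw [← huv]
      exact (ISF_okL L V u).1 (h1 u hu) v hv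
  · intro h5
    obtain ⟨u, hu, hne⟩ := h3
    have h6 : u ∈ (LW U : Language ℕ) := hu
    rw [h5, Language.mem_one] at h6
    exact hne h6
  · intro h5
    obtain ⟨u, hu, hne⟩ := h4
    have h6 : u ∈ (LW V : Language ℕ) := hu
    rw [h5, Language.mem_one] at h6
    exact hne h6

theorem p_ISC : Stmt_ISC := by
  intro L U V h hU hV
  unfold isF
  rw [Bool.and_eq_true, Bool.and_eq_true, Bool.and_eq_true, List.all_eq_true,
    List.all_eq_true, ISF_ne, ISF_ne]
  refine ⟨⟨⟨fun u hu => ?_, fun w hw => ?_⟩, hU⟩, hV⟩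
  · rw [ISF_okL]
    intro v hv
    exact (h _).2 ⟨u, hu, v, hv, rfl⟩
  · rw [ISF_cov]
    exact (h w).1 hw

end Pool.FD
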