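import Pool.Agent.Work.MP_e24068_dich.InterfaceP

set_option autoImplicit false

namespace Pool.FD

open Pool.Agent.Work.TMLib Pool.Agent.Work.MP_e24068_lc

theorem LEV_mb (L : List Wd) (w : Wd) : mb L w = true ↔ w ∈ L := by
  unfold mb
  rw [List.any_eq_true]
  constructor
  · rintro ⟨u, hu, h⟩
    rw [decide_eq_true_eq] at h
    rwa [← h]
  · intro h
    exact ⟨w, h, by simp⟩

theorem LEV_pre (L : List Wd) (k : ℕ) (u : Wd) :
    u ∈ pre L k ↔ u.length = k ∧ ∃ v, u ++ v ∈ L := by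
  unfold pre
  rw [List.mem_map]
  constructor
  · rintro ⟨w, hw, rfl⟩
    rw [List.mem_filter, decide_eq_true_eq] at hw
    refine ⟨by rw [List.length_take]; exact min_eq_left hw.2, w.drop k, ?_⟩
    rw [List.take_append_drop]
    exact hw.1
  · rintro ⟨h1, v, hv⟩
    refine ⟨u ++ v, ?_, ?_⟩
    · rw [List.mem_filter, decide_eq_true_eq, List.length_append]
      exact ⟨hv, by omega⟩
    · rw [← h1, List.take_left']
      rfl

theorem LEV_suf (L : List Wd) (k : ℕ) (v : Wd) :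
    v ∈ suf L k ↔ v.length = k ∧ ∃ u, u ++ v ∈ L := by
  unfold suf
  rw [List.mem_map]
  constructor
  · rintro ⟨w, hw, rfl⟩
    rw [List.mem_filter, decide_eq_true_eq] at hw
    refine ⟨by rw [List.length_drop]; omega, w.take (w.length - k), ?_⟩
    rw [List.take_append_drop]
    exact hw.1
  · rintro ⟨h1, u, hu⟩
    refine ⟨u ++ v, ?_, ?_⟩
    · rw [List.mem_filter, decide_eq_true_eq, List.length_append]
      exact ⟨hu, by omega⟩
    · have h2 : (u ++ v).length - k = u.length := by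
        rw [List.length_append]
        omega
      rw [h2, List.drop_left']
      rfl

theorem LEV_len (L : List Wd) (k : ℕ) (w : Wd) : w ∈ len L k ↔ w ∈ L ∧ w.length = k := by
  unfold len
  rw [List.mem_filter, decide_eq_true_eq]

theorem LEV_okL (L K : List Wd) (u : Wd) : okL L K u = true ↔ ∀ v ∈ K, u ++ v ∈ L := by
  unfold okL
  rw [List.all_eq_true]
  constructor
  · intro h v hv
    exact (LEV_mb L _).1 (h v hv)
  · intro h v hv
    exact (LEV_mb L _).2 (h v hv)

theorem LEV_okR (L K : List Wd) (v : Wd) : okR L K v = true ↔ ∀ u ∈ K, u ++ v ∈ L := by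
  unfold okR
  rw [List.all_eq_true]
  constructor
  · intro h u hu
    exact (LEV_mb L _).1 (h u hu)
  · intro h u hu
    exact (LEV_mb L _).2 (h u hu)

theorem LEV_lr (L : List Wd) (U V : Set Wd) (m n : ℕ)
    (fac : ∀ w, w ∈ L ↔ ∃ u ∈ U, ∃ v ∈ V, u ++ v = w)
    (h : ∀ u ∈ U, ∀ v ∈ V, u.length + v.length = m + n → u.length = m ∧ v.length = n)
    (hu : ∃ u ∈ U, u.length = m) (hv : ∃ v ∈ V, v.length = n) :
    (∀ w, w ∈ pre (len L (m + n)) m ↔ w ∈ U ∧ w.length = m) ∧
    (∀ w, w ∈ suf (len L (m + n)) n ↔ w ∈ V ∧ w.length = n) := by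
  refine ⟨fun w => ?_, fun w => ?_⟩
  · rw [LEV_pre]
    constructor
    · rintro ⟨h1, v, hv1⟩
      rw [LEV_len] at hv1
      obtain ⟨u', hu', v', hv', h2⟩ := (fac _).1 hv1.1
      have h3 : u'.length + v'.length = m + n := by
        rw [← List.length_append, h2, hv1.2]
      have h4 := (h u' hu' v' hv' h3).1
      have h5 : u' = w := by
        have := List.append_inj_left h2 (by rw [h4, h1])
        exact this
      rw [← h5]
      exact ⟨hu', h4⟩
    · rintro ⟨h1, h2⟩
      obtain ⟨v, hv1, hv2⟩ := hv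
      refine ⟨h2, v, ?_⟩
      rw [LEV_len]
      exact ⟨(fac _).2 ⟨w, h1, v, hv1, rfl⟩, by rw [List.length_append, h2, hv2]⟩
  · rw [LEV_suf]
    constructor
    · rintro ⟨h1, u, hu1⟩
      rw [LEV_len] at hu1
      obtain ⟨u', hu', v', hv', h2⟩ := (fac _).1 hu1.1
      have h3 : u'.length + v'.length = m + n := by
        rw [← List.length_append, h2, hu1.2]
      have h4 := (h u' hu' v' hv' h3)
      have h6 : u.length = m := by
        have := hu1.2
        rw [List.length_append] at this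
        omega
      have h5 : v' = w := List.append_inj_right h2 (by rw [h4.1, h6])
      rw [← h5]
      exact ⟨hv', h4.2⟩
    · rintro ⟨h1, h2⟩
      obtain ⟨u, hu1, hu2⟩ := hu
      refine ⟨h2, u, ?_⟩
      rw [LEV_len]
      exact ⟨(fac _).2 ⟨u, hu1, w, h1, rfl⟩, by rw [List.length_append, h2, hu2]⟩

theorem p_LEV : Stmt_LEV := by
  intro L U V a b p q hF
  have h1 := LEV_lr L U V a b hF.fac (by
    intro u hu v hv h
    have h3 := hF.ul u hu
    have h4 := hF.vl v hv
    omega) hF.ua hF.vb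
  have h2 := LEV_lr L U V p q hF.fac (by
    intro u hu v hv h
    have h3 := hF.ul u hu
    have h4 := hF.vl v hv
    omega) hF.up hF.vq
  exact ⟨h1.1, h1.2, h2.1, h2.2⟩

theorem p_CAM : Stmt_CAM := by
  intro L K k
  refine ⟨fun u => ?_, fun v => ?_⟩
  · unfold cL
    rw [List.mem_filter, LEV_okL, LEV_pre, and_assoc]
  · unfold cR
    rw [List.mem_filter, LEV_okR, LEV_suf, and_assoc]

theorem p_CAN : Stmt_CAN := by
  intro L U V a b p q K k hF
  refine ⟨fun hK u hu hk => ?_, fun hK v hv hk => ?_⟩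
  · rw [(p_CAM L K k).1]
    obtain ⟨v, hv, -⟩ := hF.vb
    exact ⟨hk, ⟨v, (hF.fac _).2 ⟨u, hu, v, hv, rfl⟩⟩,
      fun v hv => (hF.fac _).2 ⟨u, hu, v, hK v hv, rfl⟩⟩
  · rw [(p_CAM L K k).2]
    obtain ⟨u, hu, -⟩ := hF.ua
    exact ⟨hk, ⟨u, (hF.fac _).2 ⟨u, hu, v, hv, rfl⟩⟩,
      fun u hu => (hF.fac _).2 ⟨u, hK u hu, v, hv, rfl⟩⟩

end Pool.FD
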