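import Pool.Agent.Work.MP_e24068_dich.InterfaceH

/-!
Block ML: the list of words, finiteness, lengths.
-/

set_option autoImplicit false

namespace Pool.FD

open Pool.Agent.Work.MP_e24068_lc (Var Lit Cl Sat3 HasFactorization litsL varsL to3)

theorem ML_wds (A : List Lt) (k : ℕ) : ∀ w : List Lt,
    w ∈ wds A k ↔ w.length = k ∧ ∀ x ∈ w, x ∈ A := by
  induction k with
  | zero =>
    intro w
    rw [wds, List.mem_singleton]
    constructor
    · rintro rfl
      exact ⟨rfl, fun x hx => absurd hx List.not_mem_nil⟩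
    · rintro ⟨h, -⟩
      exact List.length_eq_zero_iff.1 h
  | succ k ih =>
    intro w
    rw [wds, List.mem_flatMap]
    constructor
    · rintro ⟨x, hx, hw⟩
      rw [List.mem_map] at hw
      obtain ⟨v, hv, rfl⟩ := hw
      obtain ⟨h1, h2⟩ := (ih v).1 hv
      refine ⟨by rw [List.length_cons, h1], fun y hy => ?_⟩
      rcases List.mem_cons.1 hy with rfl | hy
      · exact hx
      · exact h2 y hy
    · rintro ⟨h1, h2⟩
      cases w with
      | nil => simp at h1
      | cons x v =>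
        refine ⟨x, h2 x List.mem_cons_self, ?_⟩
        rw [List.mem_map]
        refine ⟨v, (ih v).2 ⟨by simpa using h1, fun y hy => h2 y (List.mem_cons_of_mem _ hy)⟩, rfl⟩

theorem ML_len (ψ : List Cl) (w : List Lt) (h : Lb ψ w = true) : w.length ≤ 8 := by
  rcases w with _ | ⟨x₁, _ | ⟨x₂, _ | ⟨x₃, _ | ⟨x₄, _ | ⟨x₅, _ | ⟨x₆, _ | ⟨x₇, _ | ⟨x₈, _ | ⟨x₉, w⟩⟩⟩⟩⟩⟩⟩⟩⟩
  · simp
  · simp
  · simp
  · simp
  · simp
  · simp
  · simp
  · simp
  · simp
  · simp [Lb] at h

theorem p_ML : Stmt_ML := by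
  intro ψ V
  have hmem : ∀ w, w ∈ LLl ψ V ↔ w ∈ LL ψ V := by
    intro w
    have e1 : w ∈ LL ψ V ↔ (∀ x ∈ w, x ∈ alph V) ∧ Lb ψ w = true := Iff.rfl
    rw [e1, LLl, List.mem_filter]
    simp only [List.mem_append, ML_wds]
    constructor
    · rintro ⟨h1, h2⟩
      refine ⟨?_, h2⟩
      tauto
    · rintro ⟨h1, h2⟩
      refine ⟨?_, h2⟩
      have h3 := ML_len ψ w h2
      have h4 : w.length = 0 ∨ w.length = 1 ∨ w.length = 2 ∨ w.length = 3 ∨ w.length = 4 ∨
          w.length = 5 ∨ w.length = 6 ∨ w.length = 7 ∨ w.length = 8 := by omega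
      tauto
  refine ⟨hmem, ?_, ?_, ?_⟩
  · have h5 : (LL ψ V : Set (List Lt)) = {w | w ∈ LLl ψ V} := by
      ext w
      exact (hmem w).symm
    rw [h5]
    exact List.finite_toSet _
  · intro w hw
    exact ML_len ψ w hw.2
  · exact ⟨fun x hx => absurd hx List.not_mem_nil, rfl⟩

end Pool.FD
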