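import Pool.Agent.Work.MP_e24068_dich.InterfaceH

/-!
# Block NP: hardness of FACT for words of length at most `8` (helper12)
-/

set_option autoImplicit false

namespace Pool.FD

open Pool.Agent.Work.MP_e24068_lc (Var Lit Cl Sat3 HasFactorization litsL varsL to3 Inst
  sq_inj encNum sat3_to3 varsL_spec hasFactorization_map_iff)
open Pool.Agent.Work.TMLib

/-- The number of a letter. -/
def NP_code (x : Lt) : ℕ :=
  (x.1 + (2 * ((x.2.1.1 + x.2.1.2) * (x.2.1.1 + x.2.1.2) + x.2.1.1) + bif x.2.2 then 1 else 0)) *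
    (x.1 + (2 * ((x.2.1.1 + x.2.1.2) * (x.2.1.1 + x.2.1.2) + x.2.1.1) + bif x.2.2 then 1 else 0)) +
    x.1

theorem NP_code_inj {x y : Lt} (hxy : NP_code x = NP_code y) : x = y := by
  obtain ⟨a, ⟨⟨i, j⟩, b⟩⟩ := x
  obtain ⟨a', ⟨⟨i', j'⟩, b'⟩⟩ := y
  unfold NP_code at hxy
  obtain ⟨h1, h2⟩ := sq_inj hxy
  simp only at h1 h2
  have h3 : b = b' := by
    cases b <;> cases b' <;> simp at h2 ⊢ <;> omega
  subst h3
  have h4 : (i + j) * (i + j) + i = (i' + j') * (i' + j') + i' := by omega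
  obtain ⟨h5, h6⟩ := sq_inj h4
  subst h1 h5 h6
  rfl

section PolyF

variable {α : Type} [DE α]

@[fun_prop]
theorem NP_polyF_code {f : α → Lt} (hf : PolyF f) : PolyF (fun x => NP_code (f x)) := by
  unfold NP_code
  fun_prop

@[fun_prop]
theorem NP_polyF_neg {f : α → Lit} (hf : PolyF f) : PolyF (fun x => neg (f x)) := by
  unfold neg
  fun_prop

theorem NP_polyF_any {β : Type} [DE β] {l : α → List β} {f : α → β → Bool} (hl : PolyF l)
    (hf : PolyF (fun p : α × β => f p.1 p.2)) : PolyF (fun a => (l a).any (f a)) := by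
  have h : PolyF (fun a => !((l a).all (fun b => !(f a b)))) := by
    refine PolyF.not (PolyF.all hl (f := fun a b => !(f a b)) ?_)
    fun_prop
  refine h.congrF fun a => ?_
  rw [List.any_eq_not_all_not]

@[fun_prop]
theorem NP_polyF_N2 {f g : α → Lt} (hf : PolyF f) (hg : PolyF g) :
    PolyF (fun x => N2 (f x) (g x)) := by
  unfold N2
  fun_prop

@[fun_prop]
theorem NP_polyF_RZ {f g : α → Lt} (hf : PolyF f) (hg : PolyF g) :
    PolyF (fun x => RZ (f x) (g x)) := by
  unfold RZ
  fun_prop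

@[fun_prop]
theorem NP_polyF_RY {f g : α → Lt} (hf : PolyF f) (hg : PolyF g) :
    PolyF (fun x => RY (f x) (g x)) := by
  unfold RY
  fun_prop

@[fun_prop]
theorem NP_polyF_N3 {f g h : α → Lt} (hf : PolyF f) (hg : PolyF g) (hh : PolyF h) :
    PolyF (fun x => N3 (f x) (g x) (h x)) := by
  unfold N3
  fun_prop

@[fun_prop]
theorem NP_polyF_WV {f g h k : α → Lt} (hf : PolyF f) (hg : PolyF g) (hh : PolyF h)
    (hk : PolyF k) : PolyF (fun x => WV (f x) (g x) (h x) (k x)) := by
  unfold WV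
  fun_prop

@[fun_prop]
theorem NP_polyF_WU {f g h k : α → Lt} (hf : PolyF f) (hg : PolyF g) (hh : PolyF h)
    (hk : PolyF k) : PolyF (fun x => WU (f x) (g x) (h x) (k x)) := by
  unfold WU
  fun_prop

@[fun_prop]
theorem NP_polyF_WX {f g h k : α → Lt} (hf : PolyF f) (hg : PolyF g) (hh : PolyF h)
    (hk : PolyF k) : PolyF (fun x => WX (f x) (g x) (h x) (k x)) := by
  unfold WX
  fun_prop

@[fun_prop]
theorem NP_polyF_WC {ψ : α → List Cl} {f g h k : α → Lt} (hψ : PolyF ψ) (hf : PolyF f)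
    (hg : PolyF g) (hh : PolyF h) (hk : PolyF k) :
    PolyF (fun x => WC (ψ x) (f x) (g x) (h x) (k x)) := by
  unfold WC
  refine PolyF.and (by fun_prop) ?_
  exact NP_polyF_any (l := ψ) (f := fun x c => decide ((f x).2 = c.1) &&
    decide ((h x).2 = neg c.2.1) && decide ((k x).2 = neg c.2.2)) hψ (by fun_prop)

@[fun_prop]
theorem NP_polyF_W {ψ : α → List Cl} {f g h k : α → Lt} (hψ : PolyF ψ) (hf : PolyF f)
    (hg : PolyF g) (hh : PolyF h) (hk : PolyF k) :
    PolyF (fun x => W (ψ x) (f x) (g x) (h x) (k x)) := by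
  unfold W
  fun_prop

@[fun_prop]
theorem NP_polyF_F {f : α → Lt} (hf : PolyF f) : PolyF (fun x => F (f x)) := by
  unfold F
  fun_prop

@[fun_prop]
theorem NP_polyF_U3 {f g h : α → Lt} (hf : PolyF f) (hg : PolyF g) (hh : PolyF h) :
    PolyF (fun x => U3 (f x) (g x) (h x)) := by
  unfold U3
  fun_prop

@[fun_prop]
theorem NP_polyF_V5 {ψ : α → List Cl} {f g h k m : α → Lt} (hψ : PolyF ψ) (hf : PolyF f)
    (hg : PolyF g) (hh : PolyF h) (hk : PolyF k) (hm : PolyF m) :
    PolyF (fun x => V5 (ψ x) (f x) (g x) (h x) (k x) (m x)) := by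
  unfold V5
  fun_prop

@[fun_prop]
theorem NP_polyF_L6 {ψ : α → List Cl} {f g h k m n : α → Lt} (hψ : PolyF ψ) (hf : PolyF f)
    (hg : PolyF g) (hh : PolyF h) (hk : PolyF k) (hm : PolyF m) (hn : PolyF n) :
    PolyF (fun x => L6 (ψ x) (f x) (g x) (h x) (k x) (m x) (n x)) := by
  unfold L6
  fun_prop

@[fun_prop]
theorem NP_polyF_L7 {ψ : α → List Cl} {f g h k m n o : α → Lt} (hψ : PolyF ψ) (hf : PolyF f)
    (hg : PolyF g) (hh : PolyF h) (hk : PolyF k) (hm : PolyF m) (hn : PolyF n) (ho : PolyF o) :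
    PolyF (fun x => L7 (ψ x) (f x) (g x) (h x) (k x) (m x) (n x) (o x)) := by
  unfold L7
  fun_prop

/-- The entries of a word. -/
def NP_nt (w : List Lt) (i : ℕ) : Lt := w.getD i (0, l0)

@[fun_prop]
theorem NP_polyF_nt {w : α → List Lt} {i : α → ℕ} (hw : PolyF w) (hi : PolyF i) :
    PolyF (fun x => NP_nt (w x) (i x)) := by
  unfold NP_nt
  exact PolyF.getD hi hw (by fun_prop)

/-- `Lb` through the entries. -/
def NP_LbF (ψ : List Cl) (w : List Lt) : Bool :=
  bif decide (w.length = 0) then true else bif decide (w.length = 1) then true else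
  bif decide (w.length = 2) then !N2 (NP_nt w 0) (NP_nt w 1) else
  bif decide (w.length = 3) then !N3 (NP_nt w 0) (NP_nt w 1) (NP_nt w 2) else
  bif decide (w.length = 4) then true else
  bif decide (w.length = 5) then !WV (NP_nt w 1) (NP_nt w 2) (NP_nt w 3) (NP_nt w 4) else
  bif decide (w.length = 6) then
    L6 ψ (NP_nt w 0) (NP_nt w 1) (NP_nt w 2) (NP_nt w 3) (NP_nt w 4) (NP_nt w 5) else
  bif decide (w.length = 7) then
    L7 ψ (NP_nt w 0) (NP_nt w 1) (NP_nt w 2) (NP_nt w 3) (NP_nt w 4) (NP_nt w 5) (NP_nt w 6) else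
  bif decide (w.length = 8) then
    U3 (NP_nt w 0) (NP_nt w 1) (NP_nt w 2) &&
      V5 ψ (NP_nt w 3) (NP_nt w 4) (NP_nt w 5) (NP_nt w 6) (NP_nt w 7) else false

theorem NP_LbF_eq (ψ : List Cl) (w : List Lt) : NP_LbF ψ w = Lb ψ w := by
  match w with
  | [] => rfl
  | [_] => rfl
  | [_, _] => rfl
  | [_, _, _] => rfl
  | [_, _, _, _] => rfl
  | [_, _, _, _, _] => rfl
  | [_, _, _, _, _, _] => rfl
  | [_, _, _, _, _, _, _] => rfl
  | [_, _, _, _, _, _, _, _] => rfl
  | _ :: _ :: _ :: _ :: _ :: _ :: _ :: _ :: _ :: _ => simp [NP_LbF, Lb]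

@[fun_prop]
theorem NP_polyF_Lb {ψ : α → List Cl} {w : α → List Lt} (hψ : PolyF ψ) (hw : PolyF w) :
    PolyF (fun x => Lb (ψ x) (w x)) := by
  have h : PolyF (fun x => NP_LbF (ψ x) (w x)) := by
    unfold NP_LbF
    fun_prop
  exact h.congrF fun x => NP_LbF_eq _ _

@[fun_prop]
theorem NP_polyF_alph {V : α → List Var} (hV : PolyF V) : PolyF (fun x => alph (V x)) := by
  unfold alph
  refine PolyF.cons (by fun_prop) (PolyF.cons (by fun_prop) (PolyF.cons (by fun_prop) ?_))
  exact PolyF.flatMap (l := fun x => litsL (V x)) (f := fun _ l => [(0, l), (1, l), (2, l)])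
    (by fun_prop) (by fun_prop)

theorem NP_polyF_wds (k : ℕ) : PolyF (fun A : List Lt => wds A k) := by
  induction k with
  | zero =>
    unfold wds
    exact PolyF.const _
  | succ k ih =>
    unfold wds
    refine PolyF.flatMap (l := fun A : List Lt => A) (f := fun A x => (wds A k).map fun w => x :: w)
      (by fun_prop) ?_
    refine PolyF.map (l := fun p : List Lt × Lt => wds p.1 k) (f := fun p w => p.2 :: w) ?_
      (by fun_prop)
    exact PolyF.comp (f := fun A : List Lt => wds A k) ih (by fun_prop)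

theorem NP_polyF_wds' (k : ℕ) {A : α → List Lt} (hA : PolyF A) : PolyF (fun x => wds (A x) k) :=
  PolyF.comp (f := fun A : List Lt => wds A k) (NP_polyF_wds k) hA

@[fun_prop]
theorem NP_polyF_LLl {ψ : α → List Cl} {V : α → List Var} (hψ : PolyF ψ) (hV : PolyF V) :
    PolyF (fun x => LLl (ψ x) (V x)) := by
  unfold LLl
  have hA : PolyF (fun x => alph (V x)) := by fun_prop
  refine PolyF.filter (l := fun x => wds (alph (V x)) 0 ++ wds (alph (V x)) 1 ++
    wds (alph (V x)) 2 ++ wds (alph (V x)) 3 ++ wds (alph (V x)) 4 ++ wds (alph (V x)) 5 ++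
    wds (alph (V x)) 6 ++ wds (alph (V x)) 7 ++ wds (alph (V x)) 8)
    (f := fun x w => Lb (ψ x) w) ?_ (by fun_prop)
  exact ((((((((NP_polyF_wds' 0 hA).append (NP_polyF_wds' 1 hA)).append
    (NP_polyF_wds' 2 hA)).append (NP_polyF_wds' 3 hA)).append (NP_polyF_wds' 4 hA)).append
    (NP_polyF_wds' 5 hA)).append (NP_polyF_wds' 6 hA)).append (NP_polyF_wds' 7 hA)).append
    (NP_polyF_wds' 8 hA)

end PolyF

/-- The words of a formula. -/
def NP_wordsOf (φ : CNF) : List (List Lt) := LLl (to3 φ) (varsL (to3 φ))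

/-- A bound for the numbers of the letters. -/
def NP_bound (φ : CNF) : ℕ := ((NP_wordsOf φ).flatMap fun w => w.map NP_code).sum

theorem NP_code_le_bound {φ : CNF} {w : List Lt} (hw : w ∈ NP_wordsOf φ) {x : Lt}
    (hx : x ∈ w) : NP_code x ≤ NP_bound φ := by
  apply List.le_sum_of_mem
  rw [List.mem_flatMap]
  exact ⟨w, hw, List.mem_map_of_mem hx⟩

/-- The instance of a formula. -/
def NP_instOf (φ : CNF) : Inst :=
  ⟨NP_bound φ + 1,
    (NP_wordsOf φ).map fun w => w.map fun x => Fin.ofNat (NP_bound φ + 1) (NP_code x)⟩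

theorem NP_mem_instOf (h3 : Stmt_ML) {φ : CNF} {w : List (Fin (NP_bound φ + 1))} :
    w ∈ (NP_instOf φ).lang ↔
      ∃ v ∈ LL (to3 φ) (varsL (to3 φ)),
        v.map (fun x => Fin.ofNat (NP_bound φ + 1) (NP_code x)) = w := by
  show w ∈ (NP_wordsOf φ).map _ ↔ _
  rw [List.mem_map]
  simp only [NP_wordsOf, (h3 _ _).1]

/-- The string of the instance of a formula. -/
def NP_strOf (φ : CNF) : List (Fin 3) :=
  encNum (NP_bound φ + 1) ++
    (NP_wordsOf φ).flatMap fun w => (w.flatMap fun x => encNum (NP_code x)) ++ [2]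

theorem NP_enc_instOf (φ : CNF) : (NP_instOf φ).enc = NP_strOf φ := by
  have key : ((NP_wordsOf φ).map fun w => w.map fun x =>
      Fin.ofNat (NP_bound φ + 1) (NP_code x)).flatMap
        (fun w => (w.flatMap fun x => encNum x.val) ++ [2]) =
      (NP_wordsOf φ).flatMap fun w => (w.flatMap fun x => encNum (NP_code x)) ++ [2] := by
    rw [List.flatMap_map]
    refine List.flatMap_congr fun w hw => ?_
    congr 1
    rw [List.flatMap_map]
    refine List.flatMap_congr fun x hx => ?_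
    rw [Fin.val_ofNat, Nat.mod_eq_of_lt]
    have := NP_code_le_bound hw hx
    omega
  exact congrArg (fun l => encNum (NP_bound φ + 1) ++ l) key

theorem NP_polyF_wordsOf : PolyF NP_wordsOf := by
  have : PolyF (fun φ : CNF => LLl (to3 φ) (varsL (to3 φ))) := by fun_prop
  exact this

theorem NP_polyF_bound : PolyF NP_bound := by
  have hw := NP_polyF_wordsOf
  unfold NP_bound
  refine PolyF.sum ?_
  refine PolyF.flatMap (l := fun φ : CNF => NP_wordsOf φ) (f := fun _ w => w.map NP_code) hw ?_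
  exact PolyF.map (l := fun p : CNF × List Lt => p.2) (f := fun _ x => NP_code x)
    (by fun_prop) (by fun_prop)

theorem NP_polyF_strOf : PolyF NP_strOf := by
  have hw := NP_polyF_wordsOf
  have hb := NP_polyF_bound
  unfold NP_strOf
  refine PolyF.append (by fun_prop) ?_
  refine PolyF.flatMap (l := fun φ : CNF => NP_wordsOf φ)
    (f := fun _ w => (w.flatMap fun x => encNum (NP_code x)) ++ [2]) hw ?_
  refine PolyF.append ?_ (by fun_prop)
  exact PolyF.flatMap (l := fun p : CNF × List Lt => p.2)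
    (f := fun _ x => encNum (NP_code x)) (by fun_prop) (by fun_prop)

theorem p_NP (h1 : Stmt_HF) (h2 : Stmt_HS) (h3 : Stmt_ML) : Stmt_NP := by
  intro L hL
  obtain ⟨g, hg, hgL⟩ := cook_levin L hL
  refine ⟨fun w => NP_instOf (g w), ?_, ?_⟩
  · refine PolyTime.of_PolyF (A := Bool) (B := Fin 3) (N := 2) (M := 3) finTwoEquiv.symm
      (Equiv.refl _) (g := fun w => NP_strOf (g (w.map finTwoEquiv))) ?_ ?_
    · refine PolyF.comp (f := NP_strOf) (g := fun w : List (Fin 2) => g (w.map finTwoEquiv))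
        NP_polyF_strOf (PolyF.comp (f := g) hg ?_)
      exact PolyF.map (l := fun w : List (Fin 2) => w) (f := fun _ b => finTwoEquiv b)
        (by fun_prop) (by fun_prop)
    · intro w
      rw [NP_enc_instOf]
      simp [List.map_map, Function.comp_def]
  · intro w
    have hmem : [] ∈ LL (to3 (g w)) (varsL (to3 (g w))) := (h3 _ _).2.2.2
    refine ⟨⟨?_, ?_⟩, ?_⟩
    · intro h'
      have h4 : (([] : List (Fin (NP_bound (g w) + 1))) ∈ (NP_instOf (g w)).lang) :=
        (NP_mem_instOf h3).2 ⟨[], hmem, rfl⟩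
      have h5 : (([] : List (Fin (NP_bound (g w) + 1))) ∈ (NP_instOf (g w)).2) := h4
      have h6 : (NP_instOf (g w)).2 = [] := h'
      rw [h6] at h5
      exact absurd h5 List.not_mem_nil
    · intro v hv
      obtain ⟨u, hu, huv⟩ := (NP_mem_instOf h3).1 hv
      have h := congrArg List.length huv
      rw [List.length_map] at h
      exact h ▸ (h3 _ _).2.2.1 u hu
    · rw [hgL w]
      have h6 : HasFactorization (NP_instOf (g w)).lang ↔
          HasFactorization (LL (to3 (g w)) (varsL (to3 (g w)))) := by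
        refine hasFactorization_map_iff ⟨_, hmem⟩ (h3 _ _).2.1
          (fun x => Fin.ofNat (NP_bound (g w) + 1) (NP_code x)) ?_ (fun w => NP_mem_instOf h3)
        intro v hv x hx v' hv' y hy hxy
        apply NP_code_inj
        have h7 := NP_code_le_bound (((h3 _ _).1 v).2 hv : v ∈ NP_wordsOf (g w)) hx
        have h8 := NP_code_le_bound (((h3 _ _).1 v').2 hv' : v' ∈ NP_wordsOf (g w)) hy
        have h9 := congrArg Fin.val hxy
        simp only [Fin.val_ofNat] at h9
        rwa [Nat.mod_eq_of_lt (by omega), Nat.mod_eq_of_lt (by omega)] at h9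
      rw [h6, ← sat3_to3]
      constructor
      · rintro ⟨v, hv⟩
        refine h1 _ _ (fun l => v l.1 == l.2) ⟨?_, ?_⟩
        · rintro ⟨x, b⟩
          simp only [neg]
          cases v x <;> cases b <;> rfl
        · intro c hc
          simpa using hv c hc
      · exact h2 _ _ (varsL_spec _)

end Pool.FD
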