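import Pool.Agent.Work.MP_e24068_dich.InterfaceP

/-!
The Horn algorithm runs in polynomial time.
-/

set_option autoImplicit false

namespace Pool.FD

open Pool.Agent.Work.TMLib Pool.Agent.Work.MP_e24068_lc

section pho

variable {α : Type} [DE α]

/-- Membership tests. -/
theorem pho_mb (h1 : Stmt_PEL) (h3 : Stmt_PAN) {L : α → List Wd} {w : α → Wd} (hL : PolyF L)
    (hw : PolyF w) : PolyF (fun x => mb (L x) (w x)) := by
  haveI : PEq (List ℕ) := h1 ℕ
  exact h3 α Wd L (fun x u => decide (u = w x)) hL (by fun_prop)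

/-- The prefixes of length `k`. -/
theorem pho_pre (h2 : Stmt_PTK) {L : α → List Wd} {k : α → ℕ} (hL : PolyF L) (hk : PolyF k) :
    PolyF (fun x => pre (L x) (k x)) := by
  have hf : PolyF (fun x => (L x).filter (fun w => decide (k x ≤ w.length))) :=
    PolyF.filter hL (f := fun x w => decide (k x ≤ w.length)) (by fun_prop)
  exact PolyF.map hf (f := fun x w => w.take (k x))
    (h2 (α × Wd) ℕ (fun p => k p.1) (fun p => p.2) (by fun_prop) (by fun_prop))

/-- All suffixes. -/
theorem pho_sufs {L : α → List Wd} (hL : PolyF L) : PolyF (fun x => sufs (L x)) := by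
  refine PolyF.flatMap hL (f := fun _ w => (List.range (w.length + 1)).map fun k => w.drop k) ?_
  exact PolyF.map (α := α × Wd) (l := fun p => List.range (p.2.length + 1))
    (f := fun p k => p.2.drop k) (by fun_prop) (by fun_prop)

/-- The test `okR`. -/
theorem pho_okR (h1 : Stmt_PEL) (h3 : Stmt_PAN) {L K : α → List Wd} {v : α → Wd} (hL : PolyF L)
    (hK : PolyF K) (hv : PolyF v) : PolyF (fun x => okR (L x) (K x) (v x)) :=
  PolyF.all hK (f := fun x u => mb (L x) (u ++ v x))
    (pho_mb h1 h3 (L := fun p : α × Wd => L p.1) (w := fun p => p.2 ++ v p.1) (by fun_prop)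
      (by fun_prop))

/-- The test `okL`. -/
theorem pho_okL (h1 : Stmt_PEL) (h3 : Stmt_PAN) {L K : α → List Wd} {u : α → Wd} (hL : PolyF L)
    (hK : PolyF K) (hu : PolyF u) : PolyF (fun x => okL (L x) (K x) (u x)) :=
  PolyF.all hK (f := fun x v => mb (L x) (u x ++ v))
    (pho_mb h1 h3 (L := fun p : α × Wd => L p.1) (w := fun p => u p.1 ++ p.2) (by fun_prop)
      (by fun_prop))

/-- The test `cov`. -/
theorem pho_cov (h1 : Stmt_PEL) (h3 : Stmt_PAN) {U V : α → List Wd} {w : α → Wd} (hU : PolyF U)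
    (hV : PolyF V) (hw : PolyF w) : PolyF (fun x => cov (U x) (V x) (w x)) := by
  haveI : PEq (List ℕ) := h1 ℕ
  refine h3 α Wd U (fun x u => (V x).any fun v => decide (u ++ v = w x)) hU ?_
  exact h3 (α × Wd) Wd (fun p => V p.1) (fun p v => decide (p.2 ++ v = w p.1)) (by fun_prop)
    (by fun_prop)

/-- The test `isF`. -/
theorem pho_isF (h1 : Stmt_PEL) (h3 : Stmt_PAN) {L U V : α → List Wd} (hL : PolyF L)
    (hU : PolyF U) (hV : PolyF V) : PolyF (fun x => isF (L x) (U x) (V x)) := by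
  haveI : PEq (List ℕ) := h1 ℕ
  have e1 : PolyF (fun x => (U x).all (fun u => okL (L x) (V x) u)) :=
    PolyF.all hU (f := fun x u => okL (L x) (V x) u)
      (pho_okL h1 h3 (L := fun p : α × Wd => L p.1) (K := fun p => V p.1) (u := fun p => p.2)
        (by fun_prop) (by fun_prop) (by fun_prop))
  have e2 : PolyF (fun x => (L x).all (fun w => cov (U x) (V x) w)) :=
    PolyF.all hL (f := fun x w => cov (U x) (V x) w)
      (pho_cov h1 h3 (U := fun p : α × Wd => U p.1) (V := fun p => V p.1) (w := fun p => p.2)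
        (by fun_prop) (by fun_prop) (by fun_prop))
  have e3 : PolyF (fun x => (U x).any (fun u => !decide (u = []))) :=
    h3 α Wd U (fun _ u => !decide (u = [])) hU (by fun_prop)
  have e4 : PolyF (fun x => (V x).any (fun v => !decide (v = []))) :=
    h3 α Wd V (fun _ v => !decide (v = [])) hV (by fun_prop)
  exact ((e1.and e2).and e3).and e4

/-- The largest second factor. -/
theorem pho_hV (h1 : Stmt_PEL) (h3 : Stmt_PAN) {L K X : α → List Wd} (hL : PolyF L)
    (hK : PolyF K) (hX : PolyF X) : PolyF (fun x => hV (L x) (K x) (X x)) :=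
  PolyF.filter (pho_sufs hL) (f := fun x v => okR (L x) (K x ++ X x) v)
    (pho_okR h1 h3 (L := fun p : α × Wd => L p.1) (K := fun p => K p.1 ++ X p.1)
      (v := fun p => p.2) (by fun_prop) (by fun_prop) (by fun_prop))

/-- One step. -/
theorem pho_hStep (h1 : Stmt_PEL) (h2 : Stmt_PTK) (h3 : Stmt_PAN) {L K X : α → List Wd}
    {l : α → ℕ} (hL : PolyF L) (hK : PolyF K) (hl : PolyF l) (hX : PolyF X) :
    PolyF (fun x => hStep (L x) (K x) (l x) (X x)) := by
  haveI : PEq (List ℕ) := h1 ℕ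
  have c0 : PolyF (fun x => hV (L x) (K x) (X x)) := pho_hV h1 h3 hL hK hX
  have c1 : PolyF (fun p : α × Wd => mb (X p.1) p.2) :=
    pho_mb h1 h3 (L := fun p : α × Wd => X p.1) (w := fun p => p.2) (by fun_prop) (by fun_prop)
  have c2 : PolyF (fun q : (α × Wd) × Wd => q.2.take (l q.1.1)) :=
    h2 ((α × Wd) × Wd) ℕ (fun q => l q.1.1) (fun q => q.2) (by fun_prop) (by fun_prop)
  have c3 : PolyF (fun q : (α × Wd) × Wd =>
      cov (K q.1.1) (hV (L q.1.1) (K q.1.1) (X q.1.1)) q.2) :=
    pho_cov h1 h3 (U := fun q : (α × Wd) × Wd => K q.1.1)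
      (V := fun q => hV (L q.1.1) (K q.1.1) (X q.1.1)) (w := fun q => q.2) (by fun_prop)
      (PolyF.comp (g := fun q : (α × Wd) × Wd => q.1.1) c0 (by fun_prop)) (by fun_prop)
  have c4 : PolyF (fun p : α × Wd => (L p.1).any fun w =>
      decide (l p.1 ≤ w.length) && decide (w.take (l p.1) = p.2) &&
        !cov (K p.1) (hV (L p.1) (K p.1) (X p.1)) w) := by
    refine h3 (α × Wd) Wd (fun p => L p.1) (fun p w =>
      decide (l p.1 ≤ w.length) && decide (w.take (l p.1) = p.2) &&
        !cov (K p.1) (hV (L p.1) (K p.1) (X p.1)) w) (by fun_prop) ?_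
    refine ((PolyF.and ?_ ?_).and (PolyF.not c3))
    · fun_prop
    · exact PolyF.eq c2 (by fun_prop)
  exact PolyF.filter (pho_pre h2 hL hl) (f := fun x p => mb (X x) p ||
    (L x).any fun w => decide (l x ≤ w.length) && decide (w.take (l x) = p) &&
      !cov (K x) (hV (L x) (K x) (X x)) w) (PolyF.or c1 c4)

theorem pho_sz_filter (l : List Wd) (f : Wd → Bool) : sz (l.filter f) ≤ sz l := by
  induction l with
  | nil => simp
  | cons a l ih =>
    rw [List.filter_cons]
    split
    · simp only [sz_cons]; omega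
    · simp only [sz_cons]; omega

/-- The iteration. -/
theorem pho_hX (h1 : Stmt_PEL) (h2 : Stmt_PTK) (h3 : Stmt_PAN) (h4 : Stmt_PIT) :
    PolyF (fun s : List Wd × List Wd × ℕ => hX s.1 s.2.1 s.2.2) := by
  have c1 : PolyF (fun s : List Wd × List Wd × ℕ => pre s.1 s.2.2) :=
    pho_pre h2 (by fun_prop) (by fun_prop)
  obtain ⟨Q, hQ⟩ := c1.size
  refine h4 (List Wd × List Wd × ℕ) (List Wd) (fun s => (pre s.1 s.2.2).length + 1)
    (fun _ => []) (fun s X => hStep s.1 s.2.1 s.2.2 X) Q (by fun_prop) (by fun_prop) ?_ ?_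
  · exact pho_hStep h1 h2 h3 (L := fun p : (List Wd × List Wd × ℕ) × List Wd => p.1.1)
      (K := fun p => p.1.2.1) (l := fun p => p.1.2.2) (X := fun p => p.2) (by fun_prop)
      (by fun_prop) (by fun_prop) (by fun_prop)
  · intro s j _
    have hs := hQ s
    rcases j with _ | j
    · have := sz_pos (pre s.1 s.2.2)
      simp only [Function.iterate_zero, id_eq, sz_nil]
      omega
    · rw [Function.iterate_succ_apply']
      exact (pho_sz_filter _ _).trans hs

end pho

theorem p_PHO (h1 : Stmt_PEL) (h2 : Stmt_PTK) (h3 : Stmt_PAN) (h4 : Stmt_PIT) : Stmt_PHO := by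
  have c1 := pho_hX h1 h2 h3 h4
  have c2 : PolyF (fun s : List Wd × List Wd × ℕ => hV s.1 s.2.1 (hX s.1 s.2.1 s.2.2)) :=
    pho_hV h1 h3 (by fun_prop) (by fun_prop) c1
  exact pho_isF h1 h3 (L := fun s : List Wd × List Wd × ℕ => s.1)
    (U := fun s => s.2.1 ++ hX s.1 s.2.1 s.2.2) (V := fun s => hV s.1 s.2.1 (hX s.1 s.2.1 s.2.2))
    (by fun_prop) (PolyF.append (by fun_prop) c1) c2

end Pool.FD
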