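import Pool.Agent.Work.MP_e24068_dich.InterfaceP

/-! Blocks PEL, PTK, PAN, PIT: polynomial-time tools (helper10). -/

set_option autoImplicit false

namespace Pool.FD

open Pool.Agent.Work.TMLib Pool.Agent.Work.MP_e24068_lc Polynomial

/-- One step of the comparison of two lists. -/
def eqStep {α : Type} [DecidableEq α] (s : Bool × List α) (b : α) : Bool × List α :=
  (s.1 && !s.2.isEmpty && decide (s.2.headD b = b), s.2.tail)

theorem eqStep_fold {α : Type} [DecidableEq α] (u : List α) : ∀ (v : List α) (ok : Bool),
    ((u.foldl eqStep (ok, v)).1 && (u.foldl eqStep (ok, v)).2.isEmpty) =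
      (ok && decide (u = v)) := by
  induction u with
  | nil =>
    intro v ok
    cases v <;> simp
  | cons b u ih =>
    intro v ok
    rw [List.foldl_cons]
    unfold eqStep
    rw [show (fun (s : Bool × List α) (b : α) =>
      (s.1 && !s.2.isEmpty && decide (s.2.headD b = b), s.2.tail)) = eqStep from rfl]
    rw [ih]
    cases v with
    | nil => simp
    | cons c v =>
      rw [Bool.eq_iff_iff]
      simp only [List.isEmpty_cons, Bool.not_false, Bool.and_true, List.headD_cons,
        Bool.and_eq_true, decide_eq_true_eq, List.tail_cons, List.cons.injEq, and_assoc]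
      constructor
      · rintro ⟨h1, h2, h3⟩
        refine ⟨h1, ?_, ?_⟩
        · first
            | exact h2.symm
            | exact (of_decide_eq_true h2).symm
        · first
            | exact h3
            | exact of_decide_eq_true h3
      · rintro ⟨h1, h2, h3⟩
        refine ⟨h1, ?_, ?_⟩
        · first
            | exact h2.symm
            | exact decide_eq_true h2.symm
        · first
            | exact h3
            | exact decide_eq_true h3

/-- Block PEL. -/
theorem p_PEL : Stmt_PEL := by
  intro α _ _ _
  refine ⟨?_⟩
  have h : PolyF (fun p : List α × List α => p.1.foldl eqStep (true, p.2)) := by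
    refine PolyF.foldl_add (l := fun p : List α × List α => p.1) (g := fun p => (true, p.2))
      (h := fun _ s b => eqStep s b) (by fun_prop) (by fun_prop) ?_ 3 ?_
    · unfold eqStep
      fun_prop
    · intro a s b _
      have h1 := sz_bool_le (s.1 && !s.2.isEmpty && decide (s.2.headD b = b))
      have h2 : sz s.2.tail ≤ sz s.2 := by
        have := sz_drop_le s.2 1
        simpa using this
      have h3 := sz_pos s.1
      simp only [eqStep, sz_pair, eval_ofNat]
      omega
  have h2 : PolyF (fun p : List α × List α =>
      (fun r : Bool × List α => r.1 && r.2.isEmpty) (p.1.foldl eqStep (true, p.2))) := by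
    refine PolyF.comp (f := fun r : Bool × List α => r.1 && r.2.isEmpty) ?_ h
    fun_prop
  refine h2.congrF fun p => ?_
  have := eqStep_fold p.1 p.2 true
  simpa using this

/-- Block PTK. -/
theorem p_PTK : Stmt_PTK := by
  intro α β _ _ n l hn hl
  have h : PolyF (fun x => ((l x).reverse.drop ((l x).length - n x)).reverse) := by
    have h1 : PolyF (fun x => (l x).length) := PolyF.length hl
    fun_prop
  refine h.congrF fun x => ?_
  rw [List.drop_reverse, List.reverse_reverse]
  rcases le_total (n x) (l x).length with h1 | h1
  · rw [Nat.sub_sub_self h1]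
  · rw [Nat.sub_eq_zero_of_le h1, Nat.sub_zero, List.take_length, List.take_of_length_le h1]

/-- Block PAN. -/
theorem p_PAN : Stmt_PAN := by
  intro α β _ _ l f hl hf
  have h : PolyF (fun a => !((l a).all (fun b => !(f a b)))) := by
    refine PolyF.not (PolyF.all hl (f := fun a b => !(f a b)) ?_)
    fun_prop
  refine h.congrF fun a => ?_
  induction l a with
  | nil => rfl
  | cons b u ih =>
    simp only [List.all_cons, List.any_cons, ← ih]
    cases f a b <;> simp

/-- Block PIT. -/
theorem p_PIT : Stmt_PIT := by
  intro α γ _ _ n g h Q hn hg hh hQ
  have h' : PolyF (fun p : α × γ × Unit => h p.1 p.2.1) :=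
    PolyF.comp (f := fun p : α × γ => h p.1 p.2) (g := fun p : α × γ × Unit => (p.1, p.2.1))
      hh (by fun_prop)
  refine (PolyF.foldl (l := fun a => units (n a)) (g := g) (h := fun a s _ => h a s)
    (by fun_prop) hg h' Q ?_).congrF fun a => ?_
  · intro a j hj
    rw [length_units] at hj
    rw [show (units (n a)).take j = units j by
      simp [units, List.take_replicate]
      omega]
    rw [foldl_units]
    exact hQ a j hj
  · rw [foldl_units]

end Pool.FD
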