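import Pool.Agent.Work.MP_e24068_dich.InterfaceP

/-!
Block PP (helper65): decoding of instances, and the decision problem for small spread.
-/

set_option autoImplicit false

namespace Pool.FD

open Pool.Agent.Work.TMLib Pool.Agent.Work.MP_e24068_lc

/-- One step of the decoder: flag (is the number of letters read?), counter, current word
(reversed), words read (reversed). -/
def PP_step (s : Bool × ℕ × Wd × List Wd) (c : Fin 3) : Bool × ℕ × Wd × List Wd :=
  bif decide (c.val = 0) then (s.1, s.2.1 + 1, s.2.2.1, s.2.2.2)
  else bif decide (c.val = 1) then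
    (true, 0, (bif s.1 then s.2.1 :: s.2.2.1 else s.2.2.1), s.2.2.2)
  else (s.1, s.2.1, [], s.2.2.1.reverse :: s.2.2.2)

/-- The decoder. -/
def PP_dec (s : List (Fin 3)) : List Wd := (s.foldl PP_step (false, 0, [], [])).2.2.2.reverse

theorem PP_rep (x : ℕ) (s : Bool × ℕ × Wd × List Wd) :
    (List.replicate x (0 : Fin 3)).foldl PP_step s = (s.1, s.2.1 + x, s.2.2.1, s.2.2.2) := by
  induction x generalizing s with
  | zero => rfl
  | succ x ih =>
    rw [List.replicate_succ, List.foldl_cons, ih]
    simp only [PP_step, Fin.val_zero, decide_true, cond_true]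
    rw [add_assoc, add_comm 1 x]

theorem PP_one (s : Bool × ℕ × Wd × List Wd) : PP_step s 1 =
    (true, 0, (bif s.1 then s.2.1 :: s.2.2.1 else s.2.2.1), s.2.2.2) := rfl

theorem PP_two (s : Bool × ℕ × Wd × List Wd) : PP_step s 2 =
    (s.1, s.2.1, [], s.2.2.1.reverse :: s.2.2.2) := rfl

theorem PP_num (x : ℕ) (w : Wd) (o : List Wd) :
    (encNum x).foldl PP_step (true, 0, w, o) = (true, 0, x :: w, o) := by
  unfold encNum
  rw [List.foldl_append, PP_rep, List.foldl_cons, List.foldl_nil, PP_one]
  simp

theorem PP_head (x : ℕ) :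
    (encNum x).foldl PP_step (false, 0, [], []) = (true, 0, [], []) := by
  unfold encNum
  rw [List.foldl_append, PP_rep, List.foldl_cons, List.foldl_nil, PP_one]
  simp

theorem PP_word {n : ℕ} (w : List (Fin n)) (acc : Wd) (o : List Wd) :
    (w.flatMap fun x => encNum x.val).foldl PP_step (true, 0, acc, o) =
      (true, 0, (w.map Fin.val).reverse ++ acc, o) := by
  induction w generalizing acc with
  | nil => rfl
  | cons x w ih =>
    rw [List.flatMap_cons, List.foldl_append, PP_num, ih]
    simp

theorem PP_words {n : ℕ} (L : List (List (Fin n))) (o : List Wd) :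
    (L.flatMap fun w => (w.flatMap fun x => encNum x.val) ++ [2]).foldl PP_step
      (true, 0, [], o) = (true, 0, [], (L.map fun w => w.map Fin.val).reverse ++ o) := by
  induction L generalizing o with
  | nil => rfl
  | cons w L ih =>
    rw [List.flatMap_cons, List.foldl_append, List.foldl_append, PP_word, List.foldl_cons,
      List.foldl_nil, PP_two, ih]
    simp

theorem PP_dec_enc (I : Inst) : PP_dec (Inst.enc I) = I.2.map fun w => w.map Fin.val := by
  unfold PP_dec Inst.enc
  rw [List.foldl_append, PP_head, PP_words]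
  simp

theorem PP_val {α : Type} [DE α] {f : α → Fin 3} (hf : PolyF f) : PolyF (fun x => (f x).val) :=
  PolyF.comp (f := fun c : Fin 3 => c.val) (PolyF.of_G (PolyG.refl _) fun _ => rfl) hf

theorem PP_polyF_dec : PolyF PP_dec := by
  unfold PP_dec
  refine PolyF.reverse (PolyF.snd (PolyF.snd (PolyF.snd ?_)))
  refine PolyF.foldl_add (l := fun s : List (Fin 3) => s)
    (g := fun _ => ((false, 0, [], []) : Bool × ℕ × Wd × List Wd))
    (h := fun _ s c => PP_step s c) (by fun_prop) (by fun_prop) ?_ 4 ?_
  · have hv : PolyF (fun p : List (Fin 3) × (Bool × ℕ × Wd × List Wd) × Fin 3 => p.2.2.val) :=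
      PP_val (by fun_prop)
    unfold PP_step
    fun_prop
  · intro a s c _
    unfold PP_step
    have h1 := sz_bool_le s.1
    have h2 := sz_pos s.1
    have h3 := sz_reverse s.2.2.1
    obtain ⟨f, k, w, o⟩ := s
    simp only [Polynomial.eval_ofNat]
    cases decide (c.val = 0)
    · cases decide (c.val = 1)
      · simp only [cond_false, sz_pair, sz_cons, sz_nil] at *
        omega
      · cases f <;> simp only [cond_false, cond_true, sz_pair, sz_cons, sz_nat, sz_true,
          sz_false] at * <;> omega
    · simp only [cond_true, sz_pair, sz_nat] at *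
      omega

theorem p_PP (h1 : Stmt_SOC) (h2 : Stmt_SOS) (h3 : Stmt_PSO) : Stmt_PP := by
  refine ⟨fun I => solve (I.2.map fun w => w.map Fin.val), ?_, ?_⟩
  · refine PolyTime.of_PolyF (A := Fin 3) (B := Bool) (N := 3) (M := 2) (Equiv.refl _)
      finTwoEquiv.symm (g := fun s => [bif solve (PP_dec s) then (1 : Fin 2) else 0]) ?_ ?_
    · have hd : PolyF (fun s : List (Fin 3) => solve (PP_dec s)) :=
        PolyF.comp (f := solve) h3 PP_polyF_dec
      exact PolyF.cons (PolyF.cond hd (PolyF.const _) (PolyF.const _)) (PolyF.const _)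
    · intro I
      simp only [Equiv.refl_apply, Equiv.coe_refl, List.map_id, PP_dec_enc, List.map_cons,
        List.map_nil, List.cons.injEq, and_true]
      cases solve (I.2.map fun w => w.map Fin.val) <;> rfl
  · intro I hne hsp
    have hne' : (I.2.map fun w => w.map Fin.val) ≠ [] := by simpa using hne
    have hsp' : ∀ v ∈ (I.2.map fun w => w.map Fin.val), ∀ w ∈ (I.2.map fun w => w.map Fin.val),
        w.length ≤ v.length + 7 := by
      intro v hv w hw
      obtain ⟨v', hv', rfl⟩ := List.mem_map.1 hv
      obtain ⟨w', hw', rfl⟩ := List.mem_map.1 hw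
      simpa using hsp v' hv' w' hw'
    have hiff : HasFactorization (LW (I.2.map fun w => w.map Fin.val)) ↔
        HasFactorization I.lang := by
      refine hasFactorization_map_iff (L := I.lang) ?_ ?_ Fin.val ?_ ?_
      · obtain ⟨w, hw⟩ := List.exists_mem_of_ne_nil _ hne
        exact ⟨w, hw⟩
      · exact List.finite_toSet I.2
      · intro w _ x _ w' _ y _ hxy
        exact Fin.ext hxy
      · intro w
        show w ∈ (I.2.map fun w => w.map Fin.val) ↔ _
        rw [List.mem_map]
        rfl
    rw [← hiff]
    exact ⟨h2 _ hne', h1 _ hne' hsp'⟩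

end Pool.FD
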