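import Pool.Agent.Work.MP_e24068_dich.InterfaceP

/-! Block PSA (helper75). -/

set_option autoImplicit false

namespace Pool.FD

open Pool.Agent.Work.TMLib Pool.Agent.Work.MP_e24068_lc

theorem PSA_sz_filter {α : Type} [DE α] (f : α → Bool) (l : List α) :
    sz (l.filter f) ≤ sz l := by
  induction l with
  | nil => simp
  | cons a l ih =>
    rw [List.filter_cons]
    split_ifs
    · simp only [sz_cons]
      omega
    · simp only [sz_cons]
      omega

section
variable {V : Type} [DE V] [DecidableEq V] [PEq V] {α : Type} [DE α]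

omit [DecidableEq V] [PEq V] in
theorem PSA_ng {l : α → V × Bool} (hl : PolyF l) : PolyF (fun a => ng (l a)) := by
  unfold ng
  fun_prop

theorem PSA_lits {T : α → List ((V × Bool) × (V × Bool))} (hT : PolyF T) :
    PolyF (fun a => lits (T a)) := by
  unfold lits
  refine PolyF.flatMap (l := T) (f := fun _ c => [c.1, c.2, ng c.1, ng c.2]) hT ?_
  have h1 : PolyF (fun p : α × ((V × Bool) × (V × Bool)) => ng p.2.1) := PSA_ng (by fun_prop)
  have h2 : PolyF (fun p : α × ((V × Bool) × (V × Bool)) => ng p.2.2) := PSA_ng (by fun_prop)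
  fun_prop

theorem PSA_prs {T : α → List ((V × Bool) × (V × Bool))} (hT : PolyF T) :
    PolyF (fun a => prs (T a)) := by
  unfold prs
  have h1 := PSA_lits hT
  refine PolyF.flatMap (l := fun a => lits (T a))
    (f := fun a l => (lits (T a)).map fun l' => (l, l')) h1 ?_
  have h2 : PolyF (fun p : α × (V × Bool) => lits (T p.1)) := PSA_lits (by fun_prop)
  exact PolyF.map (l := fun p : α × (V × Bool) => lits (T p.1)) (f := fun p l' => (p.2, l')) h2
    (by fun_prop)

theorem PSA_mc (h3 : Stmt_PAN) {S : α → List ((V × Bool) × (V × Bool))}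
    {c : α → (V × Bool) × (V × Bool)} (hS : PolyF S) (hc : PolyF c) :
    PolyF (fun a => mc (S a) (c a)) := by
  unfold mc
  refine h3 α ((V × Bool) × (V × Bool)) S (fun a d => decide (d = c a)) hS ?_
  exact PolyF.eq (f := fun p : α × ((V × Bool) × (V × Bool)) => p.2)
    (g := fun p => c p.1) (by fun_prop) (by fun_prop)

theorem PSA_rs (h3 : Stmt_PAN) {T S : α → List ((V × Bool) × (V × Bool))} (hT : PolyF T)
    (hS : PolyF S) : PolyF (fun a => rs (T a) (S a)) := by
  unfold rs
  refine PolyF.filter (l := fun a => prs (T a)) (f := fun a c => mc (T a) c ||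
    mc (T a) (c.2, c.1) || mc (S a) c || mc (S a) (c.2, c.1) ||
    (lits (T a)).any fun m => mc (S a) (c.1, m) && mc (S a) (ng m, c.2)) (PSA_prs hT) ?_
  have hT' : PolyF (fun p : α × ((V × Bool) × (V × Bool)) => T p.1) := by fun_prop
  have hS' : PolyF (fun p : α × ((V × Bool) × (V × Bool)) => S p.1) := by fun_prop
  refine PolyF.or (PolyF.or (PolyF.or (PolyF.or ?_ ?_) ?_) ?_) ?_
  · exact PSA_mc h3 hT' (by fun_prop)
  · exact PSA_mc h3 hT' (by fun_prop)
  · exact PSA_mc h3 hS' (by fun_prop)
  · exact PSA_mc h3 hS' (by fun_prop)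
  · refine h3 (α × ((V × Bool) × (V × Bool))) (V × Bool) (fun p => lits (T p.1))
      (fun p m => mc (S p.1) (p.2.1, m) && mc (S p.1) (ng m, p.2.2)) (PSA_lits hT') ?_
    have hS2 : PolyF (fun p : (α × ((V × Bool) × (V × Bool))) × (V × Bool) => S p.1.1) := by
      fun_prop
    have hn : PolyF (fun p : (α × ((V × Bool) × (V × Bool))) × (V × Bool) => ng p.2) :=
      PSA_ng (by fun_prop)
    refine PolyF.and ?_ ?_
    · exact PSA_mc h3 hS2 (by fun_prop)
    · exact PSA_mc h3 hS2 (by fun_prop)

end

theorem p_PSA (_h1 : Stmt_PEL) (_h2 : Stmt_PTK) (h3 : Stmt_PAN) (h4 : Stmt_PIT) : Stmt_PSA := by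
  intro V _ _ _
  have hT : PolyF (fun T : List ((V × Bool) × (V × Bool)) => T) := by fun_prop
  have hp := PSA_prs hT
  obtain ⟨q, hq⟩ := hp.size
  have hcls : PolyF (fun T : List ((V × Bool) × (V × Bool)) => cls T) := by
    unfold cls
    refine h4 (List ((V × Bool) × (V × Bool))) (List ((V × Bool) × (V × Bool)))
      (fun T => (prs T).length + 1) (fun _ => []) (fun T S => rs T S) (q + 1) (by fun_prop)
      (by fun_prop) ?_ ?_
    · exact PSA_rs h3 (T := fun p : List ((V × Bool) × (V × Bool)) ×
        List ((V × Bool) × (V × Bool)) => p.1) (S := fun p => p.2) (by fun_prop) (by fun_prop)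
    · intro T j _
      cases j with
      | zero => simp
      | succ j =>
        rw [Function.iterate_succ_apply']
        have e := PSA_sz_filter (fun c => mc T c || mc T (c.2, c.1) ||
          mc ((fun S => rs T S)^[j] []) c || mc ((fun S => rs T S)^[j] []) (c.2, c.1) ||
          (lits T).any fun m => mc ((fun S => rs T S)^[j] []) (c.1, m) &&
            mc ((fun S => rs T S)^[j] []) (ng m, c.2)) (prs T)
        have e2 := hq T
        simp only [Polynomial.eval_add, Polynomial.eval_one]
        have e3 : sz (rs T ((fun S => rs T S)^[j] [])) ≤ sz (prs T) := e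
        omega
  unfold sat2
  refine PolyF.not ?_
  refine h3 (List ((V × Bool) × (V × Bool))) (V × Bool) (fun T => lits T)
    (fun T l => mc (cls T) (l, l) && mc (cls T) (ng l, ng l)) (PSA_lits hT) ?_
  have hc' : PolyF (fun p : List ((V × Bool) × (V × Bool)) × (V × Bool) => cls p.1) :=
    PolyF.comp (f := fun T : List ((V × Bool) × (V × Bool)) => cls T)
      (g := fun p : List ((V × Bool) × (V × Bool)) × (V × Bool) => p.1) hcls (by fun_prop)
  have hn : PolyF (fun p : List ((V × Bool) × (V × Bool)) × (V × Bool) => ng p.2) :=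
    PSA_ng (by fun_prop)
  exact PolyF.and (PSA_mc h3 hc' (by fun_prop)) (PSA_mc h3 hc' (by fun_prop))

end Pool.FD
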