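import Pool.Agent.Work.MP_e24068_dich.InterfaceP

/-! Block PSO (helper75). -/

set_option autoImplicit false

namespace Pool.FD

open Pool.Agent.Work.TMLib Pool.Agent.Work.MP_e24068_lc

theorem PSO_rv {α : Type} [DE α] {l : α → List Wd} (hl : PolyF l) : PolyF (fun a => rv (l a)) := by
  unfold rv
  exact PolyF.map (l := l) (f := fun _ w => w.reverse) hl (by fun_prop)

theorem PSO_quads {α : Type} [DE α] {n : α → ℕ} (hn : PolyF n) :
    PolyF (fun a => quads (n a)) := by
  unfold quads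
  refine PolyF.flatMap (l := fun a => List.range (n a)) (f := fun x a =>
    (List.range (n x)).flatMap fun b => (List.range (n x)).flatMap fun p =>
      (List.range (n x)).map fun q => (a, b, p, q)) (by fun_prop) ?_
  refine PolyF.flatMap (l := fun y : α × ℕ => List.range (n y.1)) (f := fun y b =>
    (List.range (n y.1)).flatMap fun p => (List.range (n y.1)).map fun q => (y.2, b, p, q))
    (by fun_prop) ?_
  refine PolyF.flatMap (l := fun y : (α × ℕ) × ℕ => List.range (n y.1.1)) (f := fun y p =>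
    (List.range (n y.1.1)).map fun q => (y.1.2, y.2, p, q)) (by fun_prop) ?_
  refine PolyF.map (l := fun y : ((α × ℕ) × ℕ) × ℕ => List.range (n y.1.1.1)) (f := fun y q =>
    (y.1.1.2, y.1.2, y.2, q)) (by fun_prop) (by fun_prop)

theorem p_PSO (h1 : Stmt_PTR) (h2 : Stmt_PTF) (h3 : Stmt_PAN) : Stmt_PSO := by
  unfold Stmt_PSO
  have ht : PolyF (fun s : List Wd × ℕ × ℕ × ℕ × ℕ =>
      tries s.1 s.2.1 s.2.2.1 s.2.2.2.1 s.2.2.2.2) := PolyF.or h1 h2
  unfold solve
  refine h3 (List Wd) (ℕ × ℕ × ℕ × ℕ) (fun L => quads ((L.flatMap fun w => w).length + 1))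
    (fun L s => tries L s.1 s.2.1 s.2.2.1 s.2.2.2 || tries (rv L) s.1 s.2.1 s.2.2.1 s.2.2.2)
    ?_ ?_
  · refine PSO_quads (n := fun L : List Wd => (L.flatMap fun w => w).length + 1) ?_
    have : PolyF (fun L : List Wd => L.flatMap fun w => w) :=
      PolyF.flatMap (l := fun L : List Wd => L) (f := fun _ w => w) (by fun_prop) (by fun_prop)
    fun_prop
  · refine PolyF.or ?_ ?_
    · exact PolyF.comp (f := fun s : List Wd × ℕ × ℕ × ℕ × ℕ =>
        tries s.1 s.2.1 s.2.2.1 s.2.2.2.1 s.2.2.2.2)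
        (g := fun p : List Wd × (ℕ × ℕ × ℕ × ℕ) => (p.1, p.2.1, p.2.2.1, p.2.2.2.1, p.2.2.2.2))
        ht (by fun_prop)
    · have hr : PolyF (fun p : List Wd × (ℕ × ℕ × ℕ × ℕ) => rv p.1) := PSO_rv (by fun_prop)
      exact PolyF.comp (f := fun s : List Wd × ℕ × ℕ × ℕ × ℕ =>
        tries s.1 s.2.1 s.2.2.1 s.2.2.2.1 s.2.2.2.2)
        (g := fun p : List Wd × (ℕ × ℕ × ℕ × ℕ) =>
          (rv p.1, p.2.1, p.2.2.1, p.2.2.2.1, p.2.2.2.2)) ht (by fun_prop)

end Pool.FD
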