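import Pool.Agent.Work.MP_e24068_dich.InterfaceP

/-!
Block PTF (helper65): the last try is computable in polynomial time.

All lemmas are stated for an arbitrary context `α` and use the class `PTFh` of hypotheses, so that
`fun_prop` can use them.
-/

set_option autoImplicit false

namespace Pool.FD

open Pool.Agent.Work.TMLib Pool.Agent.Work.MP_e24068_lc

/-- The hypotheses, as a class (for `fun_prop`). -/
class PTFh : Prop where
  el : Stmt_PEL
  tk : Stmt_PTK
  an : Stmt_PAN

section PTF

variable [PTFh] {α β : Type} [DE α] [DE β]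

instance PTF_eq : PEq (List ℕ) := PTFh.el ℕ

@[fun_prop]
theorem PTF_take {n : α → ℕ} {l : α → List β} (hn : PolyF n) (hl : PolyF l) :
    PolyF (fun x => (l x).take (n x)) := PTFh.tk α β n l hn hl

theorem PTF_any {l : α → List β} {f : α → β → Bool} (hl : PolyF l)
    (hf : PolyF fun p : α × β => f p.1 p.2) : PolyF (fun x => (l x).any (f x)) :=
  PTFh.an α β l f hl hf

@[fun_prop]
theorem PTF_mb {L : α → List Wd} {w : α → Wd} (hL : PolyF L) (hw : PolyF w) :
    PolyF (fun x => mb (L x) (w x)) := by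
  unfold mb
  exact PTF_any (l := L) (f := fun x u => decide (u = w x)) hL (by fun_prop)

@[fun_prop]
theorem PTF_pre {L : α → List Wd} {k : α → ℕ} (hL : PolyF L) (hk : PolyF k) :
    PolyF (fun x => pre (L x) (k x)) := by
  unfold pre
  refine PolyF.map (l := fun x => (L x).filter fun w => decide (k x ≤ w.length))
    (f := fun x w => w.take (k x)) ?_ (by fun_prop)
  exact PolyF.filter (l := L) (f := fun x w => decide (k x ≤ w.length)) hL (by fun_prop)

@[fun_prop]
theorem PTF_suf {L : α → List Wd} {k : α → ℕ} (hL : PolyF L) (hk : PolyF k) :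
    PolyF (fun x => suf (L x) (k x)) := by
  unfold suf
  refine PolyF.map (l := fun x => (L x).filter fun w => decide (k x ≤ w.length))
    (f := fun x w => w.drop (w.length - k x)) ?_ (by fun_prop)
  exact PolyF.filter (l := L) (f := fun x w => decide (k x ≤ w.length)) hL (by fun_prop)

@[fun_prop]
theorem PTF_len {L : α → List Wd} {k : α → ℕ} (hL : PolyF L) (hk : PolyF k) :
    PolyF (fun x => len (L x) (k x)) := by
  unfold len
  exact PolyF.filter (l := L) (f := fun x w => decide (w.length = k x)) hL (by fun_prop)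

@[fun_prop]
theorem PTF_okR {L K : α → List Wd} {v : α → Wd} (hL : PolyF L) (hK : PolyF K) (hv : PolyF v) :
    PolyF (fun x => okR (L x) (K x) (v x)) := by
  unfold okR
  exact PolyF.all (l := K) (f := fun x u => mb (L x) (u ++ v x)) hK (by fun_prop)

@[fun_prop]
theorem PTF_okL {L K : α → List Wd} {v : α → Wd} (hL : PolyF L) (hK : PolyF K) (hv : PolyF v) :
    PolyF (fun x => okL (L x) (K x) (v x)) := by
  unfold okL
  exact PolyF.all (l := K) (f := fun x u => mb (L x) (v x ++ u)) hK (by fun_prop)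

@[fun_prop]
theorem PTF_cov {U V : α → List Wd} {w : α → Wd} (hU : PolyF U) (hV : PolyF V) (hw : PolyF w) :
    PolyF (fun x => cov (U x) (V x) (w x)) := by
  unfold cov
  refine PTF_any (l := U) (f := fun x u => (V x).any fun v => decide (u ++ v = w x)) hU ?_
  exact PTF_any (l := fun p : α × Wd => V p.1) (f := fun p v => decide (p.2 ++ v = w p.1))
    (by fun_prop) (by fun_prop)

@[fun_prop]
theorem PTF_cL {L K : α → List Wd} {k : α → ℕ} (hL : PolyF L) (hK : PolyF K) (hk : PolyF k) :
    PolyF (fun x => cL (L x) (K x) (k x)) := by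
  unfold cL
  exact PolyF.filter (l := fun x => pre (L x) (k x)) (f := fun x u => okL (L x) (K x) u)
    (by fun_prop) (by fun_prop)

@[fun_prop]
theorem PTF_cR {L K : α → List Wd} {k : α → ℕ} (hL : PolyF L) (hK : PolyF K) (hk : PolyF k) :
    PolyF (fun x => cR (L x) (K x) (k x)) := by
  unfold cR
  exact PolyF.filter (l := fun x => suf (L x) (k x)) (f := fun x u => okR (L x) (K x) u)
    (by fun_prop) (by fun_prop)

section levels

variable {L : α → List Wd} {a b p q : α → ℕ} (hL : PolyF L) (ha : PolyF a) (hb : PolyF b)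
  (hp : PolyF p) (hq : PolyF q)

include hL ha hb in
@[fun_prop]
theorem PTF_U0 : PolyF (fun x => U0 (L x) (a x) (b x)) := by
  unfold U0; fun_prop

include hL ha hb in
@[fun_prop]
theorem PTF_V0 : PolyF (fun x => V0 (L x) (a x) (b x)) := by
  unfold V0; fun_prop

include hL hp hq in
@[fun_prop]
theorem PTF_Ut : PolyF (fun x => Ut (L x) (p x) (q x)) := by
  unfold Ut; fun_prop

include hL hp hq in
@[fun_prop]
theorem PTF_Vt : PolyF (fun x => Vt (L x) (p x) (q x)) := by
  unfold Vt; fun_prop

include hL ha hb hp hq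

@[fun_prop]
theorem PTF_V3 : PolyF (fun x => V3 (L x) (a x) (b x) (p x) (q x)) := by
  unfold V3; fun_prop

@[fun_prop]
theorem PTF_VK : PolyF (fun x => VK (L x) (a x) (b x) (p x) (q x)) := by
  unfold VK; fun_prop

@[fun_prop]
theorem PTF_C1 : PolyF (fun x => C1 (L x) (a x) (b x) (p x) (q x)) := by
  unfold C1; fun_prop

@[fun_prop]
theorem PTF_C2 : PolyF (fun x => C2 (L x) (a x) (b x) (p x) (q x)) := by
  unfold C2; fun_prop

@[fun_prop]
theorem PTF_D1 : PolyF (fun x => D1 (L x) (a x) (b x) (p x) (q x)) := by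
  unfold D1; fun_prop

@[fun_prop]
theorem PTF_D2 : PolyF (fun x => D2 (L x) (a x) (b x) (p x) (q x)) := by
  unfold D2; fun_prop

@[fun_prop]
theorem PTF_vars : PolyF (fun x => vars (L x) (a x) (b x) (p x) (q x)) := by
  unfold vars
  refine PolyF.append ?_ ?_
  · exact PolyF.map (l := fun x => C1 (L x) (a x) (b x) (p x) (q x) ++
      C2 (L x) (a x) (b x) (p x) (q x)) (f := fun _ u => (false, u)) (by fun_prop) (by fun_prop)
  · exact PolyF.map (l := fun x => D1 (L x) (a x) (b x) (p x) (q x) ++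
      D2 (L x) (a x) (b x) (p x) (q x)) (f := fun _ u => (true, u)) (by fun_prop) (by fun_prop)

@[fun_prop]
theorem PTF_Umax : PolyF (fun x => Umax (L x) (a x) (b x) (p x) (q x)) := by
  unfold Umax; fun_prop

@[fun_prop]
theorem PTF_Vmax : PolyF (fun x => Vmax (L x) (a x) (b x) (p x) (q x)) := by
  unfold Vmax; fun_prop

end levels

@[fun_prop]
theorem PTF_rm {s : α → Bool} {x y : α → Bool × Wd} {A : α → List Wd} (hs : PolyF s)
    (hx : PolyF x) (hy : PolyF y) (hA : PolyF A) :
    PolyF (fun t => rm (s t) (x t) (y t) (A t)) := by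
  unfold rm
  exact PolyF.filter (l := A)
    (f := fun t u => !(decide (x t = (s t, u)) || decide (y t = (s t, u)))) hA (by fun_prop)

section clauses

variable {L : α → List Wd} {a b p q : α → ℕ} (hL : PolyF L) (ha : PolyF a) (hb : PolyF b)
  (hp : PolyF p) (hq : PolyF q)

include hL ha hb hp hq

@[fun_prop]
theorem PTF_kl1 : PolyF (fun x => kl1 (L x) (a x) (b x) (p x) (q x)) := by
  unfold kl1
  refine PolyF.flatMap (l := fun t => vars (L t) (a t) (b t) (p t) (q t))
    (f := fun t x => ((vars (L t) (a t) (b t) (p t) (q t)).filter fun y =>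
      (L t).any fun w => !cov (rm false x y (Umax (L t) (a t) (b t) (p t) (q t)))
        (rm true x y (Vmax (L t) (a t) (b t) (p t) (q t))) w).map
        fun y => ((x, true), (y, true))) (by fun_prop) ?_
  refine PolyF.map (l := fun s : α × (Bool × Wd) =>
    (vars (L s.1) (a s.1) (b s.1) (p s.1) (q s.1)).filter fun y =>
      (L s.1).any fun w => !cov (rm false s.2 y (Umax (L s.1) (a s.1) (b s.1) (p s.1) (q s.1)))
        (rm true s.2 y (Vmax (L s.1) (a s.1) (b s.1) (p s.1) (q s.1))) w)
    (f := fun s y => ((s.2, true), (y, true))) ?_ (by fun_prop)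
  refine PolyF.filter (l := fun s : α × (Bool × Wd) =>
    vars (L s.1) (a s.1) (b s.1) (p s.1) (q s.1))
    (f := fun s y => (L s.1).any fun w =>
      !cov (rm false s.2 y (Umax (L s.1) (a s.1) (b s.1) (p s.1) (q s.1)))
        (rm true s.2 y (Vmax (L s.1) (a s.1) (b s.1) (p s.1) (q s.1))) w) (by fun_prop) ?_
  exact PTF_any (l := fun r : (α × (Bool × Wd)) × (Bool × Wd) => L r.1.1)
    (f := fun r w => !cov
      (rm false r.1.2 r.2 (Umax (L r.1.1) (a r.1.1) (b r.1.1) (p r.1.1) (q r.1.1)))
      (rm true r.1.2 r.2 (Vmax (L r.1.1) (a r.1.1) (b r.1.1) (p r.1.1) (q r.1.1))) w)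
    (by fun_prop) (by fun_prop)

@[fun_prop]
theorem PTF_kl2 : PolyF (fun x => kl2 (L x) (a x) (b x) (p x) (q x)) := by
  unfold kl2
  refine PolyF.flatMap (l := fun t => C1 (L t) (a t) (b t) (p t) (q t) ++
      C2 (L t) (a t) (b t) (p t) (q t))
    (f := fun t u => ((D1 (L t) (a t) (b t) (p t) (q t) ++
      D2 (L t) (a t) (b t) (p t) (q t)).filter fun v => !mb (L t) (u ++ v)).map
        fun v => (((false, u), false), ((true, v), false))) (by fun_prop) ?_
  refine PolyF.map (l := fun s : α × Wd => (D1 (L s.1) (a s.1) (b s.1) (p s.1) (q s.1) ++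
      D2 (L s.1) (a s.1) (b s.1) (p s.1) (q s.1)).filter fun v => !mb (L s.1) (s.2 ++ v))
    (f := fun s v => (((false, s.2), false), ((true, v), false))) ?_ (by fun_prop)
  exact PolyF.filter (l := fun s : α × Wd => D1 (L s.1) (a s.1) (b s.1) (p s.1) (q s.1) ++
      D2 (L s.1) (a s.1) (b s.1) (p s.1) (q s.1)) (f := fun s v => !mb (L s.1) (s.2 ++ v))
    (by fun_prop) (by fun_prop)

@[fun_prop]
theorem PTF_kl3 : PolyF (fun x => kl3 (L x) (a x) (b x) (p x) (q x)) := by
  unfold kl3
  refine PolyF.map (l := fun t => (C2 (L t) (a t) (b t) (p t) (q t)).filter fun u =>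
      mb (C1 (L t) (a t) (b t) (p t) (q t)) (u.take (a t + 1)))
    (f := fun t u => (((false, u.take (a t + 1)), true), ((false, u), true))) ?_ (by fun_prop)
  exact PolyF.filter (l := fun t => C2 (L t) (a t) (b t) (p t) (q t))
    (f := fun t u => mb (C1 (L t) (a t) (b t) (p t) (q t)) (u.take (a t + 1)))
    (by fun_prop) (by fun_prop)

@[fun_prop]
theorem PTF_kl4 : PolyF (fun x => kl4 (L x) (a x) (b x) (p x) (q x)) := by
  unfold kl4
  refine PolyF.map (l := fun t => (D2 (L t) (a t) (b t) (p t) (q t)).filter fun v =>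
      mb (D1 (L t) (a t) (b t) (p t) (q t)) (v.drop 1))
    (f := fun _ v => (((true, v.drop 1), true), ((true, v), true))) ?_ (by fun_prop)
  exact PolyF.filter (l := fun t => D2 (L t) (a t) (b t) (p t) (q t))
    (f := fun t v => mb (D1 (L t) (a t) (b t) (p t) (q t)) (v.drop 1))
    (by fun_prop) (by fun_prop)

theorem PTF_tryF (hS : PolyF (fun T : List (((Bool × Wd) × Bool) × ((Bool × Wd) × Bool)) =>
    sat2 T)) : PolyF (fun x => tryF (L x) (a x) (b x) (p x) (q x)) := by
  unfold tryF
  have h1 : PolyF (fun x => (U0 (L x) (a x) (b x) ++ Ut (L x) (p x) (q x)).all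
      (fun u => okL (L x) (VK (L x) (a x) (b x) (p x) (q x)) u)) :=
    PolyF.all (l := fun x => U0 (L x) (a x) (b x) ++ Ut (L x) (p x) (q x))
      (f := fun x u => okL (L x) (VK (L x) (a x) (b x) (p x) (q x)) u) (by fun_prop) (by fun_prop)
  have h2 : PolyF (fun x => (L x).all (fun w => cov (Umax (L x) (a x) (b x) (p x) (q x))
      (Vmax (L x) (a x) (b x) (p x) (q x)) w)) :=
    PolyF.all (l := L) (f := fun x w => cov (Umax (L x) (a x) (b x) (p x) (q x))
      (Vmax (L x) (a x) (b x) (p x) (q x)) w) hL (by fun_prop)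
  have h3 : PolyF (fun x => sat2 (kl1 (L x) (a x) (b x) (p x) (q x) ++
      kl2 (L x) (a x) (b x) (p x) (q x) ++ kl3 (L x) (a x) (b x) (p x) (q x) ++
      kl4 (L x) (a x) (b x) (p x) (q x))) :=
    PolyF.comp (f := fun T : List (((Bool × Wd) × Bool) × ((Bool × Wd) × Bool)) => sat2 T) hS
      (by fun_prop)
  fun_prop

end clauses

end PTF

theorem p_PTF (h1 : Stmt_PEL) (h2 : Stmt_PTK) (h3 : Stmt_PAN) (h4 : Stmt_PSA) : Stmt_PTF := by
  haveI : PTFh := ⟨h1, h2, h3⟩
  exact PTF_tryF (α := List Wd × ℕ × ℕ × ℕ × ℕ) (L := fun s => s.1) (a := fun s => s.2.1)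
    (b := fun s => s.2.2.1) (p := fun s => s.2.2.2.1) (q := fun s => s.2.2.2.2)
    (by fun_prop) (by fun_prop) (by fun_prop) (by fun_prop) (by fun_prop) (h4 (Bool × Wd))

end Pool.FD
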