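import Pool.Agent.Work.MP_e24068_dich.InterfaceP

/-! Block PTR: the first five tries are polynomial (helper7). -/

set_option autoImplicit false

namespace Pool.FD

open Pool.Agent.Work.TMLib Pool.Agent.Work.MP_e24068_lc

section

variable {α β γ : Type} [DE α] [DE β] [DE γ]

variable [Fact Stmt_PEL] [Fact Stmt_PTK] [Fact Stmt_PAN]

omit [DE α] [Fact Stmt_PTK] [Fact Stmt_PAN] in
theorem PTR_peq (α : Type) [DE α] [DecidableEq α] [PEq α] : PEq (List α) :=
  (Fact.out : Stmt_PEL) α

attribute [local instance] PTR_peq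

theorem PTR_take {n : α → ℕ} {l : α → List β} (hn : PolyF n) (hl : PolyF l) :
    PolyF (fun x => (l x).take (n x)) := (Fact.out : Stmt_PTK) α β n l hn hl

theorem PTR_any {l : α → List β} {f : α → β → Bool} (hl : PolyF l)
    (hf : PolyF (fun p : α × β => f p.1 p.2)) : PolyF (fun x => (l x).any (f x)) :=
  (Fact.out : Stmt_PAN) α β l f hl hf

attribute [local fun_prop] PTR_take

@[local fun_prop]
theorem PTR_mb {L : α → List Wd} {w : α → Wd} (hL : PolyF L) (hw : PolyF w) :
    PolyF (fun a => mb (L a) (w a)) := by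
  unfold mb
  exact PTR_any hL (f := fun a (u : Wd) => decide (u = w a)) (by fun_prop)

@[local fun_prop]
theorem PTR_pre {L : α → List Wd} {k : α → ℕ} (hL : PolyF L) (hk : PolyF k) :
    PolyF (fun a => pre (L a) (k a)) := by
  unfold pre
  refine PolyF.map (f := fun a (w : Wd) => w.take (k a)) ?_ (by fun_prop)
  exact PolyF.filter hL (f := fun a (w : Wd) => decide (k a ≤ w.length)) (by fun_prop)

@[local fun_prop]
theorem PTR_suf {L : α → List Wd} {k : α → ℕ} (hL : PolyF L) (hk : PolyF k) :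
    PolyF (fun a => suf (L a) (k a)) := by
  unfold suf
  refine PolyF.map (f := fun a (w : Wd) => w.drop (w.length - k a)) ?_ (by fun_prop)
  exact PolyF.filter hL (f := fun a (w : Wd) => decide (k a ≤ w.length)) (by fun_prop)

@[local fun_prop]
theorem PTR_len {L : α → List Wd} {k : α → ℕ} (hL : PolyF L) (hk : PolyF k) :
    PolyF (fun a => len (L a) (k a)) := by
  unfold len
  exact PolyF.filter hL (f := fun a (w : Wd) => decide (w.length = k a)) (by fun_prop)

@[local fun_prop]
theorem PTR_okR {L K : α → List Wd} {v : α → Wd} (hL : PolyF L) (hK : PolyF K)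
    (hv : PolyF v) : PolyF (fun a => okR (L a) (K a) (v a)) := by
  unfold okR
  exact PolyF.all hK (f := fun a (u : Wd) => mb (L a) (u ++ v a)) (by fun_prop)

@[local fun_prop]
theorem PTR_okL {L K : α → List Wd} {u : α → Wd} (hL : PolyF L) (hK : PolyF K)
    (hu : PolyF u) : PolyF (fun a => okL (L a) (K a) (u a)) := by
  unfold okL
  exact PolyF.all hK (f := fun a (v : Wd) => mb (L a) (u a ++ v)) (by fun_prop)

@[local fun_prop]
theorem PTR_cL {L K : α → List Wd} {k : α → ℕ} (hL : PolyF L) (hK : PolyF K)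
    (hk : PolyF k) : PolyF (fun a => cL (L a) (K a) (k a)) := by
  unfold cL
  exact PolyF.filter (f := fun a (u : Wd) => okL (L a) (K a) u) (by fun_prop) (by fun_prop)

@[local fun_prop]
theorem PTR_cR {L K : α → List Wd} {k : α → ℕ} (hL : PolyF L) (hK : PolyF K)
    (hk : PolyF k) : PolyF (fun a => cR (L a) (K a) (k a)) := by
  unfold cR
  exact PolyF.filter (f := fun a (v : Wd) => okR (L a) (K a) v) (by fun_prop) (by fun_prop)

@[local fun_prop]
theorem PTR_rv {L : α → List Wd} (hL : PolyF L) : PolyF (fun a => rv (L a)) := by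
  unfold rv
  exact PolyF.map hL (f := fun _ (w : Wd) => w.reverse) (by fun_prop)

theorem PTR_horn (h : Stmt_PHO) {L K : α → List Wd} {l : α → ℕ} (hL : PolyF L) (hK : PolyF K)
    (hl : PolyF l) : PolyF (fun a => horn (L a) (K a) (l a)) :=
  PolyF.comp (f := fun s : List Wd × List Wd × ℕ => horn s.1 s.2.1 s.2.2)
    (g := fun a => (L a, K a, l a)) h (by fun_prop)

theorem PTR_hornR (h : Stmt_PHO) {L K : α → List Wd} {l : α → ℕ} (hL : PolyF L) (hK : PolyF K)
    (hl : PolyF l) : PolyF (fun a => hornR (L a) (K a) (l a)) := by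
  unfold hornR
  exact PTR_horn h (by fun_prop) (by fun_prop) hl

@[local fun_prop]
theorem PTR_U0 {L : α → List Wd} {a b : α → ℕ} (hL : PolyF L) (ha : PolyF a) (hb : PolyF b) :
    PolyF (fun s => U0 (L s) (a s) (b s)) := by
  unfold U0
  fun_prop

@[local fun_prop]
theorem PTR_V0 {L : α → List Wd} {a b : α → ℕ} (hL : PolyF L) (ha : PolyF a) (hb : PolyF b) :
    PolyF (fun s => V0 (L s) (a s) (b s)) := by
  unfold V0
  fun_prop

@[local fun_prop]
theorem PTR_Ut {L : α → List Wd} {p q : α → ℕ} (hL : PolyF L) (hp : PolyF p) (hq : PolyF q) :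
    PolyF (fun s => Ut (L s) (p s) (q s)) := by
  unfold Ut
  fun_prop

@[local fun_prop]
theorem PTR_Vt {L : α → List Wd} {p q : α → ℕ} (hL : PolyF L) (hp : PolyF p) (hq : PolyF q) :
    PolyF (fun s => Vt (L s) (p s) (q s)) := by
  unfold Vt
  fun_prop

variable {L : α → List Wd} {a b p q : α → ℕ}

@[local fun_prop]
theorem PTR_V3 (hL : PolyF L) (ha : PolyF a) (hb : PolyF b) (hp : PolyF p) (hq : PolyF q) :
    PolyF (fun s => V3 (L s) (a s) (b s) (p s) (q s)) := by
  unfold V3
  fun_prop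

@[local fun_prop]
theorem PTR_VK (hL : PolyF L) (ha : PolyF a) (hb : PolyF b) (hp : PolyF p) (hq : PolyF q) :
    PolyF (fun s => VK (L s) (a s) (b s) (p s) (q s)) := by
  unfold VK
  fun_prop

@[local fun_prop]
theorem PTR_C1 (hL : PolyF L) (ha : PolyF a) (hb : PolyF b) (hp : PolyF p) (hq : PolyF q) :
    PolyF (fun s => C1 (L s) (a s) (b s) (p s) (q s)) := by
  unfold C1
  fun_prop

@[local fun_prop]
theorem PTR_C2 (hL : PolyF L) (ha : PolyF a) (hb : PolyF b) (hp : PolyF p) (hq : PolyF q) :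
    PolyF (fun s => C2 (L s) (a s) (b s) (p s) (q s)) := by
  unfold C2
  fun_prop

@[local fun_prop]
theorem PTR_D2 (hL : PolyF L) (ha : PolyF a) (hb : PolyF b) (hp : PolyF p) (hq : PolyF q) :
    PolyF (fun s => D2 (L s) (a s) (b s) (p s) (q s)) := by
  unfold D2
  fun_prop

@[local fun_prop]
theorem PTR_inX {x : α → Wd} (hL : PolyF L) (hp : PolyF p) (hq : PolyF q) (hx : PolyF x) :
    PolyF (fun s => inX (L s) (p s) (q s) (x s)) := by
  unfold inX
  exact PTR_any (f := fun s (v : Wd) => decide (v.take 1 = x s)) (by fun_prop) (by fun_prop)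

@[local fun_prop]
theorem PTR_gd {r : α → Wd} (hL : PolyF L) (ha : PolyF a) (hb : PolyF b) (hp : PolyF p)
    (hq : PolyF q) (hr : PolyF r) :
    PolyF (fun s => gd (L s) (a s) (b s) (p s) (q s) (r s)) := by
  unfold gd
  fun_prop

@[local fun_prop]
theorem PTR_G (hL : PolyF L) (ha : PolyF a) (hb : PolyF b) (hp : PolyF p) (hq : PolyF q) :
    PolyF (fun s => G (L s) (a s) (b s) (p s) (q s)) := by
  unfold G
  refine PolyF.append ?_ ?_
  · exact PolyF.filter (f := fun s (r : Wd) => gd (L s) (a s) (b s) (p s) (q s) r) (by fun_prop)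
      (by fun_prop)
  · exact PolyF.filter (f := fun s (u : Wd) => !(inX (L s) (p s) (q s) (u.drop (a s + 1))) ||
      !(mb (C1 (L s) (a s) (b s) (p s) (q s)) (u.take (a s + 1)))) (by fun_prop) (by fun_prop)

omit [Fact Stmt_PEL] [Fact Stmt_PTK] [Fact Stmt_PAN] in
theorem p_PTR (h1 : Stmt_PEL) (h2 : Stmt_PTK) (h3 : Stmt_PAN) (h4 : Stmt_PHO) : Stmt_PTR := by
  have _i1 : Fact Stmt_PEL := ⟨h1⟩
  have _i2 : Fact Stmt_PTK := ⟨h2⟩
  have _i3 : Fact Stmt_PAN := ⟨h3⟩
  unfold Stmt_PTR
  refine PolyF.or (PolyF.or (PolyF.or (PolyF.or ?_ ?_) ?_) ?_) ?_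
  · unfold tryA
    exact PTR_horn h4 (by fun_prop) (by fun_prop) (by fun_prop)
  · unfold tryB
    exact PTR_horn h4 (by fun_prop) (by fun_prop) (by fun_prop)
  · unfold tryC
    exact PTR_horn h4 (by fun_prop) (by fun_prop) (by fun_prop)
  · unfold tryD
    exact PTR_hornR h4 (by fun_prop) (by fun_prop) (by fun_prop)
  · unfold tryE
    exact PTR_hornR h4 (by fun_prop) (by fun_prop) (by fun_prop)

end

end Pool.FD
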