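import Pool.Agent.Work.MP_e24068_dich.InterfaceP

/-! # Factorization of finite languages: blocks REV and FRV (helper5) -/

set_option autoImplicit false

namespace Pool.FD

open Pool.Agent.Work.TMLib Pool.Agent.Work.MP_e24068_lc

theorem REV_mem_rv (L : List Wd) (w : Wd) : w ∈ rv L ↔ w.reverse ∈ L := by
  unfold rv
  rw [List.mem_map]
  constructor
  · rintro ⟨u, hu, rfl⟩
    rwa [List.reverse_reverse]
  · intro h
    exact ⟨_, h, List.reverse_reverse w⟩

theorem REV_fact (K : Language ℕ) (h : HasFactorization K) : HasFactorization K.reverse := by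
  obtain ⟨A, B, hA, hB, hK, hA1, hB1⟩ := h
  refine ⟨B.reverse, A.reverse, ?_, ?_, ?_, ?_, ?_⟩
  · exact hB.preimage (List.reverse_injective.injOn)
  · exact hA.preimage (List.reverse_injective.injOn)
  · rw [hK, Language.reverse_mul]
  · intro h
    apply hB1
    rw [← Language.reverse_reverse B, h, Language.reverse_one]
  · intro h
    apply hA1
    rw [← Language.reverse_reverse A, h, Language.reverse_one]

theorem REV_LW (L : List Wd) : LW (rv L) = (LW L).reverse := by
  ext w
  exact REV_mem_rv L w

theorem p_REV : Stmt_REV := by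
  intro L
  rw [REV_LW]
  constructor
  · intro h
    have h1 := REV_fact _ h
    rwa [Language.reverse_reverse] at h1
  · exact REV_fact _

theorem p_FRV : Stmt_FRV := by
  intro L U V a b p q h
  constructor
  · intro w
    rw [REV_mem_rv, h.fac]
    constructor
    · rintro ⟨u, hu, v, hv, huv⟩
      refine ⟨v.reverse, ?_, u.reverse, ?_, ?_⟩
      · change v.reverse.reverse ∈ V
        rwa [List.reverse_reverse]
      · change u.reverse.reverse ∈ U
        rwa [List.reverse_reverse]
      · rw [← List.reverse_append, huv, List.reverse_reverse]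
    · rintro ⟨v, hv, u, hu, rfl⟩
      exact ⟨u.reverse, hu, v.reverse, hv, by rw [List.reverse_append]⟩
  · intro u hu
    have h1 := h.vl _ hu
    rwa [List.length_reverse] at h1
  · intro v hv
    have h1 := h.ul _ hv
    rwa [List.length_reverse] at h1
  · obtain ⟨v, hv, h1⟩ := h.vb
    exact ⟨v.reverse, by change v.reverse.reverse ∈ V; rwa [List.reverse_reverse],
      by rwa [List.length_reverse]⟩
  · obtain ⟨v, hv, h1⟩ := h.vq
    exact ⟨v.reverse, by change v.reverse.reverse ∈ V; rwa [List.reverse_reverse],
      by rwa [List.length_reverse]⟩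
  · obtain ⟨v, hv, h1⟩ := h.ua
    exact ⟨v.reverse, by change v.reverse.reverse ∈ U; rwa [List.reverse_reverse],
      by rwa [List.length_reverse]⟩
  · obtain ⟨v, hv, h1⟩ := h.up
    exact ⟨v.reverse, by change v.reverse.reverse ∈ U; rwa [List.reverse_reverse],
      by rwa [List.length_reverse]⟩
  · obtain ⟨v, hv, h1⟩ := h.vn
    exact ⟨v.reverse, by change v.reverse.reverse ∈ V; rwa [List.reverse_reverse],
      by simpa using h1⟩
  · obtain ⟨v, hv, h1⟩ := h.un
    exact ⟨v.reverse, by change v.reverse.reverse ∈ U; rwa [List.reverse_reverse],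
      by simpa using h1⟩

end Pool.FD
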