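import Pool.Agent.Work.MP_e24068_dich.InterfaceP

/-! # Block SAC (helper28) -/

set_option autoImplicit false

namespace Pool.FD

theorem SAC_mc {V : Type} [DecidableEq V] {S : List ((V × Bool) × (V × Bool))}
    {c : (V × Bool) × (V × Bool)} : mc S c = true ↔ c ∈ S := by
  unfold mc
  rw [List.any_eq_true]
  constructor
  · rintro ⟨d, hd, h⟩
    rw [decide_eq_true_eq] at h
    rwa [← h]
  · intro h
    exact ⟨c, h, by simp⟩

theorem SAC_rs {V : Type} [DecidableEq V] {T S : List ((V × Bool) × (V × Bool))} {f : V → Bool}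
    (hT : ∀ c ∈ T, f c.1.1 = c.1.2 ∨ f c.2.1 = c.2.2)
    (hS : ∀ c ∈ S, f c.1.1 = c.1.2 ∨ f c.2.1 = c.2.2) :
    ∀ c ∈ rs T S, f c.1.1 = c.1.2 ∨ f c.2.1 = c.2.2 := by
  intro c hc
  unfold rs at hc
  rw [List.mem_filter] at hc
  have h := hc.2
  simp only [Bool.or_eq_true] at h
  rcases h with (((h | h) | h) | h) | h
  · exact hT c (SAC_mc.mp h)
  · exact (hT _ (SAC_mc.mp h)).symm
  · exact hS c (SAC_mc.mp h)
  · exact (hS _ (SAC_mc.mp h)).symm
  · rw [List.any_eq_true] at h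
    obtain ⟨m, _, hm⟩ := h
    rw [Bool.and_eq_true] at hm
    have h1 := hS _ (SAC_mc.mp hm.1)
    have h2 := hS _ (SAC_mc.mp hm.2)
    simp only [ng] at h1 h2
    rcases h1 with h1 | h1
    · exact Or.inl h1
    · rcases h2 with h2 | h2
      · rw [h1] at h2
        cases hb : m.2 <;> simp [hb] at h2
      · exact Or.inr h2

theorem SAC_it {V : Type} [DecidableEq V] {T : List ((V × Bool) × (V × Bool))} {f : V → Bool}
    (hT : ∀ c ∈ T, f c.1.1 = c.1.2 ∨ f c.2.1 = c.2.2) (n : ℕ) :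
    ∀ c ∈ (rs T)^[n] [], f c.1.1 = c.1.2 ∨ f c.2.1 = c.2.2 := by
  induction n with
  | zero => simp
  | succ n ih =>
    rw [Function.iterate_succ_apply']
    exact SAC_rs hT ih

theorem p_SAC : Stmt_SAC := by
  intro V _ T f hT
  unfold sat2
  rw [Bool.not_eq_true']
  by_contra h
  rw [Bool.not_eq_false, List.any_eq_true] at h
  obtain ⟨l, _, hl⟩ := h
  rw [Bool.and_eq_true] at hl
  have h1 := SAC_it hT _ _ (SAC_mc.mp hl.1)
  have h2 := SAC_it hT _ _ (SAC_mc.mp hl.2)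
  simp only [ng, or_self] at h1 h2
  rw [h1] at h2
  cases hb : l.2 <;> simp [hb] at h2

end Pool.FD
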