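import Pool.Agent.Work.MP_e24068_dich.InterfaceP

/-! # Block SAS: the 2-SAT solver accepts only satisfiable formulas (helper57) -/

set_option autoImplicit false

namespace Pool.FD

namespace SAS

/-- An increasing chain of finite sets which stays constant once it does not grow. -/
theorem stab {α : Type} [DecidableEq α] (F : ℕ → Finset α) (B : Finset α) (N : ℕ)
    (hB : B.card ≤ N) (hFB : ∀ n, F n ⊆ B) (hmono : ∀ n, F n ⊆ F (n + 1))
    (hst : ∀ n, F n = F (n + 1) → F (n + 1) = F (n + 2)) : F (N + 1) = F (N + 2) := by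
  by_contra hne
  have hall : ∀ n, n ≤ N + 1 → F n ≠ F (n + 1) := by
    intro n hn he
    apply hne
    have h1 : ∀ k, F (n + k) = F (n + k + 1) := by
      intro k
      induction k with
      | zero => exact he
      | succ k ih => exact hst _ ih
    obtain ⟨k, hk⟩ : ∃ k, N + 1 = n + k := ⟨N + 1 - n, by omega⟩
    have := h1 k
    rw [← hk] at this
    exact this
  have hcard : ∀ n, n ≤ N + 1 → n ≤ (F n).card := by
    intro n
    induction n with
    | zero => intro _; exact Nat.zero_le _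
    | succ n ih =>
      intro hn
      have h1 := ih (by omega)
      have h2 : (F n).card < (F (n + 1)).card :=
        Finset.card_lt_card ((hmono n).ssubset_of_ne (hall n (by omega)))
      omega
  have h3 := hcard (N + 1) le_rfl
  have h4 := Finset.card_le_card (hFB (N + 1))
  omega

variable {V : Type} [DecidableEq V]

theorem mc_iff (S : List ((V × Bool) × (V × Bool))) (c : (V × Bool) × (V × Bool)) :
    mc S c = true ↔ c ∈ S := by
  simp [mc]

theorem mem_prs (T : List ((V × Bool) × (V × Bool))) (c : (V × Bool) × (V × Bool)) :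
    c ∈ prs T ↔ c.1 ∈ lits T ∧ c.2 ∈ lits T := by
  unfold prs
  rw [List.mem_flatMap]
  constructor
  · rintro ⟨l, hl, hc⟩
    obtain ⟨l', hl', rfl⟩ := List.mem_map.1 hc
    exact ⟨hl, hl'⟩
  · rintro ⟨h1, h2⟩
    exact ⟨c.1, h1, List.mem_map.2 ⟨c.2, h2, rfl⟩⟩

theorem mem_rs (T S : List ((V × Bool) × (V × Bool))) (c : (V × Bool) × (V × Bool)) :
    c ∈ rs T S ↔ c ∈ prs T ∧ (c ∈ T ∨ (c.2, c.1) ∈ T ∨ c ∈ S ∨ (c.2, c.1) ∈ S ∨
      ∃ m ∈ lits T, (c.1, m) ∈ S ∧ (ng m, c.2) ∈ S) := by
  unfold rs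
  rw [List.mem_filter]
  simp only [Bool.or_eq_true, mc_iff, List.any_eq_true, Bool.and_eq_true, or_assoc]

theorem rs_mono (T S S' : List ((V × Bool) × (V × Bool))) (h : ∀ c, c ∈ S → c ∈ S')
    (c : (V × Bool) × (V × Bool)) (hc : c ∈ rs T S) : c ∈ rs T S' := by
  rw [mem_rs] at hc ⊢
  refine ⟨hc.1, ?_⟩
  rcases hc.2 with h1 | h1 | h1 | h1 | ⟨m, hm, h1, h2⟩
  · exact Or.inl h1
  · exact Or.inr (Or.inl h1)
  · exact Or.inr (Or.inr (Or.inl (h _ h1)))
  · exact Or.inr (Or.inr (Or.inr (Or.inl (h _ h1))))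
  · exact Or.inr (Or.inr (Or.inr (Or.inr ⟨m, hm, h _ h1, h _ h2⟩)))

/-- The closure is closed. -/
theorem cls_fix (T : List ((V × Bool) × (V × Bool))) (c : (V × Bool) × (V × Bool))
    (hc : c ∈ rs T (cls T)) : c ∈ cls T := by
  set S : ℕ → List ((V × Bool) × (V × Bool)) := fun n => (rs T)^[n] [] with hS
  have hsucc : ∀ n, S (n + 1) = rs T (S n) := fun n => Function.iterate_succ_apply' _ _ _
  have hmono : ∀ n c, c ∈ S n → c ∈ S (n + 1) := by
    intro n
    induction n with
    | zero => intro c hc; simp [hS] at hc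
    | succ n ih =>
      intro c hc
      rw [hsucc] at hc ⊢
      exact rs_mono T _ _ ih c hc
  have h1 := stab (fun n => (S n).toFinset) (prs T).toFinset (prs T).length
    (List.toFinset_card_le _)
    (by
      intro n x hx
      rw [List.mem_toFinset] at hx ⊢
      cases n with
      | zero => simp [hS] at hx
      | succ n => rw [hsucc] at hx; exact ((mem_rs _ _ _).1 hx).1)
    (by
      intro n x hx
      rw [List.mem_toFinset] at hx ⊢
      exact hmono n x hx)
    (by
      intro n hn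
      have h2 : ∀ c, c ∈ S n ↔ c ∈ S (n + 1) := by
        intro c
        have := congrArg (fun s => c ∈ s) hn
        simpa using this
      ext x
      rw [List.mem_toFinset, List.mem_toFinset, hsucc n, hsucc (n + 1)]
      exact ⟨rs_mono T _ _ (fun c => (h2 c).1) x, rs_mono T _ _ (fun c => (h2 c).2) x⟩)
  have h2 : c ∈ S ((prs T).length + 2) := by
    rw [hsucc]; exact hc
  have h3 : c ∈ (S ((prs T).length + 1)).toFinset := by
    have h4 : (S ((prs T).length + 1)).toFinset = (S ((prs T).length + 2)).toFinset := h1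
    rw [h4]
    exact List.mem_toFinset.2 h2
  exact List.mem_toFinset.1 h3

theorem cls_sub (T : List ((V × Bool) × (V × Bool))) (c : (V × Bool) × (V × Bool))
    (hc : c ∈ cls T) : c ∈ prs T := by
  unfold cls at hc
  rw [Function.iterate_succ_apply'] at hc
  exact ((mem_rs _ _ _).1 hc).1

theorem cls_symm (T : List ((V × Bool) × (V × Bool))) (x y : V × Bool)
    (h : (x, y) ∈ cls T) : (y, x) ∈ cls T := by
  apply cls_fix
  rw [mem_rs]
  have := (mem_prs T _).1 (cls_sub T _ h)
  exact ⟨(mem_prs T _).2 ⟨this.2, this.1⟩, Or.inr (Or.inr (Or.inr (Or.inl h)))⟩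

theorem cls_res (T : List ((V × Bool) × (V × Bool))) (x m y : V × Bool)
    (h : (x, m) ∈ cls T) (h' : (ng m, y) ∈ cls T) : (x, y) ∈ cls T := by
  apply cls_fix
  rw [mem_rs]
  have h1 := (mem_prs T _).1 (cls_sub T _ h)
  have h2 := (mem_prs T _).1 (cls_sub T _ h')
  exact ⟨(mem_prs T _).2 ⟨h1.1, h2.2⟩,
    Or.inr (Or.inr (Or.inr (Or.inr ⟨m, h1.2, h, h'⟩)))⟩

theorem cls_mem (T : List ((V × Bool) × (V × Bool))) (c : (V × Bool) × (V × Bool))
    (hc : c ∈ T) : c ∈ cls T := by
  apply cls_fix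
  rw [mem_rs, mem_prs]
  refine ⟨⟨?_, ?_⟩, Or.inl hc⟩
  · unfold lits
    rw [List.mem_flatMap]
    exact ⟨c, hc, by simp⟩
  · unfold lits
    rw [List.mem_flatMap]
    exact ⟨c, hc, by simp⟩

/-- One variable more. -/
theorem step (T : List ((V × Bool) × (V × Bool)))
    (hsat : ∀ l, (l, l) ∈ cls T → (ng l, ng l) ∉ cls T) (v : V) (L : List V) (f : V → Bool)
    (hf : ∀ x y, (x, y) ∈ cls T → x.1 ∈ L → y.1 ∈ L → f x.1 = x.2 ∨ f y.1 = y.2) :
    ∃ b : Bool, ∀ x y, (x, y) ∈ cls T → x.1 ∈ v :: L → y.1 ∈ v :: L →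
      Function.update f v b x.1 = x.2 ∨ Function.update f v b y.1 = y.2 := by
  by_contra hcon
  push Not at hcon
  have key : ∀ b : Bool, ((v, !b), (v, !b)) ∈ cls T ∨
      ∃ y : V × Bool, y.1 ∈ L ∧ f y.1 ≠ y.2 ∧ ((v, !b), y) ∈ cls T := by
    intro b
    obtain ⟨x, y, hxy, hx, hy, h1, h2⟩ := hcon b
    have hlit : ∀ z : V × Bool, z.1 = v → Function.update f v b z.1 ≠ z.2 → z = (v, !b) := by
      rintro ⟨z1, z2⟩ hz hne
      simp only at hz
      subst hz
      simp only [Function.update_self] at hne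
      have : z2 = !b := by
        cases b <;> cases z2 <;> simp_all
      rw [this]
    have hoth : ∀ z : V × Bool, z.1 ≠ v → z.1 ∈ v :: L → Function.update f v b z.1 ≠ z.2 →
        z.1 ∈ L ∧ f z.1 ≠ z.2 := by
      intro z hz hz' hne
      rw [Function.update_of_ne hz] at hne
      rcases List.mem_cons.1 hz' with h | h
      · exact absurd h hz
      · exact ⟨h, hne⟩
    by_cases hxv : x.1 = v
    · have hx' := hlit x hxv h1
      subst hx'
      by_cases hyv : y.1 = v
      · have hy' := hlit y hyv h2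
        subst hy'
        exact Or.inl hxy
      · obtain ⟨h3, h4⟩ := hoth y hyv hy h2
        exact Or.inr ⟨y, h3, h4, hxy⟩
    · obtain ⟨h3, h4⟩ := hoth x hxv hx h1
      by_cases hyv : y.1 = v
      · have hy' := hlit y hyv h2
        subst hy'
        exact Or.inr ⟨x, h3, h4, cls_symm T _ _ hxy⟩
      · obtain ⟨h5, h6⟩ := hoth y hyv hy h2
        rcases hf x y hxy h3 h5 with h | h
        · exact absurd h h4
        · exact absurd h h6
  have hT := key true
  have hF := key false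
  simp only [Bool.not_true, Bool.not_false] at hT hF
  have n1 : ng (v, true) = (v, false) := rfl
  have n2 : ng (v, false) = (v, true) := rfl
  rcases hT with hT | ⟨y, hy1, hy2, hT⟩ <;> rcases hF with hF | ⟨z, hz1, hz2, hF⟩
  · exact hsat (v, true) hF (by rw [n1]; exact hT)
  · -- (z, l), (ng l, ng l)
    have e1 : (z, (v, true)) ∈ cls T := cls_symm T _ _ hF
    have e2 : (z, (v, false)) ∈ cls T := cls_res T z (v, true) (v, false) e1 (by rw [n1]; exact hT)
    have e3 : (z, z) ∈ cls T :=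
      cls_res T z (v, true) z e1 (by rw [n1]; exact cls_symm T _ _ e2)
    rcases hf z z e3 hz1 hz1 with h | h <;> exact hz2 h
  · have e1 : (y, (v, false)) ∈ cls T := cls_symm T _ _ hT
    have e2 : (y, (v, true)) ∈ cls T := cls_res T y (v, false) (v, true) e1 (by rw [n2]; exact hF)
    have e3 : (y, y) ∈ cls T :=
      cls_res T y (v, false) y e1 (by rw [n2]; exact cls_symm T _ _ e2)
    rcases hf y y e3 hy1 hy1 with h | h <;> exact hy2 h
  · have e1 : (z, y) ∈ cls T :=
      cls_res T z (v, true) y (cls_symm T _ _ hF) (by rw [n1]; exact hT)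
    rcases hf z y e1 hz1 hy1 with h | h
    · exact hz2 h
    · exact hy2 h

end SAS

open SAS in
theorem p_SAS : Stmt_SAS := by
  intro V _ T hT
  have hsat : ∀ l, (l, l) ∈ cls T → (ng l, ng l) ∉ cls T := by
    intro l h1 h2
    have hl : l ∈ lits T := ((mem_prs T _).1 (cls_sub T _ h1)).1
    unfold sat2 at hT
    rw [Bool.not_eq_true', ← Bool.not_eq_true, List.any_eq_true] at hT
    exact hT ⟨l, hl, by rw [Bool.and_eq_true, mc_iff, mc_iff]; exact ⟨h1, h2⟩⟩
  have hall : ∀ L : List V, ∃ f : V → Bool, ∀ x y, (x, y) ∈ cls T → x.1 ∈ L → y.1 ∈ L →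
      f x.1 = x.2 ∨ f y.1 = y.2 := by
    intro L
    induction L with
    | nil => exact ⟨fun _ => true, fun x y _ hx => by simp at hx⟩
    | cons v L ih =>
      obtain ⟨f, hf⟩ := ih
      obtain ⟨b, hb⟩ := step T hsat v L f hf
      exact ⟨_, hb⟩
  obtain ⟨f, hf⟩ := hall ((lits T).map Prod.fst)
  refine ⟨f, fun c hc => ?_⟩
  have h1 := cls_mem T c hc
  have h2 := (mem_prs T _).1 (cls_sub T _ h1)
  exact hf c.1 c.2 h1 (List.mem_map.2 ⟨_, h2.1, rfl⟩) (List.mem_map.2 ⟨_, h2.2, rfl⟩)

end Pool.FD
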