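import Pool.Agent.Work.MP_e24068_dich.InterfaceP

/-!
# Block SOC: the algorithm accepts if there is a factorization
-/

set_option autoImplicit false

namespace Pool.FD

open Pool.Agent.Work.TMLib Pool.Agent.Work.MP_e24068_lc

theorem SOC_tries {L : List Wd} {a b p q : ℕ}
    (h : tryA L a b p q = true ∨ tryB L a b p q = true ∨ tryC L a b p q = true ∨
      tryD L a b p q = true ∨ tryE L a b p q = true ∨ tryF L a b p q = true) :
    tries L a b p q = true := by
  unfold tries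
  rcases h with h | h | h | h | h | h <;> simp [h]

theorem SOC_34 (hTV3 : Stmt_TV3) (hTC : Stmt_TC) (hTD : Stmt_TD) (hTE : Stmt_TE)
    (hTF : Stmt_TF) {L : List Wd} {U V : Set Wd} {a b : ℕ}
    (hF : Fac L U V a b (a + 3) (b + 4)) : tries L a b (a + 3) (b + 4) = true := by
  rcases hTV3 L U V a b hF with h | h3
  · exact SOC_tries (Or.inr (Or.inl h))
  · by_cases hC : ∀ u ∈ C2 L a b (a + 3) (b + 4), u ∈ U
    · exact SOC_tries (Or.inr (Or.inr (Or.inl (hTC L U V a b hF h3 hC))))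
    · by_cases hD : ∀ v ∈ D2 L a b (a + 3) (b + 4), v ∈ V
      · exact SOC_tries (Or.inr (Or.inr (Or.inr (Or.inl (hTD L U V a b hF h3 hD)))))
      · have hC' : ∃ u ∈ C2 L a b (a + 3) (b + 4), u ∉ U := by
          push Not at hC
          exact hC
        have hD' : ∃ v ∈ D2 L a b (a + 3) (b + 4), v ∉ V := by
          push Not at hD
          exact hD
        by_cases hG : ∀ r ∈ C1 L a b (a + 3) (b + 4), gd L a b (a + 3) (b + 4) r = true → r ∈ U
        · exact SOC_tries (Or.inr (Or.inr (Or.inr (Or.inr (Or.inl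
            (hTE L U V a b hF h3 hC' hD' hG))))))
        · have hG' : ∃ r ∈ C1 L a b (a + 3) (b + 4), gd L a b (a + 3) (b + 4) r = true ∧
              r ∉ U := by
            push Not at hG
            exact hG
          exact SOC_tries (Or.inr (Or.inr (Or.inr (Or.inr (Or.inr
            (hTF L U V a b hF h3 hC' hD' hG'))))))

theorem SOC_main (hTA : Stmt_TA) (hT33 : Stmt_T33) (hTV3 : Stmt_TV3) (hTC : Stmt_TC)
    (hTD : Stmt_TD) (hTE : Stmt_TE) (hTF : Stmt_TF) (hFRV : Stmt_FRV) {L : List Wd}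
    {U V : Set Wd} {a b p q : ℕ} (hF : Fac L U V a b p q) (h7 : p + q ≤ a + b + 7) :
    tries L a b p q = true ∨ tries (rv L) b a q p = true := by
  have hR := hFRV L U V a b p q hF
  by_cases hp : p ≤ a + 2
  · exact Or.inl (SOC_tries (Or.inl (hTA L U V a b p q hF hp)))
  · by_cases hq : q ≤ b + 2
    · exact Or.inr (SOC_tries (Or.inl (hTA (rv L) _ _ b a q p hR hq)))
    · have hcase : (p = a + 3 ∧ q = b + 3) ∨ (p = a + 3 ∧ q = b + 4) ∨
          (p = a + 4 ∧ q = b + 3) := by omega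
      rcases hcase with ⟨rfl, rfl⟩ | ⟨rfl, rfl⟩ | ⟨rfl, rfl⟩
      · rcases hT33 L U V a b hF with h | h
        · exact Or.inl (SOC_tries (Or.inr (Or.inl h)))
        · exact Or.inr (SOC_tries (Or.inr (Or.inl h)))
      · exact Or.inl (SOC_34 hTV3 hTC hTD hTE hTF hF)
      · exact Or.inr (SOC_34 hTV3 hTC hTD hTE hTF hR)

theorem SOC_mem {N a b p q : ℕ} (ha : a < N) (hb : b < N) (hp : p < N) (hq : q < N) :
    (a, b, p, q) ∈ quads N := by
  unfold quads
  rw [List.mem_flatMap]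
  refine ⟨a, List.mem_range.mpr ha, ?_⟩
  rw [List.mem_flatMap]
  refine ⟨b, List.mem_range.mpr hb, ?_⟩
  rw [List.mem_flatMap]
  refine ⟨p, List.mem_range.mpr hp, ?_⟩
  rw [List.mem_map]
  exact ⟨q, List.mem_range.mpr hq, rfl⟩

theorem p_SOC (hFEX : Stmt_FEX) (hTA : Stmt_TA) (hT33 : Stmt_T33) (hTV3 : Stmt_TV3)
    (hTC : Stmt_TC) (hTD : Stmt_TD) (hTE : Stmt_TE) (hTF : Stmt_TF) (hFRV : Stmt_FRV) :
    Stmt_SOC := by
  intro L hL hlen hfac
  obtain ⟨U, V, a, b, p, q, hF, h7, hap, hbq, hpq⟩ := hFEX L hL hlen hfac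
  unfold solve
  rw [List.any_eq_true]
  rcases SOC_main hTA hT33 hTV3 hTC hTD hTE hTF hFRV hF h7 with h | h
  · refine ⟨(a, b, p, q), SOC_mem (by omega) (by omega) (by omega) (by omega), ?_⟩
    simp [h]
  · refine ⟨(b, a, q, p), SOC_mem (by omega) (by omega) (by omega) (by omega), ?_⟩
    simp [h]

end Pool.FD
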