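import Pool.Agent.Work.MP_e24068_dich.InterfaceP

/-! # Block SOS: the algorithm is sound (helper87) -/

set_option autoImplicit false

namespace Pool.FD

open Pool.Agent.Work.TMLib Pool.Agent.Work.MP_e24068_lc

theorem p_SOS (hT : Stmt_TSO) (hR : Stmt_REV) : Stmt_SOS := by
  intro L hL h
  unfold solve at h
  obtain ⟨s, -, hs⟩ := List.any_eq_true.1 h
  rcases Bool.or_eq_true_iff.1 hs with h1 | h1
  · exact hT L _ _ _ _ hL h1
  · refine (hR L).1 (hT (rv L) _ _ _ _ ?_ h1)
    unfold rv
    simpa using hL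

end Pool.FD
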