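import Pool.Agent.Work.MP_e24068_dich.InterfaceP

set_option autoImplicit false

namespace Pool.FD

open Pool.Agent.Work.TMLib Pool.Agent.Work.MP_e24068_lc

theorem T33_mem_rv (L : List Wd) (w : Wd) : w ∈ rv L ↔ w.reverse ∈ L := by
  unfold rv
  rw [List.mem_map]
  constructor
  · rintro ⟨x, hx, rfl⟩
    rw [List.reverse_reverse]
    exact hx
  · intro h
    exact ⟨w.reverse, h, List.reverse_reverse w⟩

theorem p_T33 (h1 : Stmt_TOP) (h2 : Stmt_TB) (h3 : Stmt_FRV) (h4 : Stmt_LEV) (h5 : Stmt_CAM) :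
    Stmt_T33 := by
  intro L U V a b h
  by_contra hcon
  rw [not_or] at hcon
  obtain ⟨n1, n2⟩ := hcon
  have hr := h3 L U V a b (a + 3) (b + 3) h
  have g1 : ∃ u ∈ cL L (V0 L a b ++ Vt L (a + 3) (b + 3)) (a + 2), u ∉ U := by
    by_contra hg
    refine n1 (h2 L U V a b (b + 3) h fun u hu => ?_)
    by_contra hu'
    exact hg ⟨u, hu, hu'⟩
  have g2 : ∃ v ∈ cL (rv L) (V0 (rv L) b a ++ Vt (rv L) (b + 3) (a + 3)) (b + 2),
      v ∉ {w : Wd | w.reverse ∈ V} := by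
    by_contra hg
    refine n2 (h2 (rv L) _ _ b a (a + 3) hr fun u hu => ?_)
    by_contra hu'
    exact hg ⟨u, hu, hu'⟩
  obtain ⟨u, hu, hu'⟩ := g1
  obtain ⟨v, hv, hv'⟩ := g2
  have c1 := ((h5 L _ _).1 u).1 hu
  have c2 := ((h5 (rv L) _ _).1 v).1 hv
  have e1 := (h4 L U V a b (a + 3) (b + 3) h).2.2.2
  have e2 := (h4 (rv L) _ _ b a (b + 3) (a + 3) hr).2.2.2
  refine h1 L U V a b (a + 3) (b + 3) u v.reverse h (by rw [c1.1]) hu' ?_ ?_ ?_ ?_
  · intro v' hv'' hl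
    exact c1.2.2 v' (List.mem_append_right _ ((e1 v').2 ⟨hv'', hl⟩))
  · rw [List.length_reverse, c2.1]
  · exact hv'
  · intro u' hu'' hl
    have k1 : u'.reverse ∈ Vt (rv L) (b + 3) (a + 3) := by
      refine (e2 u'.reverse).2 ⟨?_, ?_⟩
      · rw [Set.mem_ofPred_eq, List.reverse_reverse]
        exact hu''
      · rw [List.length_reverse, hl]
    have k2 := c2.2.2 u'.reverse (List.mem_append_right _ k1)
    rw [T33_mem_rv, List.reverse_append, List.reverse_reverse] at k2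
    exact k2

end Pool.FD
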