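import Pool.Agent.Work.MP_e24068_dich.InterfaceP

/-! Blocks TA, TB (helper75). -/

set_option autoImplicit false

namespace Pool.FD

open Pool.Agent.Work.TMLib Pool.Agent.Work.MP_e24068_lc

theorem TAB_ne {L : List Wd} {U V : Set Wd} {a b p q : ℕ} (h : Fac L U V a b p q)
    (h2 : Stmt_LEV) : ∃ w ∈ Ut L p q, w ≠ [] := by
  obtain ⟨u, hu, hne⟩ := h.un
  obtain ⟨w, hw, hl⟩ := h.up
  refine ⟨w, ((h2 L U V a b p q h).2.2.1 w).2 ⟨hw, hl⟩, ?_⟩
  rintro rfl
  have h3 := (h.ul u hu).2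
  simp only [List.length_nil] at hl
  exact hne (List.length_eq_zero_iff.1 (by omega))

theorem p_TA (h1 : Stmt_HOC) (h2 : Stmt_LEV) (_h3 : Stmt_CAN) : Stmt_TA := by
  intro L U V a b p q h hp
  obtain ⟨l1, l2, l3, l4⟩ := h2 L U V a b p q h
  refine h1 L U V a b p q (U0 L a b ++ Ut L p q) (a + 1) h ?_ ?_ ?_
  · intro w hw
    rcases List.mem_append.1 hw with hw | hw
    · exact ((l1 w).1 hw).1
    · exact ((l3 w).1 hw).1
  · intro u hu
    have h3 := h.ul u hu
    by_cases h4 : u.length = a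
    · exact Or.inl (List.mem_append.2 (Or.inl ((l1 u).2 ⟨hu, h4⟩)))
    · by_cases h5 : u.length = a + 1
      · exact Or.inr h5
      · exact Or.inl (List.mem_append.2 (Or.inr ((l3 u).2 ⟨hu, by omega⟩)))
  · obtain ⟨w, hw, hne⟩ := TAB_ne h h2
    exact ⟨w, List.mem_append.2 (Or.inr hw), hne⟩

theorem p_TB (h1 : Stmt_HOC) (h2 : Stmt_LEV) (h3 : Stmt_CAN) : Stmt_TB := by
  intro L U V a b q h hc
  obtain ⟨l1, l2, l3, l4⟩ := h2 L U V a b (a + 3) q h
  refine h1 L U V a b (a + 3) q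
    (U0 L a b ++ cL L (V0 L a b ++ Vt L (a + 3) q) (a + 2) ++ Ut L (a + 3) q) (a + 1) h ?_ ?_ ?_
  · intro w hw
    rcases List.mem_append.1 hw with hw | hw
    · rcases List.mem_append.1 hw with hw | hw
      · exact ((l1 w).1 hw).1
      · exact hc w hw
    · exact ((l3 w).1 hw).1
  · intro u hu
    have h5 := h.ul u hu
    by_cases h4 : u.length = a
    · exact Or.inl (List.mem_append.2 (Or.inl (List.mem_append.2 (Or.inl ((l1 u).2 ⟨hu, h4⟩)))))
    · by_cases h6 : u.length = a + 1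
      · exact Or.inr h6
      · by_cases h7 : u.length = a + 2
        · refine Or.inl (List.mem_append.2 (Or.inl (List.mem_append.2 (Or.inr ?_))))
          refine (h3 L U V a b (a + 3) q (V0 L a b ++ Vt L (a + 3) q) (a + 2) h).1 ?_ u hu h7
          intro w hw
          rcases List.mem_append.1 hw with hw | hw
          · exact ((l2 w).1 hw).1
          · exact ((l4 w).1 hw).1
        · exact Or.inl (List.mem_append.2 (Or.inr ((l3 u).2 ⟨hu, by omega⟩)))
  · obtain ⟨w, hw, hne⟩ := TAB_ne h h2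
    exact ⟨w, List.mem_append.2 (Or.inr hw), hne⟩

end Pool.FD
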