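import Pool.Agent.Work.MP_e24068_dich.InterfaceP

set_option autoImplicit false

namespace Pool.FD

open Pool.Agent.Work.TMLib Pool.Agent.Work.MP_e24068_lc

theorem TCD_VK (h2 : Stmt_LEV) (L : List Wd) (U V : Set Wd) (a b : ℕ)
    (hF : Fac L U V a b (a + 3) (b + 4))
    (hV3 : ∀ w, w ∈ V3 L a b (a + 3) (b + 4) ↔ w ∈ V ∧ w.length = b + 3) :
    ∀ w ∈ VK L a b (a + 3) (b + 4), w ∈ V := by
  intro w hw
  unfold VK at hw
  rw [List.mem_append, List.mem_append] at hw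
  obtain ⟨-, l2, -, l4⟩ := h2 L U V a b _ _ hF
  rcases hw with (hw | hw) | hw
  · exact ((l2 w).1 hw).1
  · exact ((hV3 w).1 hw).1
  · exact ((l4 w).1 hw).1

theorem p_TC (h1 : Stmt_HOC) (h2 : Stmt_LEV) (h3 : Stmt_CAN) : Stmt_TC := by
  intro L U V a b hF hV3 hC2
  obtain ⟨l1, l2, l3, l4⟩ := h2 L U V a b _ _ hF
  unfold tryC
  refine h1 L U V a b _ _ _ _ hF ?_ ?_ ?_
  · intro w hw
    rw [List.mem_append, List.mem_append] at hw
    rcases hw with (hw | hw) | hw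
    · exact ((l1 w).1 hw).1
    · exact hC2 w hw
    · exact ((l3 w).1 hw).1
  · intro u hu
    rw [List.mem_append, List.mem_append]
    have h5 := hF.ul u hu
    have h6 : u.length = a ∨ u.length = a + 1 ∨ u.length = a + 2 ∨ u.length = a + 3 := by omega
    rcases h6 with h6 | h6 | h6 | h6
    · exact Or.inl (Or.inl (Or.inl ((l1 u).2 ⟨hu, h6⟩)))
    · exact Or.inr h6
    · exact Or.inl (Or.inl (Or.inr ((h3 L U V a b _ _ (VK L a b (a + 3) (b + 4)) (a + 2) hF).1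
        (TCD_VK h2 L U V a b hF hV3) u hu h6)))
    · exact Or.inl (Or.inr ((l3 u).2 ⟨hu, h6⟩))
  · obtain ⟨u, hu, hul⟩ := hF.up
    refine ⟨u, ?_, ?_⟩
    · rw [List.mem_append]
      exact Or.inr ((l3 u).2 ⟨hu, hul⟩)
    · rintro rfl
      simp at hul

theorem p_TD (h1 : Stmt_HOR) (h2 : Stmt_LEV) (h3 : Stmt_CAN) : Stmt_TD := by
  intro L U V a b hF hV3 hD2
  obtain ⟨l1, l2, l3, l4⟩ := h2 L U V a b _ _ hF
  unfold tryD
  refine h1 L U V a b _ _ _ _ hF ?_ ?_ ?_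
  · intro w hw
    rw [List.mem_append] at hw
    rcases hw with hw | hw
    · exact TCD_VK h2 L U V a b hF hV3 w hw
    · exact hD2 w hw
  · intro v hv
    rw [List.mem_append]
    have h5 := hF.vl v hv
    have h6 : v.length = b ∨ v.length = b + 1 ∨ v.length = b + 2 ∨ v.length = b + 3 ∨
      v.length = b + 4 := by omega
    unfold VK
    rw [List.mem_append, List.mem_append]
    rcases h6 with h6 | h6 | h6 | h6 | h6
    · exact Or.inl (Or.inl (Or.inl (Or.inl ((l2 v).2 ⟨hv, h6⟩))))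
    · exact Or.inr h6
    · refine Or.inl (Or.inr ((h3 L U V a b _ _ (U0 L a b ++ Ut L (a + 3) (b + 4)) (b + 2) hF).2
        ?_ v hv h6))
      intro w hw
      rw [List.mem_append] at hw
      rcases hw with hw | hw
      · exact ((l1 w).1 hw).1
      · exact ((l3 w).1 hw).1
    · exact Or.inl (Or.inl (Or.inl (Or.inr ((hV3 v).2 ⟨hv, h6⟩))))
    · exact Or.inl (Or.inl (Or.inr ((l4 v).2 ⟨hv, h6⟩)))
  · obtain ⟨v, hv, hvl⟩ := hF.vq
    refine ⟨v, ?_, ?_⟩
    · unfold VK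
      rw [List.mem_append, List.mem_append]
      exact Or.inl (Or.inr ((l4 v).2 ⟨hv, hvl⟩))
    · rintro rfl
      simp at hvl

end Pool.FD
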