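import Pool.Agent.Work.MP_e24068_dich.InterfaceP

/-!
Try E is complete.
-/

set_option autoImplicit false

namespace Pool.FD

open Pool.Agent.Work.TMLib Pool.Agent.Work.MP_e24068_lc

theorem TE_mb {L : List Wd} {w : Wd} : mb L w = true ↔ w ∈ L := by
  simp [mb]

theorem TE_inX {L : List Wd} {p q : ℕ} {x : Wd} :
    inX L p q x = true ↔ ∃ v ∈ Vt L p q, v.take 1 = x := by
  simp [inX]

theorem TE_VK (h3 : Stmt_LEV) {L : List Wd} {U V : Set Wd} {a b : ℕ}
    (hF : Fac L U V a b (a + 3) (b + 4))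
    (hV3 : ∀ w, w ∈ V3 L a b (a + 3) (b + 4) ↔ w ∈ V ∧ w.length = b + 3) :
    ∀ w, w ∈ VK L a b (a + 3) (b + 4) ↔
      w ∈ V ∧ (w.length = b ∨ w.length = b + 3 ∨ w.length = b + 4) := by
  obtain ⟨l1, l2, l3, l4⟩ := h3 L U V a b (a + 3) (b + 4) hF
  intro w
  simp only [VK, List.mem_append, l2, l4, hV3]
  tauto

theorem TE_one {w : Wd} {k : ℕ} (h : w.length = k + 1) : ∃ x, w.drop k = [x] ∧
    w = w.take k ++ [x] := by
  have h1 : (w.drop k).length = 1 := by simp [h]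
  obtain ⟨x, hx⟩ := List.length_eq_one_iff.1 h1
  exact ⟨x, hx, by rw [← hx]; simp⟩

theorem TE_G (h2 : Stmt_F2) (h3 : Stmt_LEV) (h5 : Stmt_CAM)
    {L : List Wd} {U V : Set Wd} {a b : ℕ}
    (hF : Fac L U V a b (a + 3) (b + 4))
    (hV3 : ∀ w, w ∈ V3 L a b (a + 3) (b + 4) ↔ w ∈ V ∧ w.length = b + 3)
    (hv : ∃ v ∈ D2 L a b (a + 3) (b + 4), v ∉ V) {u : Wd}
    (hu : u ∈ C2 L a b (a + 3) (b + 4)) (huU : u ∉ U) :
    u.take (a + 1) ∈ U ∧ inX L (a + 3) (b + 4) (u.drop (a + 1)) = true := by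
  obtain ⟨l1, l2, l3, l4⟩ := h3 L U V a b (a + 3) (b + 4) hF
  have hVK := TE_VK h3 hF hV3
  obtain ⟨v, hv, hvV⟩ := hv
  rw [C2, (h5 L _ _).1] at hu
  rw [D2, (h5 L _ _).2] at hv
  obtain ⟨w, hw, hwl⟩ := hF.vq
  obtain ⟨x, w', rfl⟩ : ∃ x w', w = x :: w' := by
    cases w with
    | nil => simp at hwl
    | cons x w' => exact ⟨x, w', rfl⟩
  have hw'l : w'.length = b + 3 := by simpa using hwl
  obtain ⟨c1, c2, c3⟩ := h2 L U V a b u v hF hu.1 huU
    (fun v' hv' hl => hu.2.2 v' ((hVK v').2 ⟨hv', by omega⟩)) hv.1 hvV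
    (fun u' hu' hl => hv.2.2 u' (List.mem_append_right _ ((l3 u').2 ⟨hu', hl⟩)))
    x w' hw'l hw
  refine ⟨c1, TE_inX.2 ⟨u.drop (a + 1) ++ x :: v, (l4 _).2 ⟨c2, ?_⟩, ?_⟩⟩
  · simp [hu.1, hv.1]
    omega
  · obtain ⟨y, hy, -⟩ := TE_one hu.1
    rw [hy]
    simp

theorem p_TE (h1 : Stmt_HOR) (h2 : Stmt_F2) (h3 : Stmt_LEV) (h4 : Stmt_CAN) (h5 : Stmt_CAM) :
    Stmt_TE := by
  intro L U V a b hF hV3 hu hv hG
  obtain ⟨l1, l2, l3, l4⟩ := h3 L U V a b (a + 3) (b + 4) hF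
  have hVK := TE_VK h3 hF hV3
  have hLG : ∀ w ∈ G L a b (a + 3) (b + 4), w ∈ U := by
    intro w hw
    rw [G, List.mem_append, List.mem_filter, List.mem_filter] at hw
    rcases hw with ⟨hw, hg⟩ | ⟨hw, hg⟩
    · exact hG w hw hg
    · by_contra hwU
      obtain ⟨c1, c2⟩ := TE_G h2 h3 h5 hF hV3 hv hw hwU
      have hw' := hw
      rw [C2, (h5 L _ _).1] at hw'
      have c3 : w.take (a + 1) ∈ C1 L a b (a + 3) (b + 4) :=
        (h4 L U V a b (a + 3) (b + 4) _ (a + 1) hF).1 (fun w hw => ((hVK w).1 hw).1) _ c1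
          (by simp [hw'.1])
      rw [c2, TE_mb.2 c3] at hg
      simp at hg
  set K2 := cR L (U0 L a b ++ Ut L (a + 3) (b + 4) ++ G L a b (a + 3) (b + 4)) (b + 2) with hK2
  obtain ⟨u₀, hu₀, hu₀U⟩ := hu
  have hu₀' := hu₀
  rw [C2, (h5 L _ _).1] at hu₀'
  -- the new words are compatible with the first factor
  have key : ∀ v ∈ K2, ∀ u ∈ U, u ++ v ∈ L := by
    intro v hv' u hu
    by_cases hvV : v ∈ V
    · exact (hF.fac _).2 ⟨u, hu, v, hvV, rfl⟩
    rw [hK2, (h5 L _ _).2] at hv'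
    have hX : ∀ x : Wd, inX L (a + 3) (b + 4) x = true → x ++ v ∈ V ∧ x.length = 1 := by
      intro x hx
      obtain ⟨w, hw, hwx⟩ := TE_inX.1 hx
      rw [l4] at hw
      obtain ⟨hw, hwl⟩ := hw
      obtain ⟨y, w', rfl⟩ : ∃ x w', w = x :: w' := by
        cases w with
        | nil => simp at hwl
        | cons x w' => exact ⟨x, w', rfl⟩
      obtain ⟨-, -, c3⟩ := h2 L U V a b u₀ v hF hu₀'.1 hu₀U
        (fun v' hv' hl => hu₀'.2.2 v' ((hVK v').2 ⟨hv', by omega⟩)) hv'.1 hvV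
        (fun u' hu' hl => hv'.2.2 u' (by
          simp only [List.mem_append]
          exact .inl (.inr ((l3 u').2 ⟨hu', hl⟩))))
        y w' (by simpa using hwl) hw
      rw [← hwx]
      exact ⟨by simpa using c3, by simp⟩
    have hin : ∀ w, (w ∈ U0 L a b ∨ w ∈ Ut L (a + 3) (b + 4) ∨ w ∈ G L a b (a + 3) (b + 4)) →
        w ++ v ∈ L := by
      intro w hw
      apply hv'.2.2 w
      simp only [List.mem_append]
      tauto
    obtain ⟨hl1, hl2⟩ := hF.ul u hu
    obtain hl | hl | hl | hl : u.length = a ∨ u.length = a + 1 ∨ u.length = a + 2 ∨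
      u.length = a + 3 := by omega
    · exact hin u (.inl ((l1 u).2 ⟨hu, hl⟩))
    · have huC : u ∈ C1 L a b (a + 3) (b + 4) :=
        (h4 L U V a b (a + 3) (b + 4) _ (a + 1) hF).1 (fun w hw => ((hVK w).1 hw).1) _ hu hl
      by_cases hg : gd L a b (a + 3) (b + 4) u = true
      · refine hin u (.inr (.inr ?_))
        rw [G, List.mem_append, List.mem_filter]
        exact .inl ⟨huC, hg⟩
      · simp only [gd, Bool.or_eq_true, Bool.not_eq_true', not_or, Bool.not_eq_false] at hg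
        obtain ⟨g1, g2⟩ := hg
        rw [TE_mb, l1] at g1
        have h6 : u ++ v = u.take a ++ (u.drop a ++ v) := by
          rw [← List.append_assoc, List.take_append_drop]
        rw [h6]
        exact (hF.fac _).2 ⟨_, g1.1, _, (hX _ g2).1, rfl⟩
    · have huC : u ∈ C2 L a b (a + 3) (b + 4) :=
        (h4 L U V a b (a + 3) (b + 4) _ (a + 2) hF).1 (fun w hw => ((hVK w).1 hw).1) _ hu hl
      by_cases hg : (!(inX L (a + 3) (b + 4) (u.drop (a + 1))) ||
          !(mb (C1 L a b (a + 3) (b + 4)) (u.take (a + 1)))) = true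
      · refine hin u (.inr (.inr ?_))
        rw [G, List.mem_append, List.mem_filter, List.mem_filter]
        exact .inr ⟨huC, hg⟩
      · simp only [Bool.or_eq_true, Bool.not_eq_true', not_or, Bool.not_eq_false] at hg
        obtain ⟨g1, g2⟩ := hg
        rw [TE_mb, C1, (h5 L _ _).1] at g2
        have h6 : u ++ v = u.take (a + 1) ++ (u.drop (a + 1) ++ v) := by
          rw [← List.append_assoc, List.take_append_drop]
        rw [h6]
        obtain ⟨e1, e2⟩ := hX _ g1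
        refine g2.2.2 _ ((hVK _).2 ⟨e1, ?_⟩)
        rw [List.length_append, e2, hv'.1]
        omega
    · exact hin u (.inr (.inl ((l3 u).2 ⟨hu, hl⟩)))
  have hF' : Fac L U (V ∪ {w | w ∈ K2}) a b (a + 3) (b + 4) := by
    refine ⟨?_, hF.ul, ?_, hF.ua, hF.up, ?_, ?_, hF.un, ?_⟩
    · intro w
      constructor
      · intro hw
        obtain ⟨u, hu, v, hv, rfl⟩ := (hF.fac w).1 hw
        exact ⟨u, hu, v, .inl hv, rfl⟩
      · rintro ⟨u, hu, v, hv | hv, rfl⟩
        · exact (hF.fac _).2 ⟨u, hu, v, hv, rfl⟩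
        · exact key v hv u hu
    · rintro v (hv | hv)
      · exact hF.vl v hv
      · have : v ∈ K2 := hv
        rw [hK2, (h5 L _ _).2] at this
        omega
    · obtain ⟨v, hv, hl⟩ := hF.vb
      exact ⟨v, .inl hv, hl⟩
    · obtain ⟨v, hv, hl⟩ := hF.vq
      exact ⟨v, .inl hv, hl⟩
    · obtain ⟨v, hv, hl⟩ := hF.vn
      exact ⟨v, .inl hv, hl⟩
  refine h1 L U (V ∪ {w | w ∈ K2}) a b (a + 3) (b + 4) _ (b + 1) hF' ?_ ?_ ?_
  · intro w hw
    rw [List.mem_append] at hw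
    rcases hw with hw | hw
    · exact .inl ((hVK w).1 hw).1
    · exact .inr hw
  · rintro v (hv | hv)
    · obtain ⟨hl1, hl2⟩ := hF.vl v hv
      rw [List.mem_append, hVK]
      by_cases hl : v.length = b + 1
      · exact .inr hl
      by_cases hl' : v.length = b + 2
      · left; right
        refine (h4 L U V a b (a + 3) (b + 4) _ (b + 2) hF).2 ?_ v hv hl'
        intro w hw
        simp only [List.mem_append] at hw
        rcases hw with (hw | hw) | hw
        · exact ((l1 w).1 hw).1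
        · exact ((l3 w).1 hw).1
        · exact hLG w hw
      · left; left
        exact ⟨hv, by omega⟩
    · left
      rw [List.mem_append]
      exact .inr hv
  · obtain ⟨v, hv, hl⟩ := hF.vq
    refine ⟨v, ?_, ?_⟩
    · rw [List.mem_append, hVK]
      exact .inl ⟨hv, by omega⟩
    · rintro rfl
      simp at hl

end Pool.FD
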