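import Pool.Agent.Work.MP_e24068_dich.InterfaceP

/-! Block TF (helper75). -/

set_option autoImplicit false

namespace Pool.FD

open Pool.Agent.Work.TMLib Pool.Agent.Work.MP_e24068_lc

theorem TF_mb (L : List Wd) (w : Wd) : mb L w = true ↔ w ∈ L := by
  simp [mb]

theorem TF_cov (U V : List Wd) (w : Wd) : cov U V w = true ↔ ∃ u ∈ U, ∃ v ∈ V, u ++ v = w := by
  simp [cov]

open scoped Classical in
theorem p_TF (h1 : Stmt_F2) (h2 : Stmt_F3) (h3 : Stmt_LEV) (h4 : Stmt_CAN) (h5 : Stmt_CAM)
    (h6 : Stmt_SAC) : Stmt_TF := by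
  intro L U V a b h hV3 ⟨u₁, hu₁, hu₁n⟩ ⟨v₁, hv₁, hv₁n⟩ ⟨r, hr, hgd, hrn⟩
  obtain ⟨l1, l2, l3, l4⟩ := h3 L U V a b (a + 3) (b + 4) h
  have hVK : ∀ w ∈ VK L a b (a + 3) (b + 4), w ∈ V := by
    intro w hw
    rcases List.mem_append.1 hw with hw | hw
    · rcases List.mem_append.1 hw with hw | hw
      · exact ((l2 w).1 hw).1
      · exact ((hV3 w).1 hw).1
    · exact ((l4 w).1 hw).1
  have hUK : ∀ w ∈ U0 L a b ++ Ut L (a + 3) (b + 4), w ∈ U := by
    intro w hw
    rcases List.mem_append.1 hw with hw | hw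
    · exact ((l1 w).1 hw).1
    · exact ((l3 w).1 hw).1
  have hL : ∀ u ∈ U, ∀ v ∈ V, u ++ v ∈ L := fun u hu v hv => (h.fac _).2 ⟨u, hu, v, hv, rfl⟩
  -- the words of the factors are candidates
  have hUmax : ∀ u ∈ U, u ∈ Umax L a b (a + 3) (b + 4) := by
    intro u hu
    have h7 := h.ul u hu
    have hcan := fun k hk => (h4 L U V a b (a + 3) (b + 4) (VK L a b (a + 3) (b + 4)) k h).1 hVK u
      hu hk
    unfold Umax C1 C2
    simp only [List.mem_append]
    by_cases e0 : u.length = a
    · exact Or.inl (Or.inl ((l1 u).2 ⟨hu, e0⟩))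
    · by_cases e1 : u.length = a + 1
      · exact Or.inr (Or.inl (hcan _ e1))
      · by_cases e2 : u.length = a + 2
        · exact Or.inr (Or.inr (hcan _ e2))
        · exact Or.inl (Or.inr ((l3 u).2 ⟨hu, by omega⟩))
  have hVmax : ∀ v ∈ V, v ∈ Vmax L a b (a + 3) (b + 4) := by
    intro v hv
    have h7 := h.vl v hv
    have hcan := fun k hk => (h4 L U V a b (a + 3) (b + 4)
      (U0 L a b ++ Ut L (a + 3) (b + 4)) k h).2 hUK v hv hk
    unfold Vmax VK D1 D2
    simp only [List.mem_append]
    by_cases e0 : v.length = b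
    · exact Or.inl (Or.inl (Or.inl ((l2 v).2 ⟨hv, e0⟩)))
    · by_cases e1 : v.length = b + 1
      · exact Or.inr (Or.inl (hcan _ e1))
      · by_cases e2 : v.length = b + 2
        · exact Or.inr (Or.inr (hcan _ e2))
        · by_cases e3 : v.length = b + 3
          · exact Or.inl (Or.inl (Or.inr ((hV3 v).2 ⟨hv, e3⟩)))
          · exact Or.inl (Or.inr ((l4 v).2 ⟨hv, by omega⟩))
  -- the words of level `2`
  have hC2 : ∀ u ∈ C2 L a b (a + 3) (b + 4), u.length = a + 2 ∧
      ∀ v' ∈ V, v'.length = b + 4 → u ++ v' ∈ L := by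
    intro u hu
    obtain ⟨c1, _, c3⟩ := ((h5 L (VK L a b (a + 3) (b + 4)) (a + 2)).1 u).1 hu
    refine ⟨c1, fun v' hv' hl => c3 v' ?_⟩
    exact List.mem_append.2 (Or.inr ((l4 v').2 ⟨hv', hl⟩))
  have hC1 : ∀ u ∈ C1 L a b (a + 3) (b + 4), u.length = a + 1 ∧
      ∀ v' ∈ V, v'.length = b + 3 → u ++ v' ∈ L := by
    intro u hu
    obtain ⟨c1, _, c3⟩ := ((h5 L (VK L a b (a + 3) (b + 4)) (a + 1)).1 u).1 hu
    refine ⟨c1, fun v' hv' hl => c3 v' ?_⟩
    exact List.mem_append.2 (Or.inl (List.mem_append.2 (Or.inr ((hV3 v').2 ⟨hv', hl⟩))))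
  have hD2 : ∀ v ∈ D2 L a b (a + 3) (b + 4), v.length = b + 2 ∧
      ∀ u' ∈ U, u'.length = a + 3 → u' ++ v ∈ L := by
    intro v hv
    obtain ⟨c1, _, c3⟩ := ((h5 L (U0 L a b ++ Ut L (a + 3) (b + 4)) (b + 2)).2 v).1 hv
    refine ⟨c1, fun u' hu' hl => c3 u' ?_⟩
    exact List.mem_append.2 (Or.inr ((l3 u').2 ⟨hu', hl⟩))
  -- a word of the top level
  obtain ⟨vt, hvt, hvtl⟩ := h.vq
  obtain ⟨x, v', hxv⟩ : ∃ (x : ℕ) (v' : Wd), vt = x :: v' := by
    cases vt with
    | nil => simp at hvtl
    | cons x v' => exact ⟨x, v', rfl⟩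
  subst hxv
  have hv'l : v'.length = b + 3 := by simpa using hvtl
  have hUt : Ut L (a + 3) (b + 4) ≠ [] := by
    obtain ⟨w, hw, hl⟩ := h.up
    exact List.ne_nil_of_mem ((l3 w).2 ⟨hw, hl⟩)
  have hVt : Vt L (a + 3) (b + 4) ≠ [] := List.ne_nil_of_mem ((l4 _).2 ⟨hvt, hvtl⟩)
  -- the condition on `r`
  have hr1 := hC1 r hr
  have hgd' : r.take a ∉ U ∨ ∀ v' : Wd, v'.length = b + 3 → r.drop a ++ v' ∉ V := by
    unfold gd at hgd
    simp only [Bool.or_eq_true, Bool.not_eq_true', Bool.eq_false_iff, ne_eq] at hgd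
    rcases hgd with hgd | hgd
    · left
      intro hc
      apply hgd
      rw [TF_mb, l1]
      exact ⟨hc, by rw [List.length_take]; omega⟩
    · right
      intro w hw hc
      apply hgd
      have hd : (r.drop a).length = 1 := by rw [List.length_drop]; omega
      unfold inX
      rw [List.any_eq_true]
      refine ⟨r.drop a ++ w, (l4 _).2 ⟨hc, by rw [List.length_append]; omega⟩, ?_⟩
      rw [decide_eq_true_eq]
      rw [← hd, List.take_left]
  unfold tryF
  simp only [Bool.and_eq_true, decide_eq_true_eq, true_and, Bool.not_eq_true']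
  refine ⟨⟨⟨⟨?_, ?_⟩, ?_⟩, ?_⟩, ?_⟩
  · rw [List.all_eq_true]
    intro u hu
    unfold okL
    rw [List.all_eq_true]
    intro v hv
    rw [TF_mb]
    exact hL u (hUK u hu) v (hVK v hv)
  · rw [List.all_eq_true]
    intro w hw
    rw [TF_cov]
    obtain ⟨u, hu, v, hv, e⟩ := (h.fac w).1 hw
    exact ⟨u, hUmax u hu, v, hVmax v hv, e⟩
  · rw [List.isEmpty_eq_false_iff]
    exact hUt
  · rw [List.isEmpty_eq_false_iff]
    exact hVt
  · refine h6 (Bool × Wd) _
      (fun x => if x.1 = true then decide (x.2 ∈ V) else decide (x.2 ∈ U)) ?_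
    intro c hc
    rcases List.mem_append.1 hc with hc | hc
    · rcases List.mem_append.1 hc with hc | hc
      · rcases List.mem_append.1 hc with hc | hc
        · -- kl1
          unfold kl1 at hc
          rw [List.mem_flatMap] at hc
          obtain ⟨x, hx, hc⟩ := hc
          rw [List.mem_map] at hc
          obtain ⟨y, hy, rfl⟩ := hc
          rw [List.mem_filter, List.any_eq_true] at hy
          obtain ⟨hy, w, hw, hcov⟩ := hy
          by_contra hcon
          push Not at hcon
          obtain ⟨hx', hy'⟩ := hcon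
          simp only [ne_eq, Bool.not_eq_true] at hx' hy'
          rw [Bool.not_eq_true', Bool.eq_false_iff] at hcov
          apply hcov
          rw [TF_cov]
          obtain ⟨u, hu, v, hv, e⟩ := (h.fac w).1 hw
          refine ⟨u, ?_, v, ?_, e⟩
          · unfold rm
            rw [List.mem_filter]
            refine ⟨hUmax u hu, ?_⟩
            simp only [Bool.not_eq_true', Bool.or_eq_false_iff, decide_eq_false_iff_not]
            constructor
            · rintro rfl
              simp [hu] at hx'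
            · rintro rfl
              simp [hu] at hy'
          · unfold rm
            rw [List.mem_filter]
            refine ⟨hVmax v hv, ?_⟩
            simp only [Bool.not_eq_true', Bool.or_eq_false_iff, decide_eq_false_iff_not]
            constructor
            · rintro rfl
              simp [hv] at hx'
            · rintro rfl
              simp [hv] at hy'
        · -- kl2
          unfold kl2 at hc
          rw [List.mem_flatMap] at hc
          obtain ⟨u, hu, hc⟩ := hc
          rw [List.mem_map] at hc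
          obtain ⟨v, hv, rfl⟩ := hc
          rw [List.mem_filter, Bool.not_eq_true', Bool.eq_false_iff, ne_eq, TF_mb] at hv
          by_contra hcon
          push Not at hcon
          obtain ⟨hx', hy'⟩ := hcon
          simp only [Bool.false_eq_true, if_false, if_true, ne_eq, Bool.not_eq_false,
            decide_eq_true_eq] at hx' hy'
          exact hv.2 (hL u hx' v hy')
      · -- kl3
        unfold kl3 at hc
        rw [List.mem_map] at hc
        obtain ⟨u, hu, rfl⟩ := hc
        rw [List.mem_filter] at hu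
        simp only [Bool.false_eq_true, if_false, decide_eq_true_eq]
        by_cases hc : u ∈ U
        · exact Or.inr hc
        · left
          exact (h1 L U V a b u v₁ h (hC2 u hu.1).1 hc (hC2 u hu.1).2 (hD2 v₁ hv₁).1 hv₁n
            (hD2 v₁ hv₁).2 x v' hv'l hvt).1
    · -- kl4
      unfold kl4 at hc
      rw [List.mem_map] at hc
      obtain ⟨v, hv, rfl⟩ := hc
      rw [List.mem_filter] at hv
      simp only [if_true, decide_eq_true_eq]
      by_cases hc : v ∈ V
      · exact Or.inr hc
      · left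
        exact h2 L U V a b u₁ v r h (hC2 u₁ hu₁).1 hu₁n (hC2 u₁ hu₁).2 (hD2 v hv.1).1 hc
          (hD2 v hv.1).2 hr1.1 hrn hr1.2 hgd'

end Pool.FD
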