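import Pool.Agent.Work.MP_e24068_dich.InterfaceP

/-!
Try F is sound.
-/

set_option autoImplicit false

namespace Pool.FD

open Pool.Agent.Work.TMLib Pool.Agent.Work.MP_e24068_lc

theorem TFS_mb {L : List Wd} {w : Wd} : mb L w = true ↔ w ∈ L := by
  simp [mb]

theorem TFS_cov {U V : List Wd} {w : Wd} : cov U V w = true ↔ ∃ u ∈ U, ∃ v ∈ V, u ++ v = w := by
  simp [cov]

theorem TFS_okL {L K : List Wd} {u : Wd} : okL L K u = true ↔ ∀ v ∈ K, u ++ v ∈ L := by
  simp [okL, TFS_mb]

theorem TFS_rm {s : Bool} {x y : Bool × Wd} {A : List Wd} {u : Wd} :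
    u ∈ rm s x y A ↔ u ∈ A ∧ x ≠ (s, u) ∧ y ≠ (s, u) := by
  simp [rm]

/-- The four unknown words. -/
def TFS_zz (a b : ℕ) (w : Wd) : Fin 4 → Bool × Wd :=
  ![(false, w.take (a + 1)), (false, w.take (a + 2)), (true, w.drop (w.length - (b + 2))),
    (true, w.drop (w.length - (b + 1)))]

theorem p_TFS (h1 : Stmt_SAS) (h2 : Stmt_CAM) : Stmt_TFS := by
  intro L a b p q hL hF
  simp only [tryF, Bool.and_eq_true, decide_eq_true_eq, Bool.not_eq_true',
    List.isEmpty_eq_false_iff, List.all_eq_true] at hF
  obtain ⟨⟨⟨⟨⟨⟨rfl, rfl⟩, hK⟩, hcov⟩, hUt⟩, hVt⟩, hsat⟩ := hF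
  obtain ⟨f, hf⟩ := h1 _ _ hsat
  set p := a + 3 with hp
  set q := b + 4 with hq
  have hC1 : ∀ u, u ∈ C1 L a b p q ↔ _ := (h2 L (VK L a b p q) (a + 1)).1
  have hC2 : ∀ u, u ∈ C2 L a b p q ↔ _ := (h2 L (VK L a b p q) (a + 2)).1
  have hD1 : ∀ u, u ∈ D1 L a b p q ↔ _ := (h2 L (U0 L a b ++ Ut L p q) (b + 1)).2
  have hD2 : ∀ u, u ∈ D2 L a b p q ↔ _ := (h2 L (U0 L a b ++ Ut L p q) (b + 2)).2
  -- the clauses
  have hk1 : ∀ x ∈ vars L a b p q, ∀ y ∈ vars L a b p q, ∀ w ∈ L,
      cov (rm false x y (Umax L a b p q)) (rm true x y (Vmax L a b p q)) w = false →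
      f x = true ∨ f y = true := by
    intro x hx y hy w hw hc
    refine hf ((x, true), (y, true)) ?_
    refine List.mem_append_left _ (List.mem_append_left _ (List.mem_append_left _ ?_))
    rw [kl1, List.mem_flatMap]
    refine ⟨x, hx, List.mem_map.2 ⟨y, List.mem_filter.2 ⟨hy, ?_⟩, rfl⟩⟩
    rw [List.any_eq_true]
    exact ⟨w, hw, by simp [hc]⟩
  have hk2 : ∀ u ∈ C1 L a b p q ++ C2 L a b p q, ∀ v ∈ D1 L a b p q ++ D2 L a b p q,
      u ++ v ∉ L → f (false, u) = false ∨ f (true, v) = false := by
    intro u hu v hv huv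
    refine hf (((false, u), false), ((true, v), false)) ?_
    refine List.mem_append_left _ (List.mem_append_left _ (List.mem_append_right _ ?_))
    rw [kl2, List.mem_flatMap]
    refine ⟨u, hu, List.mem_map.2 ⟨v, List.mem_filter.2 ⟨hv, ?_⟩, rfl⟩⟩
    rw [Bool.not_eq_true', ← Bool.not_eq_true, TFS_mb]
    exact huv
  have hk3 : ∀ u ∈ C2 L a b p q, u.take (a + 1) ∈ C1 L a b p q →
      f (false, u.take (a + 1)) = true ∨ f (false, u) = true := by
    intro u hu hu'
    refine hf (((false, u.take (a + 1)), true), ((false, u), true)) ?_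
    refine List.mem_append_left _ (List.mem_append_right _ ?_)
    rw [kl3]
    exact List.mem_map.2 ⟨u, List.mem_filter.2 ⟨hu, TFS_mb.2 hu'⟩, rfl⟩
  have hk4 : ∀ v ∈ D2 L a b p q, v.drop 1 ∈ D1 L a b p q →
      f (true, v.drop 1) = true ∨ f (true, v) = true := by
    intro u hu hu'
    refine hf (((true, u.drop 1), true), ((true, u), true)) ?_
    refine List.mem_append_right _ ?_
    rw [kl4]
    exact List.mem_map.2 ⟨u, List.mem_filter.2 ⟨hu, TFS_mb.2 hu'⟩, rfl⟩
  clear hf hsat
  -- the factors
  set U : Language ℕ := {u | u ∈ U0 L a b ++ Ut L p q ∨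
    (u ∈ C1 L a b p q ++ C2 L a b p q ∧ f (false, u) = true)} with hU
  set V : Language ℕ := {v | v ∈ VK L a b p q ∨
    (v ∈ D1 L a b p q ++ D2 L a b p q ∧ f (true, v) = true)} with hV
  have hUm : ∀ u, u ∈ U ↔ (u ∈ U0 L a b ++ Ut L p q ∨
    (u ∈ C1 L a b p q ++ C2 L a b p q ∧ f (false, u) = true)) := fun u => Iff.rfl
  have hVm : ∀ u, u ∈ V ↔ (u ∈ VK L a b p q ∨
    (u ∈ D1 L a b p q ++ D2 L a b p q ∧ f (true, u) = true)) := fun u => Iff.rfl
  have hsub : ∀ u ∈ U, ∀ v ∈ V, u ++ v ∈ L := by
    intro u hu v hv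
    rw [hUm] at hu
    rw [hVm] at hv
    rcases hu with hu | ⟨hu, hfu⟩
    · rcases hv with hv | ⟨hv, hfv⟩
      · exact TFS_okL.1 (hK u hu) v hv
      · rw [List.mem_append, hD1, hD2] at hv
        rcases hv with hv | hv
        · exact hv.2.2 u hu
        · exact hv.2.2 u hu
    · rcases hv with hv | ⟨hv, hfv⟩
      · rw [List.mem_append, hC1, hC2] at hu
        rcases hu with hu | hu
        · exact hu.2.2 v hv
        · exact hu.2.2 v hv
      · by_contra hcon
        rcases hk2 u hu v hv hcon with h | h
        · rw [hfu] at h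
          exact absurd h (by simp)
        · rw [hfv] at h
          exact absurd h (by simp)
  have hsup : ∀ w ∈ L, ∃ u ∈ U, ∃ v ∈ V, u ++ v = w := by
    intro w hw
    by_contra hno
    push Not at hno
    set zz := TFS_zz a b w with hzz
    set Z : Fin 4 → Prop := ![w.take (a + 1) ∈ C1 L a b p q, w.take (a + 2) ∈ C2 L a b p q,
      w.drop (w.length - (b + 2)) ∈ D2 L a b p q, w.drop (w.length - (b + 1)) ∈ D1 L a b p q]
      with hZ
    have step : ∀ u v, u ∈ Umax L a b p q → v ∈ Vmax L a b p q → u ++ v = w →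
        (∃ i : Fin 4, Z i ∧ f (zz i) = false ∧ (zz i = (false, u) ∨ zz i = (true, v))) := by
      intro u v hu hv huv
      have h3 := hno u
      by_cases hu' : u ∈ U
      · have h4 : v ∉ V := fun hv' => hno u hu' v hv' huv
        rw [hVm] at h4
        rw [Vmax, List.mem_append] at hv
        push Not at h4
        rcases hv with hv | hv
        · exact absurd hv h4.1
        have h5 : f (true, v) = false := by simpa using h4.2 hv
        rw [List.mem_append] at hv
        rcases hv with hv | hv
        · have hl := ((hD1 v).1 hv).1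
          have h6 : w.drop (w.length - (b + 1)) = v := by
            rw [← huv, List.length_append, hl]
            simp
          refine ⟨3, ?_, ?_, .inr ?_⟩
          · show w.drop (w.length - (b + 1)) ∈ D1 L a b p q
            rw [h6]
            exact hv
          · show f (true, w.drop (w.length - (b + 1))) = false
            rw [h6]
            exact h5
          · show (true, w.drop (w.length - (b + 1))) = _
            rw [h6]
        · have hl := ((hD2 v).1 hv).1
          have h6 : w.drop (w.length - (b + 2)) = v := by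
            rw [← huv, List.length_append, hl]
            simp
          refine ⟨2, ?_, ?_, .inr ?_⟩
          · show w.drop (w.length - (b + 2)) ∈ D2 L a b p q
            rw [h6]
            exact hv
          · show f (true, w.drop (w.length - (b + 2))) = false
            rw [h6]
            exact h5
          · show (true, w.drop (w.length - (b + 2))) = _
            rw [h6]
      · rw [hUm] at hu'
        rw [Umax, List.mem_append] at hu
        push Not at hu'
        rcases hu with hu | hu
        · exact absurd hu hu'.1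
        have h5 : f (false, u) = false := by simpa using hu'.2 hu
        rw [List.mem_append] at hu
        rcases hu with hu | hu
        · have hl := ((hC1 u).1 hu).1
          have h6 : w.take (a + 1) = u := by
            rw [← huv, ← hl]
            simp
          refine ⟨0, ?_, ?_, .inl ?_⟩
          · show w.take (a + 1) ∈ C1 L a b p q
            rw [h6]
            exact hu
          · show f (false, w.take (a + 1)) = false
            rw [h6]
            exact h5
          · show (false, w.take (a + 1)) = _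
            rw [h6]
        · have hl := ((hC2 u).1 hu).1
          have h6 : w.take (a + 2) = u := by
            rw [← huv, ← hl]
            simp
          refine ⟨1, ?_, ?_, .inl ?_⟩
          · show w.take (a + 2) ∈ C2 L a b p q
            rw [h6]
            exact hu
          · show f (false, w.take (a + 2)) = false
            rw [h6]
            exact h5
          · show (false, w.take (a + 2)) = _
            rw [h6]
    have hvars : ∀ i, Z i → zz i ∈ vars L a b p q := by
      intro i hi
      rw [vars, List.mem_append, List.mem_map, List.mem_map]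
      fin_cases i
      · exact .inl ⟨_, List.mem_append_left _ hi, rfl⟩
      · exact .inl ⟨_, List.mem_append_right _ hi, rfl⟩
      · exact .inr ⟨_, List.mem_append_right _ hi, rfl⟩
      · exact .inr ⟨_, List.mem_append_left _ hi, rfl⟩
    have next : ∀ i j, Z i → f (zz i) = false → Z j → f (zz j) = false →
        ∃ k, Z k ∧ f (zz k) = false ∧ k ≠ i ∧ k ≠ j := by
      intro i j hi hfi hj hfj
      have h3 : cov (rm false (zz i) (zz j) (Umax L a b p q)) (rm true (zz i) (zz j)
          (Vmax L a b p q)) w = true := by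
        by_contra hcon
        rw [Bool.not_eq_true] at hcon
        rcases hk1 _ (hvars i hi) _ (hvars j hj) w hw hcon with h | h
        · rw [hfi] at h
          exact absurd h (by simp)
        · rw [hfj] at h
          exact absurd h (by simp)
      rw [TFS_cov] at h3
      obtain ⟨u, hu, v, hv, huv⟩ := h3
      rw [TFS_rm] at hu hv
      obtain ⟨k, hk, hfk, hk'⟩ := step u v hu.1 hv.1 huv
      refine ⟨k, hk, hfk, ?_, ?_⟩
      · rintro rfl
        rcases hk' with h | h
        · exact hu.2.1 h
        · exact hv.2.1 h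
      · rintro rfl
        rcases hk' with h | h
        · exact hu.2.2 h
        · exact hv.2.2 h
    have n01 : ¬ ((Z 0 ∧ f (zz 0) = false) ∧ (Z 1 ∧ f (zz 1) = false)) := by
      rintro ⟨⟨h3, h4⟩, h5, h6⟩
      have h3' : w.take (a + 1) ∈ C1 L a b p q := h3
      have h5' : w.take (a + 2) ∈ C2 L a b p q := h5
      have h4' : f (false, w.take (a + 1)) = false := h4
      have h6' : f (false, w.take (a + 2)) = false := h6
      have h7 : (w.take (a + 2)).take (a + 1) = w.take (a + 1) := by
        rw [List.take_take]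
        congr 1
        omega
      have h8 := hk3 _ h5' (by rw [h7]; exact h3')
      rw [h7, h4', h6'] at h8
      simp at h8
    have n23 : ¬ ((Z 2 ∧ f (zz 2) = false) ∧ (Z 3 ∧ f (zz 3) = false)) := by
      rintro ⟨⟨h3, h4⟩, h5, h6⟩
      have h3' : w.drop (w.length - (b + 2)) ∈ D2 L a b p q := h3
      have h5' : w.drop (w.length - (b + 1)) ∈ D1 L a b p q := h5
      have h4' : f (true, w.drop (w.length - (b + 2))) = false := h4
      have h6' : f (true, w.drop (w.length - (b + 1))) = false := h6
      have hl := ((hD2 _).1 h3').1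
      have h7 : (w.drop (w.length - (b + 2))).drop 1 = w.drop (w.length - (b + 1)) := by
        rw [List.drop_drop]
        congr 1
        rw [List.length_drop] at hl
        omega
      have h8 := hk4 _ h3' (by rw [h7]; exact h5')
      rw [h7, h4', h6'] at h8
      simp at h8
    obtain ⟨u, hu, v, hv, huv⟩ := TFS_cov.1 (hcov w hw)
    obtain ⟨i, hi, hfi, -⟩ := step u v hu hv huv
    obtain ⟨j, hj, hfj, hji, -⟩ := next i i hi hfi hi hfi
    obtain ⟨k, hk, hfk, hki, hkj⟩ := next i j hi hfi hj hfj
    have h01 : ∀ i : Fin 4, Z i → f (zz i) = false → i = 0 → ¬ (Z 1 ∧ f (zz 1) = false) := by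
      rintro i h h' rfl h''
      exact n01 ⟨⟨h, h'⟩, h''⟩
    have h23 : ∀ i : Fin 4, Z i → f (zz i) = false → i = 2 → ¬ (Z 3 ∧ f (zz 3) = false) := by
      rintro i h h' rfl h''
      exact n23 ⟨⟨h, h'⟩, h''⟩
    have hcases : ∀ i j k : Fin 4, j ≠ i → k ≠ i → k ≠ j →
        ((i = 0 ∨ j = 0 ∨ k = 0) ∧ (i = 1 ∨ j = 1 ∨ k = 1)) ∨
        ((i = 2 ∨ j = 2 ∨ k = 2) ∧ (i = 3 ∨ j = 3 ∨ k = 3)) := by decide
    have hP : ∀ n : Fin 4, (i = n ∨ j = n ∨ k = n) → Z n ∧ f (zz n) = false := by
      rintro n (rfl | rfl | rfl)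
      · exact ⟨hi, hfi⟩
      · exact ⟨hj, hfj⟩
      · exact ⟨hk, hfk⟩
    rcases hcases i j k hji hki hkj with ⟨h3, h4⟩ | ⟨h3, h4⟩
    · exact n01 ⟨hP 0 h3, hP 1 h4⟩
    · exact n23 ⟨hP 2 h3, hP 3 h4⟩
  refine ⟨U, V, ?_, ?_, ?_, ?_, ?_⟩
  · refine ((U0 L a b ++ Ut L p q) ++ (C1 L a b p q ++ C2 L a b p q)).finite_toSet.subset ?_
    intro u hu
    rcases (hUm u).1 hu with h | h
    · exact List.mem_append_left _ h
    · exact List.mem_append_right _ h.1
  · refine (VK L a b p q ++ (D1 L a b p q ++ D2 L a b p q)).finite_toSet.subset ?_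
    intro u hu
    rcases (hVm u).1 hu with h | h
    · exact List.mem_append_left _ h
    · exact List.mem_append_right _ h.1
  · ext w
    rw [Language.mem_mul]
    constructor
    · intro hw
      exact hsup w hw
    · rintro ⟨u, hu, v, hv, rfl⟩
      exact hsub u hu v hv
  · intro h
    obtain ⟨u, hu⟩ := List.exists_mem_of_ne_nil _ hUt
    have h3 : u ∈ U := .inl (List.mem_append_right _ hu)
    rw [h, Language.mem_one] at h3
    subst h3
    rw [Ut, pre, List.mem_map] at hu
    obtain ⟨w, hw, hwu⟩ := hu
    rw [List.mem_filter, decide_eq_true_eq] at hw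
    have h4 := congrArg List.length hwu
    rw [List.length_take] at h4
    simp only [List.length_nil] at h4
    omega
  · intro h
    obtain ⟨u, hu⟩ := List.exists_mem_of_ne_nil _ hVt
    have h3 : u ∈ V := .inl (List.mem_append_right _ hu)
    rw [h, Language.mem_one] at h3
    subst h3
    rw [Vt, suf, List.mem_map] at hu
    obtain ⟨w, hw, hwu⟩ := hu
    rw [List.mem_filter, decide_eq_true_eq] at hw
    have h4 := congrArg List.length hwu
    rw [List.length_drop] at h4
    simp only [List.length_nil] at h4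
    omega

end Pool.FD
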