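import Pool.Agent.Work.MP_e24068_dich.InterfaceP

set_option autoImplicit false

namespace Pool.FD

open Pool.Agent.Work.TMLib Pool.Agent.Work.MP_e24068_lc

theorem p_TOP : Stmt_TOP := by
  intro L U V a b p q u v h hup hu hu2 hvq hv hv2
  obtain ⟨vs, hvs, hvl⟩ := h.vq
  obtain ⟨u1, hu1, v1, hv1, he⟩ := (h.fac (u ++ vs)).1 (hu2 vs hvs hvl)
  have l1 := (h.ul u1 hu1).2
  have l2 := (h.vl v1 hv1).2
  have l3 : u1.length + v1.length = u.length + vs.length := by
    have := congrArg List.length he
    simpa [List.length_append] using this
  rcases List.append_eq_append_iff.1 he with ⟨c, hc1, hc2⟩ | ⟨c, hc1, hc2⟩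
  · -- u = u1 ++ c
    have l4 : u.length = u1.length + c.length := by
      rw [hc1, List.length_append]
    have l5 : c.length = 0 := by omega
    have hc : c = [] := List.length_eq_zero_iff.1 l5
    rw [hc, List.append_nil] at hc1
    exact hu (hc1 ▸ hu1)
  · -- u1 = u ++ c
    have l4 : u1.length = u.length + c.length := by
      rw [hc1, List.length_append]
    by_cases l5 : c.length = 0
    · have hc : c = [] := List.length_eq_zero_iff.1 l5
      rw [hc, List.append_nil] at hc1
      exact hu (hc1 ▸ hu1)
    · have l6 : u1.length = p := by omega
      obtain ⟨u2, hu2', v2, hv2', he2⟩ := (h.fac (u1 ++ v)).1 (hv2 u1 hu1 l6)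
      have m1 := (h.ul u2 hu2').2
      have m2 := (h.vl v2 hv2').2
      have m3 : u2.length + v2.length = u1.length + v.length := by
        have := congrArg List.length he2
        simpa [List.length_append] using this
      by_cases m4 : v2.length = v.length
      · have := (List.append_inj' he2 m4).2
        exact hv (this ▸ hv2')
      · have m5 : u2.length = u.length := by omega
        have he3 : u2 ++ v2 = u ++ (c ++ v) := by
          rw [he2, hc1, List.append_assoc]
        have := (List.append_inj he3 m5).1
        exact hu (this ▸ hu2')

end Pool.FD
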