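import Pool.Agent.Work.MP_e24068_dich.InterfaceP

/-! # Block TSO: all tries are sound (helper87) -/

set_option autoImplicit false

namespace Pool.FD

open Pool.Agent.Work.TMLib Pool.Agent.Work.MP_e24068_lc

theorem TSO_rv {L : List Wd} (h : L ≠ []) : rv L ≠ [] := by
  unfold rv
  simpa using h

theorem TSO_horn (hI : Stmt_ISF) {L K : List Wd} {l : ℕ} (hL : L ≠ [])
    (h : horn L K l = true) : HasFactorization (LW L) :=
  hI L _ _ hL h

theorem TSO_hornR (hI : Stmt_ISF) (hR : Stmt_REV) {L K : List Wd} {l : ℕ} (hL : L ≠ [])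
    (h : hornR L K l = true) : HasFactorization (LW L) :=
  (hR L).1 (TSO_horn hI (TSO_rv hL) h)

theorem p_TSO (hT : Stmt_TFS) (hI : Stmt_ISF) (hR : Stmt_REV) : Stmt_TSO := by
  intro L a b p q hL h
  unfold tries at h
  simp only [Bool.or_eq_true] at h
  rcases h with ((((h | h) | h) | h) | h) | h
  · exact TSO_horn hI hL h
  · exact TSO_horn hI hL h
  · exact TSO_horn hI hL h
  · exact TSO_hornR hI hR hL h
  · exact TSO_hornR hI hR hL h
  · exact hT L a b p q hL h

end Pool.FD
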