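import Pool.Agent.Work.MP_e24068_dich.InterfaceP

set_option autoImplicit false

namespace Pool.FD

open Pool.Agent.Work.TMLib Pool.Agent.Work.MP_e24068_lc

theorem p_TV3 (hTOP : Stmt_TOP) (hTB : Stmt_TB) (hLEV : Stmt_LEV) (hCAN : Stmt_CAN)
    (hCAM : Stmt_CAM) : Stmt_TV3 := by
  intro L U V a b hF
  by_cases hall : ∀ u ∈ cL L (V0 L a b ++ Vt L (a + 3) (b + 4)) (a + 2), u ∈ U
  · exact Or.inl (hTB L U V a b (b + 4) hF hall)
  · right
    push Not at hall
    obtain ⟨u, hu, huU⟩ := hall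
    obtain ⟨hU0, hV0, hUt, hVt⟩ := hLEV L U V a b (a + 3) (b + 4) hF
    obtain ⟨hul, _, huv⟩ := ((hCAM L (V0 L a b ++ Vt L (a + 3) (b + 4)) (a + 2)).1 u).1 hu
    have huv' : ∀ v' ∈ V, v'.length = b + 4 → u ++ v' ∈ L := by
      intro v' hv' hl
      exact huv v' (List.mem_append.2 (Or.inr ((hVt v').2 ⟨hv', hl⟩)))
    have hK : ∀ w ∈ U0 L a b ++ Ut L (a + 3) (b + 4), w ∈ U := by
      intro w hw
      rcases List.mem_append.1 hw with h | h
      · exact ((hU0 w).1 h).1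
      · exact ((hUt w).1 h).1
    intro w
    constructor
    · intro hw
      obtain ⟨hwl, _, hwu⟩ := ((hCAM L (U0 L a b ++ Ut L (a + 3) (b + 4)) (b + 3)).2 w).1 hw
      refine ⟨?_, hwl⟩
      by_contra hwV
      refine hTOP L U V a b (a + 3) (b + 4) u w hF (by omega) huU huv' (by omega) hwV ?_
      intro u' hu' hl
      exact hwu u' (List.mem_append.2 (Or.inr ((hUt u').2 ⟨hu', hl⟩)))
    · rintro ⟨hwV, hwl⟩
      exact (hCAN L U V a b (a + 3) (b + 4) (U0 L a b ++ Ut L (a + 3) (b + 4)) (b + 3) hF).2 hK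
        w hwV hwl

end Pool.FD
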