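import Pool.Agent.Work.MP_e24068_dich.InterfaceH

/-!
Block TY: the lengths of the factors are determined.
-/

set_option autoImplicit false

namespace Pool.FD

open Pool.Agent.Work.MP_e24068_lc (Var Lit Cl Sat3 HasFactorization litsL varsL to3 mem_litsL)

theorem TY_alph {V : List Var} {l : Lit} (hl : l.1 ∈ V) :
    ((0, l) : Lt) ∈ alph V ∧ ((1, l) : Lt) ∈ alph V ∧ ((2, l) : Lt) ∈ alph V ∧
    ((1, neg l) : Lt) ∈ alph V ∧ ((3, l0) : Lt) ∈ alph V ∧ ((4, l0) : Lt) ∈ alph V ∧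
    ((5, l0) : Lt) ∈ alph V := by
  have h1 : l ∈ litsL V := mem_litsL.2 hl
  have h2 : neg l ∈ litsL V := mem_litsL.2 hl
  have h3 : ∀ (m : Lit) (k : ℕ), m ∈ litsL V → k = 0 ∨ k = 1 ∨ k = 2 → ((k, m) : Lt) ∈ alph V := by
    intro m k hm hk
    refine List.mem_cons_of_mem _ (List.mem_cons_of_mem _ (List.mem_cons_of_mem _ ?_))
    rw [List.mem_flatMap]
    refine ⟨m, hm, ?_⟩
    rcases hk with rfl | rfl | rfl <;> simp
  refine ⟨h3 l 0 h1 (by simp), h3 l 1 h1 (by simp), h3 l 2 h1 (by simp), h3 _ 1 h2 (by simp),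
    ?_, ?_, ?_⟩
  · exact List.mem_cons_self
  · exact List.mem_cons_of_mem _ List.mem_cons_self
  · exact List.mem_cons_of_mem _ (List.mem_cons_of_mem _ List.mem_cons_self)

theorem p_TY (hML : Stmt_ML) : Stmt_TY := by
  intro ψ V l L₁ L₂ hl hL hL1 hL2
  obtain ⟨_, _, hlen, hnil⟩ := hML ψ V
  obtain ⟨ar, at', az, atn, ag, aq, ay⟩ := TY_alph hl
  have hmul : ∀ w, w ∈ LL ψ V ↔ ∃ u ∈ L₁, ∃ v ∈ L₂, u ++ v = w := by
    intro w
    rw [hL, Language.mem_mul]
  have hmem : ∀ w : List Lt, w ∈ LL ψ V ↔ (∀ x ∈ w, x ∈ alph V) ∧ Lb ψ w = true :=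
    fun w => Iff.rfl
  obtain ⟨n1, hn1, n2, hn2, hnn⟩ := (hmul []).1 hnil
  obtain ⟨rfl, rfl⟩ := List.append_eq_nil_iff.1 hnn
  -- a word of length 8
  have hw0 : ([(4, l0), (4, l0), (4, l0), (5, l0), (4, l0), (4, l0), (4, l0), (4, l0)] : List Lt) ∈
      LL ψ V := by
    rw [hmem]
    refine ⟨?_, ?_⟩
    · intro x hx
      simp only [List.mem_cons, List.not_mem_nil, or_false] at hx
      rcases hx with rfl | rfl | rfl | rfl | rfl | rfl | rfl | rfl <;> assumption
    · simp [Lb, U3, V5, N3, RZ, RY, W, WV, WU, WX, WC, F]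
  obtain ⟨u0, hu0, v0, hv0, huv0⟩ := (hmul _).1 hw0
  have hsum : u0.length + v0.length = 8 := by
    rw [← List.length_append, huv0]
    rfl
  have hu : ∀ u ∈ L₁, u.length ≤ u0.length := by
    intro u hu
    have h1 := hlen (u ++ v0) ((hmul _).2 ⟨u, hu, v0, hv0, rfl⟩)
    rw [List.length_append] at h1
    omega
  have hv : ∀ v ∈ L₂, v.length ≤ v0.length := by
    intro v hv
    have h1 := hlen (u0 ++ v) ((hmul _).2 ⟨u0, hu0, v, hv, rfl⟩)
    rw [List.length_append] at h1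
    omega
  have hcut : ∀ w ∈ LL ψ V, w.length = 8 → w.take u0.length ∈ L₁ ∧ w.drop u0.length ∈ L₂ := by
    intro w hw h8
    obtain ⟨u, hu', v, hv', rfl⟩ := (hmul _).1 hw
    have h1 := hu u hu'
    have h2 := hv v hv'
    rw [List.length_append] at h8
    have h3 : u.length = u0.length := by omega
    rw [← h3, List.take_left, List.drop_left]
    exact ⟨hu', hv'⟩
  have hex : ∀ w ∈ LL ψ V, ∀ w' ∈ LL ψ V, w.length = 8 → w'.length = 8 →
      Lb ψ (w.take u0.length ++ w'.drop u0.length) = true := by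
    intro w hw w' hw' h8 h8'
    have h1 := (hmul _).2 ⟨_, (hcut w hw h8).1, _, (hcut w' hw' h8').2, rfl⟩
    exact ((hmem _).1 h1).2
  have hα0 : u0.length ≠ 0 := by
    intro h0
    apply hL1
    ext u
    rw [Language.mem_one]
    constructor
    · intro h
      have h2 := hu u h
      rw [h0] at h2
      exact List.length_eq_zero_iff.1 (Nat.le_zero.1 h2)
    · rintro rfl
      exact hn1
  have hβ0 : v0.length ≠ 0 := by
    intro h0
    apply hL2
    ext v
    rw [Language.mem_one]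
    constructor
    · intro h
      have h2 := hv v h
      rw [h0] at h2
      exact List.length_eq_zero_iff.1 (Nat.le_zero.1 h2)
    · rintro rfl
      exact hn2
  -- members of the language
  have mk : ∀ w : List Lt, (∀ x ∈ w, x = (0, l) ∨ x = (1, l) ∨ x = (1, neg l) ∨ x = (3, l0) ∨
      x = (4, l0) ∨ x = (5, l0)) → Lb ψ w = true → w ∈ LL ψ V := by
    intro w h1 h2
    rw [hmem]
    refine ⟨fun x hx => ?_, h2⟩
    rcases h1 x hx with rfl | rfl | rfl | rfl | rfl | rfl <;> assumption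
  have h3 : u0.length = 3 := by
    by_contra hne
    have hlt : u0.length ≤ 7 := by omega
    generalize hα : u0.length = α at *
    have hcases : α = 1 ∨ α = 2 ∨ α = 4 ∨ α = 5 ∨ α = 6 ∨ α = 7 := by omega
    rcases hcases with rfl | rfl | rfl | rfl | rfl | rfl
    · have h := hex [(0, l), (4, l0), (4, l0), (5, l0), (4, l0), (4, l0), (4, l0), (4, l0)]
        (mk _ (by simp) (by simp [Lb, U3, V5, N3, RZ, RY, W, WV, WU, WX, WC, F]))
        [(3, l0), (5, l0), (1, neg l), (5, l0), (4, l0), (4, l0), (4, l0), (4, l0)]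
        (mk _ (by simp) (by simp [Lb, U3, V5, N3, RZ, RY, W, WV, WU, WX, WC, F])) rfl rfl
      simp [Lb, U3, N3, RZ, RY] at h
    · have h := hex [(0, l), (5, l0), (4, l0), (5, l0), (4, l0), (4, l0), (4, l0), (4, l0)]
        (mk _ (by simp) (by simp [Lb, U3, V5, N3, RZ, RY, W, WV, WU, WX, WC, F]))
        [(4, l0), (4, l0), (1, neg l), (5, l0), (4, l0), (4, l0), (4, l0), (4, l0)]
        (mk _ (by simp) (by simp [Lb, U3, V5, N3, RZ, RY, W, WV, WU, WX, WC, F])) rfl rfl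
      simp [Lb, U3, N3, RZ, RY] at h
    · have h := hex [(4, l0), (4, l0), (4, l0), (3, l0), (4, l0), (4, l0), (4, l0), (5, l0)]
        (mk _ (by simp) (by simp [Lb, U3, V5, N3, RZ, RY, W, WV, WU, WX, WC, F]))
        [(4, l0), (4, l0), (4, l0), (5, l0), (4, l0), (4, l0), (4, l0), (4, l0)] hw0 rfl rfl
      simp [Lb, V5] at h
    · have h := hex [(4, l0), (4, l0), (4, l0), (5, l0), (0, l), (4, l0), (0, l), (4, l0)]
        (mk _ (by simp) (by simp [Lb, U3, V5, N3, RZ, RY, W, WV, WU, WX, WC, F]))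
        [(4, l0), (4, l0), (4, l0), (5, l0), (3, l0), (4, l0), (0, l), (1, l)]
        (mk _ (by simp) (by simp [Lb, U3, V5, N3, RZ, RY, W, WV, WU, WX, WC, F])) rfl rfl
      simp [Lb, V5, W, WX] at h
    · have h := hex [(4, l0), (4, l0), (4, l0), (5, l0), (0, l), (4, l0), (0, l), (4, l0)]
        (mk _ (by simp) (by simp [Lb, U3, V5, N3, RZ, RY, W, WV, WU, WX, WC, F]))
        [(4, l0), (4, l0), (4, l0), (5, l0), (3, l0), (4, l0), (0, l), (1, l)]
        (mk _ (by simp) (by simp [Lb, U3, V5, N3, RZ, RY, W, WV, WU, WX, WC, F])) rfl rfl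
      simp [Lb, V5, W, WX] at h
    · have h := hex [(4, l0), (4, l0), (4, l0), (5, l0), (0, l), (4, l0), (0, l), (4, l0)]
        (mk _ (by simp) (by simp [Lb, U3, V5, N3, RZ, RY, W, WV, WU, WX, WC, F]))
        [(4, l0), (4, l0), (4, l0), (5, l0), (3, l0), (4, l0), (0, l), (1, l)]
        (mk _ (by simp) (by simp [Lb, U3, V5, N3, RZ, RY, W, WV, WU, WX, WC, F])) rfl rfl
      simp [Lb, V5, W, WX] at h
  have h5 : v0.length = 5 := by omega
  refine ⟨hn1, hn2, fun u h => h3 ▸ hu u h, fun v h => h5 ▸ hv v h, ?_⟩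
  intro x hx y hy z hz
  constructor
  · intro h
    have h1 := ((hmem _).1 ((hmul _).2 ⟨_, h, v0, hv0, rfl⟩)).2
    obtain ⟨a1, a2, a3, a4, a5, rfl⟩ : ∃ a1 a2 a3 a4 a5 : Lt, v0 = [a1, a2, a3, a4, a5] := by
      match v0, h5 with
      | [a1, a2, a3, a4, a5], _ => exact ⟨a1, a2, a3, a4, a5, rfl⟩
    simp only [List.cons_append, List.nil_append, Lb, Bool.and_eq_true] at h1
    exact h1.1
  · intro h
    have h1 : ([x, y, z, (5, l0), (4, l0), (4, l0), (4, l0), (4, l0)] : List Lt) ∈ LL ψ V := by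
      rw [hmem]
      refine ⟨?_, ?_⟩
      · intro w hw
        simp only [List.mem_cons, List.not_mem_nil, or_false] at hw
        rcases hw with rfl | rfl | rfl | rfl | rfl | rfl | rfl | rfl <;> assumption
      · simp [Lb, V5, W, WV, WU, WX, WC, F, RZ, RY, h]
    have h2 := (hcut _ h1 rfl).1
    rw [h3] at h2
    exact h2

end Pool.FD
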