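import Pool.Agent.Work.MP_e24068_lc.Lists

/-!
Hardness for words of length at most `8`: the language of a 3-CNF formula, and the statements of
the blocks.
-/

set_option autoImplicit false

namespace Pool.FD

open Pool.Agent.Work.MP_e24068_lc (Var Lit Cl Sat3 HasFactorization litsL varsL to3)

/-- Letters: a tag (`0 = r`, `1 = t`, `2 = z`, `3 = g`, `4 = q`, `5 = y`) and a literal. -/
abbrev Lt := ℕ × Lit

/-- The opposite literal. -/
def neg (l : Lit) : Lit := (l.1, !l.2)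

/-- The dummy literal. -/
def l0 : Lit := ((0, 0), false)

/-- `r l`, `t l`. -/
def N2 (x y : Lt) : Bool := decide (x.1 = 0) && decide (y.1 = 1) && decide (x.2 = y.2)
/-- `r l`, `z l`. -/
def RZ (x y : Lt) : Bool := decide (x.1 = 0) && decide (y.1 = 2) && decide (x.2 = y.2)
/-- `r l`, `y`. -/
def RY (x y : Lt) : Bool := decide (x.1 = 0) && decide (y.1 = 5)
/-- `z l`, `t m`. -/
def ZT (x y : Lt) : Bool := decide (x.1 = 2) && decide (y.1 = 1)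
/-- `y`, `t m`. -/
def YT (x y : Lt) : Bool := decide (x.1 = 5) && decide (y.1 = 1)
/-- `r l`, `z l`, `t m` or `r l`, `y`, `t (neg l)`. -/
def N3 (x y z : Lt) : Bool :=
  (RZ x y && decide (z.1 = 1)) || (RY x y && decide (z.1 = 1) && decide (z.2 = neg x.2))
/-- `g`, `r l`, `z l`, `t (neg l)`. -/
def WV (x₁ x₂ x₃ x₄ : Lt) : Bool :=
  decide (x₁.1 = 3) && RZ x₂ x₃ && decide (x₄.1 = 1) && decide (x₄.2 = neg x₂.2)
/-- `r l`, `y`, `t (neg l)`, `g`. -/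
def WU (x₁ x₂ x₃ x₄ : Lt) : Bool :=
  RY x₁ x₂ && decide (x₃.1 = 1) && decide (x₃.2 = neg x₁.2) && decide (x₄.1 = 3)
/-- `r l`, `q`, `r l`, `t l`. -/
def WX (x₁ x₂ x₃ x₄ : Lt) : Bool :=
  decide (x₁.1 = 0) && decide (x₂.1 = 4) && decide (x₃ = x₁) && decide (x₄.1 = 1) &&
    decide (x₄.2 = x₁.2)
/-- `r l₁`, `q`, `z (neg l₂)`, `t (neg l₃)` for a clause `l₁ ∨ l₂ ∨ l₃`. -/
def WC (ψ : List Cl) (x₁ x₂ x₃ x₄ : Lt) : Bool :=
  decide (x₁.1 = 0) && decide (x₂.1 = 4) && decide (x₃.1 = 2) && decide (x₄.1 = 1) &&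
    ψ.any fun c => decide (x₁.2 = c.1) && decide (x₃.2 = neg c.2.1) && decide (x₄.2 = neg c.2.2)
/-- The words of length `4` which are not in the second factor. -/
def W (ψ : List Cl) (x₁ x₂ x₃ x₄ : Lt) : Bool :=
  WV x₁ x₂ x₃ x₄ || WU x₁ x₂ x₃ x₄ || WX x₁ x₂ x₃ x₄ || WC ψ x₁ x₂ x₃ x₄
/-- First letters of the words of length `5` of the second factor. -/
def F (x : Lt) : Bool := !decide (x.1 = 1) && !decide (x.1 = 2)
/-- Words of length `3` of the first factor. -/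
def U3 (x y z : Lt) : Bool := !N3 x y z && !decide (y.1 = 3)
/-- Words of length `5` of the second factor. -/
def V5 (ψ : List Cl) (x₁ x₂ x₃ x₄ x₅ : Lt) : Bool :=
  F x₁ && !W ψ x₂ x₃ x₄ x₅ && !(decide (x₁.1 = 3) && decide (x₂.1 = 4) && decide (x₃.1 = 4) &&
    decide (x₄.1 = 4) && decide (x₅.1 = 4))
/-- Words of length `1` of the first factor. -/
def U1 (τ : Lit → Bool) (x : Lt) : Bool := !decide (x.1 = 0) || τ x.2
/-- Words of length `1` of the second factor. -/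
def V1 (τ : Lit → Bool) (x : Lt) : Bool := !decide (x.1 = 1) || !τ x.2
/-- Words of length `2` of the first factor. -/
def U2 (τ : Lit → Bool) (x y : Lt) : Bool := !N2 x y && !RZ x y && !(RY x y && τ x.2)
/-- Words of length `2` of the second factor. -/
def V2 (τ : Lit → Bool) (x y : Lt) : Bool := !N2 x y && !YT x y && !(ZT x y && τ x.2)

/-- Words of length `6`. -/
def L6 (ψ : List Cl) (x₁ x₂ x₃ x₄ x₅ x₆ : Lt) : Bool :=
  (!N2 x₁ x₂ && !RZ x₁ x₂ && !W ψ x₃ x₄ x₅ x₆) || (U3 x₁ x₂ x₃ && !N3 x₄ x₅ x₆)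
/-- Words of length `7`. -/
def L7 (ψ : List Cl) (x₁ x₂ x₃ x₄ x₅ x₆ x₇ : Lt) : Bool :=
  (!N2 x₁ x₂ && !RZ x₁ x₂ && V5 ψ x₃ x₄ x₅ x₆ x₇) || (U3 x₁ x₂ x₃ && !W ψ x₄ x₅ x₆ x₇)

/-- The words of the language. -/
def Lb (ψ : List Cl) : List Lt → Bool
  | [] => true
  | [_] => true
  | [x₁, x₂] => !N2 x₁ x₂
  | [x₁, x₂, x₃] => !N3 x₁ x₂ x₃
  | [_, _, _, _] => true
  | [_, x₂, x₃, x₄, x₅] => !WV x₂ x₃ x₄ x₅
  | [x₁, x₂, x₃, x₄, x₅, x₆] => L6 ψ x₁ x₂ x₃ x₄ x₅ x₆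
  | [x₁, x₂, x₃, x₄, x₅, x₆, x₇] => L7 ψ x₁ x₂ x₃ x₄ x₅ x₆ x₇
  | [x₁, x₂, x₃, x₄, x₅, x₆, x₇, x₈] => U3 x₁ x₂ x₃ && V5 ψ x₄ x₅ x₆ x₇ x₈
  | _ => false

/-- The first factor. -/
def Ub (τ : Lit → Bool) : List Lt → Bool
  | [] => true
  | [x₁] => U1 τ x₁
  | [x₁, x₂] => U2 τ x₁ x₂
  | [x₁, x₂, x₃] => U3 x₁ x₂ x₃
  | _ => false

/-- The second factor. -/
def Vb (ψ : List Cl) (τ : Lit → Bool) : List Lt → Bool
  | [] => true
  | [x₁] => V1 τ x₁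
  | [x₁, x₂] => V2 τ x₁ x₂
  | [x₁, x₂, x₃] => !N3 x₁ x₂ x₃
  | [x₁, x₂, x₃, x₄] => !W ψ x₁ x₂ x₃ x₄
  | [x₁, x₂, x₃, x₄, x₅] => V5 ψ x₁ x₂ x₃ x₄ x₅
  | _ => false

/-- The alphabet. -/
def alph (V : List Var) : List Lt :=
  (3, l0) :: (4, l0) :: (5, l0) :: (litsL V).flatMap fun l => [(0, l), (1, l), (2, l)]

/-- The words of length `k`. -/
def wds (A : List Lt) : ℕ → List (List Lt)
  | 0 => [[]]
  | k + 1 => A.flatMap fun x => (wds A k).map fun w => x :: w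

/-- The language of a formula. -/
def LL (ψ : List Cl) (V : List Var) : Language Lt :=
  {w | (∀ x ∈ w, x ∈ alph V) ∧ Lb ψ w = true}

/-- The language of a formula as a list. -/
def LLl (ψ : List Cl) (V : List Var) : List (List Lt) :=
  (wds (alph V) 0 ++ wds (alph V) 1 ++ wds (alph V) 2 ++ wds (alph V) 3 ++ wds (alph V) 4 ++
    wds (alph V) 5 ++ wds (alph V) 6 ++ wds (alph V) 7 ++ wds (alph V) 8).filter (Lb ψ)

/-- `τ` is an assignment of truth values to the literals which satisfies `ψ`. -/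
def Good (ψ : List Cl) (τ : Lit → Bool) : Prop :=
  (∀ l, τ (neg l) = !τ l) ∧ ∀ c ∈ ψ, τ c.1 = true ∨ τ c.2.1 = true ∨ τ c.2.2 = true

end Pool.FD
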