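import Pool.Agent.Work.MP_e24068_lc.Transport
import Pool.Agent.Work.TMLib.Lib2
import Pool.Agent.Work.TMLib.FP

/-!
Factorization of finite languages of small spread: the algorithm, and the statements of the blocks.
-/

set_option autoImplicit false

namespace Pool.FD

open Pool.Agent.Work.TMLib Pool.Agent.Work.MP_e24068_lc

/-- Words over the alphabet of the natural numbers. -/
abbrev Wd := List ℕ

/-- The language listed by a list of words. -/
def LW (L : List Wd) : Language ℕ := {w | w ∈ L}

/-- Membership test. -/
def mb (L : List Wd) (w : Wd) : Bool := L.any fun u => decide (u = w)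

/-- The prefixes of length `k`. -/
def pre (L : List Wd) (k : ℕ) : List Wd :=
  (L.filter fun w => decide (k ≤ w.length)).map fun w => w.take k

/-- The suffixes of length `k`. -/
def suf (L : List Wd) (k : ℕ) : List Wd :=
  (L.filter fun w => decide (k ≤ w.length)).map fun w => w.drop (w.length - k)

/-- The words of length `k`. -/
def len (L : List Wd) (k : ℕ) : List Wd := L.filter fun w => decide (w.length = k)

/-- All suffixes. -/
def sufs (L : List Wd) : List Wd :=
  L.flatMap fun w => (List.range (w.length + 1)).map fun k => w.drop k

/-- All words `u v` with `u` in `K` are in `L`. -/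
def okR (L K : List Wd) (v : Wd) : Bool := K.all fun u => mb L (u ++ v)

/-- All words `u v` with `v` in `K` are in `L`. -/
def okL (L K : List Wd) (u : Wd) : Bool := K.all fun v => mb L (u ++ v)

/-- The word `w` is in `U V`. -/
def cov (U V : List Wd) (w : Wd) : Bool := U.any fun u => V.any fun v => decide (u ++ v = w)

/-- `L = U V`, and both `U` and `V` contain a nonempty word. -/
def isF (L U V : List Wd) : Bool :=
  U.all (fun u => okL L V u) && L.all (fun w => cov U V w) &&
    U.any (fun u => !decide (u = [])) && V.any (fun v => !decide (v = []))

/-- The candidates of length `k` for the first factor, given the words `K` of the second. -/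
def cL (L K : List Wd) (k : ℕ) : List Wd := (pre L k).filter fun u => okL L K u

/-- The candidates of length `k` for the second factor, given the words `K` of the first. -/
def cR (L K : List Wd) (k : ℕ) : List Wd := (suf L k).filter fun v => okR L K v

/-! ### The Horn case -/

/-- The largest second factor for the first factor `K ++ X`. -/
def hV (L K X : List Wd) : List Wd := (sufs L).filter fun v => okR L (K ++ X) v

/-- One step: add the prefixes of length `l` of the words which are not covered by `K`. -/
def hStep (L K : List Wd) (l : ℕ) (X : List Wd) : List Wd :=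
  (pre L l).filter fun p => mb X p ||
    L.any fun w => decide (l ≤ w.length) && decide (w.take l = p) && !cov K (hV L K X) w

/-- The least set of words of length `l` to be added. -/
def hX (L K : List Wd) (l : ℕ) : List Wd := (hStep L K l)^[(pre L l).length + 1] []

/-- Is there a factorization whose first factor consists of `K` and words of length `l`? -/
def horn (L K : List Wd) (l : ℕ) : Bool := isF L (K ++ hX L K l) (hV L K (hX L K l))

/-- Reversal of all words. -/
def rv (L : List Wd) : List Wd := L.map fun w => w.reverse

/-- The same for the second factor. -/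
def hornR (L K : List Wd) (l : ℕ) : Bool := horn (rv L) (rv K) l

/-! ### The 2-SAT solver -/

section sat2

variable {V : Type} [DecidableEq V]

/-- The negation of a literal. -/
def ng (l : V × Bool) : V × Bool := (l.1, !l.2)

/-- The literals of a formula. -/
def lits (T : List ((V × Bool) × (V × Bool))) : List (V × Bool) :=
  T.flatMap fun c => [c.1, c.2, ng c.1, ng c.2]

/-- All pairs of literals. -/
def prs (T : List ((V × Bool) × (V × Bool))) : List ((V × Bool) × (V × Bool)) :=
  (lits T).flatMap fun l => (lits T).map fun l' => (l, l')

/-- Membership test for clauses. -/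
def mc (S : List ((V × Bool) × (V × Bool))) (c : (V × Bool) × (V × Bool)) : Bool :=
  S.any fun d => decide (d = c)

/-- One round of resolution. -/
def rs (T S : List ((V × Bool) × (V × Bool))) : List ((V × Bool) × (V × Bool)) :=
  (prs T).filter fun c => mc T c || mc T (c.2, c.1) || mc S c || mc S (c.2, c.1) ||
    (lits T).any fun m => mc S (c.1, m) && mc S (ng m, c.2)

/-- The closure under resolution. -/
def cls (T : List ((V × Bool) × (V × Bool))) : List ((V × Bool) × (V × Bool)) :=
  (rs T)^[(prs T).length + 1] []

/-- Satisfiability of a formula with two literals per clause. -/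
def sat2 (T : List ((V × Bool) × (V × Bool))) : Bool :=
  !((lits T).any fun l => mc (cls T) (l, l) && mc (cls T) (ng l, ng l))

end sat2

/-! ### The tries -/

section tries

variable (L : List Wd) (a b p q : ℕ)

/-- First factor, lowest level. -/
def U0 : List Wd := pre (len L (a + b)) a
/-- Second factor, lowest level. -/
def V0 : List Wd := suf (len L (a + b)) b
/-- First factor, top level. -/
def Ut : List Wd := pre (len L (p + q)) p
/-- Second factor, top level. -/
def Vt : List Wd := suf (len L (p + q)) q

/-- At most one unknown level. -/
def tryA : Bool := horn L (U0 L a b ++ Ut L p q) (a + 1)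

/-- Level `2` consists of all candidates. -/
def tryB : Bool :=
  horn L (U0 L a b ++ cL L (V0 L a b ++ Vt L p q) (a + 2) ++ Ut L p q) (a + 1)

/-- Level `3` of the second factor. -/
def V3 : List Wd := cR L (U0 L a b ++ Ut L p q) (b + 3)
/-- The known part of the second factor. -/
def VK : List Wd := V0 L a b ++ V3 L a b p q ++ Vt L p q
/-- Candidates for level `1` of the first factor. -/
def C1 : List Wd := cL L (VK L a b p q) (a + 1)
/-- Candidates for level `2` of the first factor. -/
def C2 : List Wd := cL L (VK L a b p q) (a + 2)
/-- Candidates for level `1` of the second factor. -/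
def D1 : List Wd := cR L (U0 L a b ++ Ut L p q) (b + 1)
/-- Candidates for level `2` of the second factor. -/
def D2 : List Wd := cR L (U0 L a b ++ Ut L p q) (b + 2)

/-- Level `2` of the first factor consists of all candidates. -/
def tryC : Bool := horn L (U0 L a b ++ C2 L a b p q ++ Ut L p q) (a + 1)

/-- Level `2` of the second factor consists of all candidates. -/
def tryD : Bool := hornR L (VK L a b p q ++ D2 L a b p q) (b + 1)

/-- The word `x` (of one letter) is the first letter of a word of the top level. -/
def inX (x : Wd) : Bool := (Vt L p q).any fun v => decide (v.take 1 = x)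

/-- Words of level `1` which must be in the first factor. -/
def gd (r : Wd) : Bool := !(mb (U0 L a b) (r.take a)) || !(inX L p q (r.drop a))

/-- Words which must be in the first factor. -/
def G : List Wd :=
  ((C1 L a b p q).filter fun r => gd L a b p q r) ++
  ((C2 L a b p q).filter fun u => !(inX L p q (u.drop (a + 1))) ||
    !(mb (C1 L a b p q) (u.take (a + 1))))

/-- Level `2` of the second factor is determined. -/
def tryE : Bool :=
  hornR L (VK L a b p q ++ cR L (U0 L a b ++ Ut L p q ++ G L a b p q) (b + 2)) (b + 1)

/-- Removal of two words; words of the first factor are tagged by `false`, words of the second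
by `true`. -/
def rm (s : Bool) (x y : Bool × Wd) (A : List Wd) : List Wd :=
  A.filter fun u => !(decide (x = (s, u)) || decide (y = (s, u)))

/-- The variables. -/
def vars : List (Bool × Wd) :=
  ((C1 L a b p q ++ C2 L a b p q).map fun u => (false, u)) ++
  ((D1 L a b p q ++ D2 L a b p q).map fun v => (true, v))

/-- The largest first factor. -/
def Umax : List Wd := U0 L a b ++ Ut L p q ++ (C1 L a b p q ++ C2 L a b p q)
/-- The largest second factor. -/
def Vmax : List Wd := VK L a b p q ++ (D1 L a b p q ++ D2 L a b p q)

/-- Clauses. -/
abbrev Cls := List (((Bool × Wd) × Bool) × ((Bool × Wd) × Bool))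

/-- One of the two words is needed. -/
def kl1 : Cls :=
  (vars L a b p q).flatMap fun x => ((vars L a b p q).filter fun y =>
    L.any fun w => !cov (rm false x y (Umax L a b p q)) (rm true x y (Vmax L a b p q)) w).map
      fun y => ((x, true), (y, true))

/-- Not both words. -/
def kl2 : Cls :=
  (C1 L a b p q ++ C2 L a b p q).flatMap fun u =>
    ((D1 L a b p q ++ D2 L a b p q).filter fun v => !mb L (u ++ v)).map
      fun v => (((false, u), false), ((true, v), false))

/-- A word of level `2` of the first factor or its prefix. -/
def kl3 : Cls :=
  ((C2 L a b p q).filter fun u => mb (C1 L a b p q) (u.take (a + 1))).map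
    fun u => (((false, u.take (a + 1)), true), ((false, u), true))

/-- A word of level `2` of the second factor or its suffix. -/
def kl4 : Cls :=
  ((D2 L a b p q).filter fun v => mb (D1 L a b p q) (v.drop 1)).map
    fun v => (((true, v.drop 1), true), ((true, v), true))

/-- The 2-SAT case. -/
def tryF : Bool :=
  decide (p = a + 3) && decide (q = b + 4) &&
  (U0 L a b ++ Ut L p q).all (fun u => okL L (VK L a b p q) u) &&
  L.all (fun w => cov (Umax L a b p q) (Vmax L a b p q) w) &&
  !(Ut L p q).isEmpty && !(Vt L p q).isEmpty &&
  sat2 (kl1 L a b p q ++ kl2 L a b p q ++ kl3 L a b p q ++ kl4 L a b p q)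

/-- All tries. -/
def tries : Bool :=
  tryA L a b p q || tryB L a b p q || tryC L a b p q || tryD L a b p q || tryE L a b p q ||
  tryF L a b p q

end tries

/-- The parameters. -/
def quads (N : ℕ) : List (ℕ × ℕ × ℕ × ℕ) :=
  (List.range N).flatMap fun a => (List.range N).flatMap fun b =>
    (List.range N).flatMap fun p => (List.range N).map fun q => (a, b, p, q)

/-- The algorithm. -/
def solve (L : List Wd) : Bool :=
  (quads ((L.flatMap fun w => w).length + 1)).any fun s =>
    tries L s.1 s.2.1 s.2.2.1 s.2.2.2 || tries (rv L) s.1 s.2.1 s.2.2.1 s.2.2.2

/-! ### Factorizations with given lengths -/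

/-- `L = U V`, the shortest words of `U` and `V` have lengths `a` and `b`, the longest `p`
and `q`. -/
structure Fac (L : List Wd) (U V : Set Wd) (a b p q : ℕ) : Prop where
  fac : ∀ w, w ∈ L ↔ ∃ u ∈ U, ∃ v ∈ V, u ++ v = w
  ul : ∀ u ∈ U, a ≤ u.length ∧ u.length ≤ p
  vl : ∀ v ∈ V, b ≤ v.length ∧ v.length ≤ q
  ua : ∃ u ∈ U, u.length = a
  up : ∃ u ∈ U, u.length = p
  vb : ∃ v ∈ V, v.length = b
  vq : ∃ v ∈ V, v.length = q
  un : ∃ u ∈ U, u ≠ []
  vn : ∃ v ∈ V, v ≠ []

end Pool.FD
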