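import Pool.Agent.Work.MP_e24068_dich.InterfaceP

set_option autoImplicit false

namespace Pool.FD

open Pool.Agent.Work.TMLib Pool.Agent.Work.MP_e24068_lc

theorem x_F1 : Stmt_F1 := by
  intro L U V a b u hF hul hu hc x v' hv'l hv'
  have h1 : u ++ (x :: v') ∈ L := hc _ hv' (by simp [hv'l])
  obtain ⟨s, hs, t, ht, hst⟩ := (hF.fac _).1 h1
  have hsl := hF.ul s hs
  have htl := hF.vl t ht
  have hlen := congrArg List.length hst
  simp only [List.length_append, List.length_cons, hul, hv'l] at hlen
  rw [List.append_eq_append_iff] at hst
  obtain hl | hl : s.length = a + 2 ∨ s.length = a + 3 := by omega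
  · rcases hst with ⟨c, hc1, hc2⟩ | ⟨c, hc1, hc2⟩
    · have hc3 : c.length = 0 := by
        have := congrArg List.length hc1
        simp only [List.length_append] at this
        omega
      rw [List.length_eq_zero_iff] at hc3
      subst hc3
      simp only [List.append_nil] at hc1
      exact absurd (hc1 ▸ hs) hu
    · have hc3 : c.length = 0 := by
        have := congrArg List.length hc1
        simp only [List.length_append] at this
        omega
      rw [List.length_eq_zero_iff] at hc3
      subst hc3
      simp only [List.append_nil] at hc1
      exact absurd (hc1 ▸ hs) hu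
  · rcases hst with ⟨c, hc1, hc2⟩ | ⟨c, hc1, hc2⟩
    · have := congrArg List.length hc1
      simp only [List.length_append] at this
      omega
    · have hc3 : c.length = 1 := by
        have := congrArg List.length hc1
        simp only [List.length_append] at this
        omega
      obtain ⟨y, rfl⟩ := List.length_eq_one_iff.1 hc3
      simp only [List.cons_append, List.nil_append, List.cons.injEq] at hc2
      obtain ⟨rfl, rfl⟩ := hc2
      rw [hc1] at hs
      exact ⟨hs, ht⟩

theorem x_F2 (h : Stmt_F1) : Stmt_F2 := by
  intro L U V a b u v hF hul hu hc hvl hv hd x v' hv'l hv'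
  have h1 := (h L U V a b u hF hul hu hc x v' hv'l hv').1
  have h2 : (u ++ [x]) ++ v ∈ L := hd _ h1 (by simp [hul])
  obtain ⟨s, hs, t, ht, hst⟩ := (hF.fac _).1 h2
  have hsl := hF.ul s hs
  have htl := hF.vl t ht
  have hlen := congrArg List.length hst
  simp only [List.length_append, List.length_cons, List.length_nil, hul, hvl] at hlen
  have hs' : s = ((u ++ [x]) ++ v).take s.length := by rw [← hst]; simp
  have ht' : t = ((u ++ [x]) ++ v).drop s.length := by rw [← hst]; simp
  obtain hl | hl | hl : s.length = a + 1 ∨ s.length = a + 2 ∨ s.length = a + 3 := by omega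
  · rw [hl] at hs' ht'
    have e1 : s = u.take (a + 1) := by
      rw [hs', List.append_assoc, List.take_append_of_le_length (by omega)]
    have e2 : t = u.drop (a + 1) ++ x :: v := by
      rw [ht', List.append_assoc, List.drop_append_of_le_length (by omega)]
      simp
    rw [e1] at hs
    rw [e2] at ht
    refine ⟨hs, ht, ?_⟩
    have h3 : (u.drop (a + 1)).length = 1 := by simp [hul]
    obtain ⟨y, hy⟩ := List.length_eq_one_iff.1 h3
    rw [hy] at ht
    exact (h L U V a b u hF hul hu hc y (x :: v) (by simp [hvl]) ht).2
  · rw [hl] at hs'
    have e1 : s = u := by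
      rw [hs', List.append_assoc, List.take_append_of_le_length (by omega)]
      exact List.take_of_length_le (by omega)
    exact absurd (e1 ▸ hs) hu
  · rw [hl] at ht'
    have e2 : t = v := by
      rw [ht', List.drop_append_of_le_length (by simp [hul])]
      rw [List.drop_of_length_le (by simp [hul])]
      simp
    exact absurd (e2 ▸ ht) hv

end Pool.FD
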