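import Pool.Agent.Work.MP_e24068_dich.B_E23
import Pool.Agent.Work.MP_e24068_dich.B_E4
import Pool.Agent.Work.MP_e24068_dich.B_E5
import Pool.Agent.Work.MP_e24068_dich.B_E67
import Pool.Agent.Work.MP_e24068_dich.B_ML
import Pool.Agent.Work.MP_e24068_dich.B_HF
import Pool.Agent.Work.MP_e24068_dich.B_TY
import Pool.Agent.Work.MP_e24068_dich.B_HS
import Pool.Agent.Work.MP_e24068_dich.B_NP

/-!
FACT is NP-hard for words of length at most `8`.
-/

set_option autoImplicit false

namespace Pool.FD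

theorem final_NP : Stmt_NP :=
  p_NP (p_HF p_E2 p_E3 p_E4 p_E5 p_E6 p_E7 p_ML) (p_HS (p_TY p_ML) p_ML) p_ML

end Pool.FD
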