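import Pool.Agent.Work.MP_e24068_dich.B_PL
import Pool.Agent.Work.MP_e24068_dich.B_PHO
import Pool.Agent.Work.MP_e24068_dich.B_PSA
import Pool.Agent.Work.MP_e24068_dich.B_PTR
import Pool.Agent.Work.MP_e24068_dich.B_PTF
import Pool.Agent.Work.MP_e24068_dich.B_PSO
import Pool.Agent.Work.MP_e24068_dich.B_REV
import Pool.Agent.Work.MP_e24068_dich.B_ISF
import Pool.Agent.Work.MP_e24068_dich.B_HFX
import Pool.Agent.Work.MP_e24068_dich.B_HOC
import Pool.Agent.Work.MP_e24068_dich.B_SAC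
import Pool.Agent.Work.MP_e24068_dich.B_SAS
import Pool.Agent.Work.MP_e24068_dich.B_LEV
import Pool.Agent.Work.MP_e24068_dich.B_TOP
import Pool.Agent.Work.MP_e24068_dich.F12x
import Pool.Agent.Work.MP_e24068_dich.B_F3
import Pool.Agent.Work.MP_e24068_dich.B_TAB
import Pool.Agent.Work.MP_e24068_dich.B_T33
import Pool.Agent.Work.MP_e24068_dich.B_TV3
import Pool.Agent.Work.MP_e24068_dich.B_TCD
import Pool.Agent.Work.MP_e24068_dich.B_TE
import Pool.Agent.Work.MP_e24068_dich.B_TF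
import Pool.Agent.Work.MP_e24068_dich.B_TFS
import Pool.Agent.Work.MP_e24068_dich.B_TSO
import Pool.Agent.Work.MP_e24068_dich.B_FEX
import Pool.Agent.Work.MP_e24068_dich.B_SOC
import Pool.Agent.Work.MP_e24068_dich.B_SOS
import Pool.Agent.Work.MP_e24068_dich.B_PP

/-!
FACT is in P for languages whose word lengths differ by at most `7`.
-/

set_option autoImplicit false

namespace Pool.FD

theorem final_P : Stmt_PP := by
  have hF2 : Stmt_F2 := x_F2 x_F1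
  have hF3 : Stmt_F3 := p_F3 hF2
  have hHOC : Stmt_HOC := p_HOC p_HFX
  have hHOR : Stmt_HOR := p_HOR p_HFX p_FRV
  have hTA : Stmt_TA := p_TA hHOC p_LEV p_CAN
  have hTB : Stmt_TB := p_TB hHOC p_LEV p_CAN
  have hT33 : Stmt_T33 := p_T33 p_TOP hTB p_FRV p_LEV p_CAM
  have hTV3 : Stmt_TV3 := p_TV3 p_TOP hTB p_LEV p_CAN p_CAM
  have hTC : Stmt_TC := p_TC hHOC p_LEV p_CAN
  have hTD : Stmt_TD := p_TD hHOR p_LEV p_CAN
  have hTE : Stmt_TE := p_TE hHOR hF2 p_LEV p_CAN p_CAM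
  have hTF : Stmt_TF := p_TF hF2 hF3 p_LEV p_CAN p_CAM p_SAC
  have hSOC : Stmt_SOC := p_SOC p_FEX hTA hT33 hTV3 hTC hTD hTE hTF p_FRV
  have hSOS : Stmt_SOS := p_SOS (p_TSO (p_TFS p_SAS p_CAM) p_ISF p_REV) p_REV
  have hPSO : Stmt_PSO := p_PSO (p_PTR p_PEL p_PTK p_PAN (p_PHO p_PEL p_PTK p_PAN p_PIT))
    (p_PTF p_PEL p_PTK p_PAN (p_PSA p_PEL p_PTK p_PAN p_PIT)) p_PAN
  exact p_PP hSOC hSOS hPSO

end Pool.FD
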