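import Pool.Agent.Work.MP_e24068_dich.DefsH
import Pool.Agent.Work.MP_e24068_lc.Poly

/-!
Statements of the blocks, hardness.
-/

set_option autoImplicit false

namespace Pool.FD

open Pool.Agent.Work.MP_e24068_lc (Var Lit Cl Sat3 HasFactorization litsL varsL to3 Inst)
open Pool.Agent.Work.TMLib

/-- Level `2`. -/
def Stmt_E2 : Prop := ∀ τ : Lit → Bool, (∀ l, τ (neg l) = !τ l) → ∀ x y : Lt,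
  (!N2 x y) = (V2 τ x y || (U1 τ x && V1 τ y) || U2 τ x y)

/-- Level `3`. -/
def Stmt_E3 : Prop := ∀ τ : Lit → Bool, (∀ l, τ (neg l) = !τ l) → ∀ x y z : Lt,
  (!N3 x y z) = (!N3 x y z || (U1 τ x && V2 τ y z) || (U2 τ x y && V1 τ z) || U3 x y z)

/-- Level `4`. -/
def Stmt_E4 : Prop := ∀ (ψ : List Cl) (τ : Lit → Bool), Good ψ τ → ∀ x₁ x₂ x₃ x₄ : Lt,
  (!W ψ x₁ x₂ x₃ x₄ || (U1 τ x₁ && !N3 x₂ x₃ x₄) || (U2 τ x₁ x₂ && V2 τ x₃ x₄) ||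
    (U3 x₁ x₂ x₃ && V1 τ x₄)) = true

/-- Level `5`. -/
def Stmt_E5 : Prop := ∀ (ψ : List Cl) (τ : Lit → Bool), Good ψ τ → ∀ x₁ x₂ x₃ x₄ x₅ : Lt,
  (!WV x₂ x₃ x₄ x₅) = (V5 ψ x₁ x₂ x₃ x₄ x₅ || (U1 τ x₁ && !W ψ x₂ x₃ x₄ x₅) ||
    (U2 τ x₁ x₂ && !N3 x₃ x₄ x₅) || (U3 x₁ x₂ x₃ && V2 τ x₄ x₅))

/-- Level `6`. -/
def Stmt_E6 : Prop := ∀ (ψ : List Cl) (τ : Lit → Bool), Good ψ τ → ∀ x₁ x₂ x₃ x₄ x₅ x₆ : Lt,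
  L6 ψ x₁ x₂ x₃ x₄ x₅ x₆ = ((U1 τ x₁ && V5 ψ x₂ x₃ x₄ x₅ x₆) ||
    (U2 τ x₁ x₂ && !W ψ x₃ x₄ x₅ x₆) || (U3 x₁ x₂ x₃ && !N3 x₄ x₅ x₆))

/-- Level `7`. -/
def Stmt_E7 : Prop := ∀ (ψ : List Cl) (τ : Lit → Bool), Good ψ τ → ∀ x₁ x₂ x₃ x₄ x₅ x₆ x₇ : Lt,
  L7 ψ x₁ x₂ x₃ x₄ x₅ x₆ x₇ = ((U2 τ x₁ x₂ && V5 ψ x₃ x₄ x₅ x₆ x₇) ||
    (U3 x₁ x₂ x₃ && !W ψ x₄ x₅ x₆ x₇))

/-- A satisfying assignment gives a factorization. -/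
def Stmt_HF : Prop := ∀ (ψ : List Cl) (V : List Var) (τ : Lit → Bool), Good ψ τ →
  HasFactorization (LL ψ V)

/-- The list of words, finiteness, lengths. -/
def Stmt_ML : Prop := ∀ (ψ : List Cl) (V : List Var),
  (∀ w, w ∈ LLl ψ V ↔ w ∈ LL ψ V) ∧ Set.Finite (LL ψ V : Set (List Lt)) ∧
    (∀ w ∈ LL ψ V, w.length ≤ 8) ∧ [] ∈ LL ψ V

/-- The lengths of the factors are determined. -/
def Stmt_TY : Prop := ∀ (ψ : List Cl) (V : List Var) (l : Lit) (L₁ L₂ : Language Lt),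
  l.1 ∈ V → LL ψ V = L₁ * L₂ → L₁ ≠ 1 → L₂ ≠ 1 →
  [] ∈ L₁ ∧ [] ∈ L₂ ∧ (∀ u ∈ L₁, u.length ≤ 3) ∧ (∀ v ∈ L₂, v.length ≤ 5) ∧
  (∀ x ∈ alph V, ∀ y ∈ alph V, ∀ z ∈ alph V, [x, y, z] ∈ L₁ ↔ U3 x y z = true)

/-- A factorization gives a satisfying assignment. -/
def Stmt_HS : Prop := ∀ (ψ : List Cl) (V : List Var),
  (∀ c ∈ ψ, c.1.1 ∈ V ∧ c.2.1.1 ∈ V ∧ c.2.2.1 ∈ V) → HasFactorization (LL ψ V) → Sat3 ψ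

/-- Hardness for words of length at most `8`. -/
def Stmt_NP : Prop := ∀ L : Set (List Bool), InNP L →
  ∃ f : List Bool → Inst, PolyTime id Inst.enc f ∧
    ∀ w, ((f w).2 ≠ [] ∧ ∀ v ∈ (f w).2, v.length ≤ 8) ∧ (w ∈ L ↔ HasFactorization (f w).lang)

end Pool.FD
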