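import Pool.Agent.Work.MP_e24068_dich.DefsP

/-!
Statements of the blocks, polynomial side.
-/

set_option autoImplicit false

namespace Pool.FD

open Pool.Agent.Work.TMLib Pool.Agent.Work.MP_e24068_lc

/-! ### Polynomial time -/

/-- Decidable equality of lists. -/
def Stmt_PEL : Prop := ∀ (α : Type) [DE α] [DecidableEq α] [PEq α], PEq (List α)

/-- Prefixes. -/
def Stmt_PTK : Prop := ∀ (α β : Type) [DE α] [DE β] (n : α → ℕ) (l : α → List β),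
  PolyF n → PolyF l → PolyF (fun x => (l x).take (n x))

/-- Existential quantifiers. -/
def Stmt_PAN : Prop := ∀ (α β : Type) [DE α] [DE β] (l : α → List β) (f : α → β → Bool),
  PolyF l → PolyF (fun p : α × β => f p.1 p.2) → PolyF (fun x => (l x).any (f x))

/-- Iteration of bounded size. -/
def Stmt_PIT : Prop := ∀ (α γ : Type) [DE α] [DE γ] (n : α → ℕ) (g : α → γ) (h : α → γ → γ)
  (Q : Polynomial ℕ), PolyF n → PolyF g → PolyF (fun p : α × γ => h p.1 p.2) →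
  (∀ x, ∀ j ≤ n x, sz ((h x)^[j] (g x)) ≤ Q.eval (sz x)) → PolyF (fun x => (h x)^[n x] (g x))

/-- The Horn algorithm. -/
def Stmt_PHO : Prop := PolyF (fun s : List Wd × List Wd × ℕ => horn s.1 s.2.1 s.2.2)

/-- The 2-SAT solver. -/
def Stmt_PSA : Prop := ∀ (V : Type) [DE V] [DecidableEq V] [PEq V],
  PolyF (fun T : List ((V × Bool) × (V × Bool)) => sat2 T)

/-- The first five tries. -/
def Stmt_PTR : Prop := PolyF (fun s : List Wd × ℕ × ℕ × ℕ × ℕ =>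
  tryA s.1 s.2.1 s.2.2.1 s.2.2.2.1 s.2.2.2.2 || tryB s.1 s.2.1 s.2.2.1 s.2.2.2.1 s.2.2.2.2 ||
  tryC s.1 s.2.1 s.2.2.1 s.2.2.2.1 s.2.2.2.2 || tryD s.1 s.2.1 s.2.2.1 s.2.2.2.1 s.2.2.2.2 ||
  tryE s.1 s.2.1 s.2.2.1 s.2.2.2.1 s.2.2.2.2)

/-- The last try. -/
def Stmt_PTF : Prop := PolyF (fun s : List Wd × ℕ × ℕ × ℕ × ℕ =>
  tryF s.1 s.2.1 s.2.2.1 s.2.2.2.1 s.2.2.2.2)

/-- The algorithm. -/
def Stmt_PSO : Prop := PolyF solve

/-! ### Correctness -/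

/-- Reversal. -/
def Stmt_REV : Prop := ∀ L : List Wd, HasFactorization (LW (rv L)) ↔ HasFactorization (LW L)

/-- Reversal of factorizations. -/
def Stmt_FRV : Prop := ∀ (L : List Wd) (U V : Set Wd) (a b p q : ℕ), Fac L U V a b p q →
  Fac (rv L) {w | w.reverse ∈ V} {w | w.reverse ∈ U} b a q p

/-- The test is sound. -/
def Stmt_ISF : Prop := ∀ L U V : List Wd, L ≠ [] → isF L U V = true → HasFactorization (LW L)

/-- The test is complete. -/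
def Stmt_ISC : Prop := ∀ (L U V : List Wd), (∀ w, w ∈ L ↔ ∃ u ∈ U, ∃ v ∈ V, u ++ v = w) →
  (∃ u ∈ U, u ≠ []) → (∃ v ∈ V, v ≠ []) → isF L U V = true

/-- The Horn algorithm reaches a fixed point, below every solution. -/
def Stmt_HFX : Prop := ∀ (L K : List Wd) (l : ℕ),
  (∀ w ∈ L, l ≤ w.length → cov K (hV L K (hX L K l)) w = false → w.take l ∈ hX L K l) ∧
  (∀ U V : Set Wd, (∀ w, w ∈ L ↔ ∃ u ∈ U, ∃ v ∈ V, u ++ v = w) → (∀ w ∈ K, w ∈ U) →
    (∀ u ∈ U, u ∈ K ∨ u.length = l) → ∀ w ∈ hX L K l, w ∈ U ∧ w.length = l)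

/-- The Horn algorithm is complete. -/
def Stmt_HOC : Prop := ∀ (L : List Wd) (U V : Set Wd) (a b p q : ℕ) (K : List Wd) (l : ℕ),
  Fac L U V a b p q → (∀ w ∈ K, w ∈ U) → (∀ u ∈ U, u ∈ K ∨ u.length = l) →
  (∃ w ∈ K, w ≠ []) → horn L K l = true

/-- The same for the second factor. -/
def Stmt_HOR : Prop := ∀ (L : List Wd) (U V : Set Wd) (a b p q : ℕ) (K : List Wd) (l : ℕ),
  Fac L U V a b p q → (∀ w ∈ K, w ∈ V) → (∀ v ∈ V, v ∈ K ∨ v.length = l) →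
  (∃ w ∈ K, w ≠ []) → hornR L K l = true

/-- The 2-SAT solver accepts satisfiable formulas. -/
def Stmt_SAC : Prop := ∀ (V : Type) [DecidableEq V] (T : List ((V × Bool) × (V × Bool)))
  (f : V → Bool), (∀ c ∈ T, f c.1.1 = c.1.2 ∨ f c.2.1 = c.2.2) → sat2 T = true

/-- The 2-SAT solver accepts only satisfiable formulas. -/
def Stmt_SAS : Prop := ∀ (V : Type) [DecidableEq V] (T : List ((V × Bool) × (V × Bool))),
  sat2 T = true → ∃ f : V → Bool, ∀ c ∈ T, f c.1.1 = c.1.2 ∨ f c.2.1 = c.2.2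

/-- The known levels. -/
def Stmt_LEV : Prop := ∀ (L : List Wd) (U V : Set Wd) (a b p q : ℕ), Fac L U V a b p q →
  (∀ w, w ∈ U0 L a b ↔ w ∈ U ∧ w.length = a) ∧ (∀ w, w ∈ V0 L a b ↔ w ∈ V ∧ w.length = b) ∧
  (∀ w, w ∈ Ut L p q ↔ w ∈ U ∧ w.length = p) ∧ (∀ w, w ∈ Vt L p q ↔ w ∈ V ∧ w.length = q)

/-- Words of a factor are candidates. -/
def Stmt_CAN : Prop := ∀ (L : List Wd) (U V : Set Wd) (a b p q : ℕ) (K : List Wd) (k : ℕ),
  Fac L U V a b p q →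
  ((∀ w ∈ K, w ∈ V) → ∀ u ∈ U, u.length = k → u ∈ cL L K k) ∧
  ((∀ w ∈ K, w ∈ U) → ∀ v ∈ V, v.length = k → v ∈ cR L K k)

/-- What candidates are. -/
def Stmt_CAM : Prop := ∀ (L K : List Wd) (k : ℕ),
  (∀ u, u ∈ cL L K k ↔ u.length = k ∧ (∃ v, u ++ v ∈ L) ∧ ∀ v ∈ K, u ++ v ∈ L) ∧
  (∀ v, v ∈ cR L K k ↔ v.length = k ∧ (∃ u, u ++ v ∈ L) ∧ ∀ u ∈ K, u ++ v ∈ L)

/-- Missing candidates just below the top levels contradict each other. -/
def Stmt_TOP : Prop := ∀ (L : List Wd) (U V : Set Wd) (a b p q : ℕ) (u v : Wd),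
  Fac L U V a b p q → u.length + 1 = p → u ∉ U → (∀ v' ∈ V, v'.length = q → u ++ v' ∈ L) →
  v.length + 1 = q → v ∉ V → (∀ u' ∈ U, u'.length = p → u' ++ v ∈ L) → False

/-- Consequence of a missing word of level `2`. -/
def Stmt_F1 : Prop := ∀ (L : List Wd) (U V : Set Wd) (a b : ℕ) (u : Wd),
  Fac L U V a b (a + 3) (b + 4) → u.length = a + 2 → u ∉ U →
  (∀ v' ∈ V, v'.length = b + 4 → u ++ v' ∈ L) →
  ∀ (x : ℕ) (v' : Wd), v'.length = b + 3 → x :: v' ∈ V → u ++ [x] ∈ U ∧ v' ∈ V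

/-- Consequence of missing words of level `2` on both sides. -/
def Stmt_F2 : Prop := ∀ (L : List Wd) (U V : Set Wd) (a b : ℕ) (u v : Wd),
  Fac L U V a b (a + 3) (b + 4) → u.length = a + 2 → u ∉ U →
  (∀ v' ∈ V, v'.length = b + 4 → u ++ v' ∈ L) → v.length = b + 2 → v ∉ V →
  (∀ u' ∈ U, u'.length = a + 3 → u' ++ v ∈ L) →
  ∀ (x : ℕ) (v' : Wd), v'.length = b + 3 → x :: v' ∈ V →
    u.take (a + 1) ∈ U ∧ u.drop (a + 1) ++ x :: v ∈ V ∧ x :: v ∈ V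

/-- If level `1` of the first factor lacks a good candidate: a missing word of level `2` of the
second factor has its suffix in the second factor. -/
def Stmt_F3 : Prop := ∀ (L : List Wd) (U V : Set Wd) (a b : ℕ) (u v r : Wd),
  Fac L U V a b (a + 3) (b + 4) → u.length = a + 2 → u ∉ U →
  (∀ v' ∈ V, v'.length = b + 4 → u ++ v' ∈ L) → v.length = b + 2 → v ∉ V →
  (∀ u' ∈ U, u'.length = a + 3 → u' ++ v ∈ L) →
  r.length = a + 1 → r ∉ U → (∀ v' ∈ V, v'.length = b + 3 → r ++ v' ∈ L) →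
  (r.take a ∉ U ∨ ∀ v' : Wd, v'.length = b + 3 → r.drop a ++ v' ∉ V) → v.drop 1 ∈ V

/-- Try A: at most one unknown level. -/
def Stmt_TA : Prop := ∀ (L : List Wd) (U V : Set Wd) (a b p q : ℕ), Fac L U V a b p q →
  p ≤ a + 2 → tryA L a b p q = true

/-- Try B. -/
def Stmt_TB : Prop := ∀ (L : List Wd) (U V : Set Wd) (a b q : ℕ), Fac L U V a b (a + 3) q →
  (∀ u ∈ cL L (V0 L a b ++ Vt L (a + 3) q) (a + 2), u ∈ U) → tryB L a b (a + 3) q = true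

/-- The spread `6`. -/
def Stmt_T33 : Prop := ∀ (L : List Wd) (U V : Set Wd) (a b : ℕ),
  Fac L U V a b (a + 3) (b + 3) →
  tryB L a b (a + 3) (b + 3) = true ∨ tryB (rv L) b a (b + 3) (a + 3) = true

/-- If try B fails, level `3` of the second factor consists of all candidates. -/
def Stmt_TV3 : Prop := ∀ (L : List Wd) (U V : Set Wd) (a b : ℕ),
  Fac L U V a b (a + 3) (b + 4) →
  tryB L a b (a + 3) (b + 4) = true ∨
    ∀ w, w ∈ V3 L a b (a + 3) (b + 4) ↔ w ∈ V ∧ w.length = b + 3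

/-- Try C. -/
def Stmt_TC : Prop := ∀ (L : List Wd) (U V : Set Wd) (a b : ℕ),
  Fac L U V a b (a + 3) (b + 4) →
  (∀ w, w ∈ V3 L a b (a + 3) (b + 4) ↔ w ∈ V ∧ w.length = b + 3) →
  (∀ u ∈ C2 L a b (a + 3) (b + 4), u ∈ U) → tryC L a b (a + 3) (b + 4) = true

/-- Try D. -/
def Stmt_TD : Prop := ∀ (L : List Wd) (U V : Set Wd) (a b : ℕ),
  Fac L U V a b (a + 3) (b + 4) →
  (∀ w, w ∈ V3 L a b (a + 3) (b + 4) ↔ w ∈ V ∧ w.length = b + 3) →
  (∀ v ∈ D2 L a b (a + 3) (b + 4), v ∈ V) → tryD L a b (a + 3) (b + 4) = true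

/-- Try E. -/
def Stmt_TE : Prop := ∀ (L : List Wd) (U V : Set Wd) (a b : ℕ),
  Fac L U V a b (a + 3) (b + 4) →
  (∀ w, w ∈ V3 L a b (a + 3) (b + 4) ↔ w ∈ V ∧ w.length = b + 3) →
  (∃ u ∈ C2 L a b (a + 3) (b + 4), u ∉ U) → (∃ v ∈ D2 L a b (a + 3) (b + 4), v ∉ V) →
  (∀ r ∈ C1 L a b (a + 3) (b + 4), gd L a b (a + 3) (b + 4) r = true → r ∈ U) →
  tryE L a b (a + 3) (b + 4) = true

/-- Try F. -/
def Stmt_TF : Prop := ∀ (L : List Wd) (U V : Set Wd) (a b : ℕ),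
  Fac L U V a b (a + 3) (b + 4) →
  (∀ w, w ∈ V3 L a b (a + 3) (b + 4) ↔ w ∈ V ∧ w.length = b + 3) →
  (∃ u ∈ C2 L a b (a + 3) (b + 4), u ∉ U) → (∃ v ∈ D2 L a b (a + 3) (b + 4), v ∉ V) →
  (∃ r ∈ C1 L a b (a + 3) (b + 4), gd L a b (a + 3) (b + 4) r = true ∧ r ∉ U) →
  tryF L a b (a + 3) (b + 4) = true

/-- Try F is sound. -/
def Stmt_TFS : Prop := ∀ (L : List Wd) (a b p q : ℕ), L ≠ [] → tryF L a b p q = true →
  HasFactorization (LW L)

/-- All tries are sound. -/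
def Stmt_TSO : Prop := ∀ (L : List Wd) (a b p q : ℕ), L ≠ [] → tries L a b p q = true →
  HasFactorization (LW L)

/-- Lengths of a factorization. -/
def Stmt_FEX : Prop := ∀ L : List Wd, L ≠ [] → (∀ v ∈ L, ∀ w ∈ L, w.length ≤ v.length + 7) →
  HasFactorization (LW L) → ∃ (U V : Set Wd) (a b p q : ℕ), Fac L U V a b p q ∧
    p + q ≤ a + b + 7 ∧ a ≤ p ∧ b ≤ q ∧ p + q < (L.flatMap fun w => w).length + 1

/-- The algorithm accepts if there is a factorization. -/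
def Stmt_SOC : Prop := ∀ L : List Wd, L ≠ [] → (∀ v ∈ L, ∀ w ∈ L, w.length ≤ v.length + 7) →
  HasFactorization (LW L) → solve L = true

/-- The algorithm accepts only if there is a factorization. -/
def Stmt_SOS : Prop := ∀ L : List Wd, L ≠ [] → solve L = true → HasFactorization (LW L)

/-- The decision problem for words whose lengths differ by at most `7`. -/
def Stmt_PP : Prop := ∃ f : Inst → Bool, PolyTime Inst.enc (fun b : Bool => [b]) f ∧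
  ∀ I : Inst, I.2 ≠ [] → (∀ v ∈ I.2, ∀ w ∈ I.2, w.length ≤ v.length + 7) →
    (f I = true ↔ HasFactorization I.lang)

end Pool.FD
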